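import Pool.Agent.H268R2.LB.NW

/-!
# Ends of nonbacktracking walks with prescribed steps
-/

set_option autoImplicit false

open Finset

namespace Pool.TH815.GR

open Pool.Agent.H268R2.LB

variable {V : Type*} {G : SimpleGraph V}

/-- If at time `i` a walk may go from `y ∈ W i` to at least `δ i` neighbours `T i y ⊆ W (i + 1)`,
then at least `∏ (δ i - 1)` vertices are ends of nonbacktracking walks with `n` steps. -/
theorem growthT {M : ℕ} (hg : ∀ (v : V) (p : G.Walk v v), p.IsCycle → M < p.length)
    [DecidableEq V] (W : ℕ → Finset V) (T : ℕ → V → Finset V) (δ : ℕ → ℕ)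
    (hTW : ∀ i, ∀ y ∈ W i, ∀ z ∈ T i y, z ∈ W (i + 1) ∧ G.Adj y z)
    (hδ : ∀ i, ∀ y ∈ W i, δ i ≤ (T i y).card) {v : V} (hv : v ∈ W 0) :
    ∀ n, 2 * n ≤ M → ∃ E : Finset V, ∏ i ∈ range n, (δ i - 1) ≤ E.card ∧
      ∀ y ∈ E, y ∈ W n ∧ ((n = 0 ∧ v = y) ∨ ∃ b c, NW G n v b c y) := by
  intro n
  induction n with
  | zero =>
    intro _
    exact ⟨{v}, by simp, by simp [hv]⟩
  | succ n ih =>
    intro hM
    obtain ⟨E, hE, hE'⟩ := ih (by omega)
    rcases Nat.eq_zero_or_pos n with h0 | hpos
    · subst h0
      refine ⟨T 0 v, ?_, ?_⟩
      · have := hδ 0 v hv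
        simp only [zero_add, prod_range_one]
        omega
      · intro y hy
        have := hTW 0 v hv y hy
        exact ⟨this.1, Or.inr ⟨_, _, NW.one this.2⟩⟩
    · have hch : ∀ y ∈ E, ∃ b c, NW G n v b c y := by
        intro y hy
        rcases (hE' y hy).2 with ⟨h, _⟩ | h
        · omega
        · exact h
      choose! b c hbc using hch
      refine ⟨E.biUnion (fun y => (T n y).erase (c y)), ?_, ?_⟩
      · rw [card_biUnion]
        · calc ∏ i ∈ range (n + 1), (δ i - 1) ≤ E.card * (δ n - 1) := by
                rw [prod_range_succ]; exact Nat.mul_le_mul_right _ hE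
            _ = ∑ _y ∈ E, (δ n - 1) := by simp
            _ ≤ _ := by
                refine sum_le_sum fun y hy => ?_
                have h1 := hδ n y (hE' y hy).1
                have h2 := pred_card_le_card_erase (s := T n y) (a := c y)
                omega
        · intro y hy y' hy' hne
          rw [Function.onFun, Finset.disjoint_left]
          intro z hz hz'
          rw [mem_erase] at hz hz'
          have w1 := NW.step (hbc y hy) (hTW n y (hE' y hy).1 z hz.2).2 (Ne.symm hz.1)
          have w2 := (NW.step (hbc y' hy') (hTW n y' (hE' y' hy').1 z hz'.2).2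
            (Ne.symm hz'.1)).rev
          have w3 := NW.append w1 w2 hne
          exact no_closed hg w3 (by omega)
      · intro z hz
        rw [mem_biUnion] at hz
        obtain ⟨y, hy, hz⟩ := hz
        rw [mem_erase] at hz
        have := hTW n y (hE' y hy).1 z hz.2
        exact ⟨this.1, Or.inr ⟨_, _, NW.step (hbc y hy) this.2 (Ne.symm hz.1)⟩⟩

/-- A nonempty set of arcs in which every row has more than `a` and every column more than `b`
elements. -/
theorem clean {X Y : Type*} [DecidableEq X] [DecidableEq Y] (S : Finset (X × Y)) (a b : ℝ)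
    (ha : 0 ≤ a) (hb : 0 ≤ b)
    (hw : 0 < (S.card : ℝ) - a * (S.image Prod.fst).card - b * (S.image Prod.snd).card) :
    ∃ S' ⊆ S, S'.Nonempty ∧ (∀ p ∈ S', a ≤ ((S'.filter (fun q => q.1 = p.1)).card : ℝ)) ∧
      ∀ p ∈ S', b ≤ ((S'.filter (fun q => q.2 = p.2)).card : ℝ) := by
  classical
  induction hn : S.card using Nat.strong_induction_on generalizing S with
  | _ n ih =>
    subst hn
    by_cases h : (∀ p ∈ S, a ≤ ((S.filter (fun q => q.1 = p.1)).card : ℝ)) ∧
        ∀ p ∈ S, b ≤ ((S.filter (fun q => q.2 = p.2)).card : ℝ)
    · refine ⟨S, subset_rfl, ?_, h.1, h.2⟩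
      rw [nonempty_iff_ne_empty]
      rintro rfl
      simp at hw
    · rw [not_and_or] at h
      push Not at h
      rcases h with ⟨p, hp, hlt⟩ | ⟨p, hp, hlt⟩
      · have hcard : (S.filter (fun q => q.1 = p.1)).card +
            (S.filter (fun q => ¬ q.1 = p.1)).card = S.card :=
          card_filter_add_card_filter_not _
        have hpos : 0 < (S.filter (fun q => q.1 = p.1)).card :=
          card_pos.2 ⟨p, by simp [hp]⟩
        have h1 : ((S.filter (fun q => ¬ q.1 = p.1)).image Prod.fst).card + 1 ≤
            (S.image Prod.fst).card := by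
          have : (S.filter (fun q => ¬ q.1 = p.1)).image Prod.fst ⊆
              (S.image Prod.fst).erase p.1 := by
            intro x hx
            rw [mem_image] at hx
            obtain ⟨q, hq, rfl⟩ := hx
            rw [mem_filter] at hq
            exact mem_erase.2 ⟨hq.2, mem_image_of_mem _ hq.1⟩
          have h2 := card_le_card this
          rw [card_erase_of_mem (mem_image_of_mem _ hp)] at h2
          have : 0 < (S.image Prod.fst).card := card_pos.2 ⟨_, mem_image_of_mem _ hp⟩
          omega
        have h2 : ((S.filter (fun q => ¬ q.1 = p.1)).image Prod.snd).card ≤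
            (S.image Prod.snd).card := card_le_card (image_subset_image (filter_subset _ _))
        obtain ⟨S', hS', r⟩ := ih _ (by omega) (S.filter (fun q => ¬ q.1 = p.1)) (by
          have e1 : ((S.filter (fun q => q.1 = p.1)).card : ℝ) +
            ((S.filter (fun q => ¬ q.1 = p.1)).card : ℝ) = S.card := by exact_mod_cast hcard
          have e2 : (((S.filter (fun q => ¬ q.1 = p.1)).image Prod.fst).card : ℝ) + 1 ≤
            (S.image Prod.fst).card := by exact_mod_cast h1
          have e3 : (((S.filter (fun q => ¬ q.1 = p.1)).image Prod.snd).card : ℝ) ≤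
            (S.image Prod.snd).card := by exact_mod_cast h2
          nlinarith [mul_le_mul_of_nonneg_left e2 ha, mul_le_mul_of_nonneg_left e3 hb]) rfl
        exact ⟨S', hS'.trans (filter_subset _ _), r⟩
      · have hcard : (S.filter (fun q => q.2 = p.2)).card +
            (S.filter (fun q => ¬ q.2 = p.2)).card = S.card :=
          card_filter_add_card_filter_not _
        have hpos : 0 < (S.filter (fun q => q.2 = p.2)).card :=
          card_pos.2 ⟨p, by simp [hp]⟩
        have h1 : ((S.filter (fun q => ¬ q.2 = p.2)).image Prod.snd).card + 1 ≤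
            (S.image Prod.snd).card := by
          have : (S.filter (fun q => ¬ q.2 = p.2)).image Prod.snd ⊆
              (S.image Prod.snd).erase p.2 := by
            intro x hx
            rw [mem_image] at hx
            obtain ⟨q, hq, rfl⟩ := hx
            rw [mem_filter] at hq
            exact mem_erase.2 ⟨hq.2, mem_image_of_mem _ hq.1⟩
          have h2 := card_le_card this
          rw [card_erase_of_mem (mem_image_of_mem _ hp)] at h2
          have : 0 < (S.image Prod.snd).card := card_pos.2 ⟨_, mem_image_of_mem _ hp⟩
          omega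
        have h2 : ((S.filter (fun q => ¬ q.2 = p.2)).image Prod.fst).card ≤
            (S.image Prod.fst).card := card_le_card (image_subset_image (filter_subset _ _))
        obtain ⟨S', hS', r⟩ := ih _ (by omega) (S.filter (fun q => ¬ q.2 = p.2)) (by
          have e1 : ((S.filter (fun q => q.2 = p.2)).card : ℝ) +
            ((S.filter (fun q => ¬ q.2 = p.2)).card : ℝ) = S.card := by exact_mod_cast hcard
          have e2 : (((S.filter (fun q => ¬ q.2 = p.2)).image Prod.snd).card : ℝ) + 1 ≤
            (S.image Prod.snd).card := by exact_mod_cast h1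
          have e3 : (((S.filter (fun q => ¬ q.2 = p.2)).image Prod.fst).card : ℝ) ≤
            (S.image Prod.fst).card := by exact_mod_cast h2
          nlinarith [mul_le_mul_of_nonneg_left e2 hb, mul_le_mul_of_nonneg_left e3 ha]) rfl
        exact ⟨S', hS'.trans (filter_subset _ _), r⟩

end Pool.TH815.GR
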