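import Pool.Agent.TH815.GR7

/-!
# Almost all edges lie in an almost regular induced subgraph
-/

set_option autoImplicit false

open Finset

namespace Pool.TH815.GR

open Pool.Agent.H268R2.LB

variable {V : Type*} [Fintype V] [DecidableEq V]

theorem almost_all (G : SimpleGraph V) [DecidableRel G.Adj] {k : ℕ} (hk : 1 ≤ k)
    (hg : ∀ (v : V) (p : G.Walk v v), p.IsCycle → 2 * k < p.length) (c η : ℝ) (hc : 0 < c)
    (hη : 0 < η) (hn : 32 / (η * c) ≤ (Fintype.card V : ℝ) ^ (1 / (k : ℝ)))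
    (he : c * (Fintype.card V : ℝ) ^ (1 + 1 / (k : ℝ)) ≤ (G.edgeFinset.card : ℝ)) :
    ∃ U : Finset V,
      (1 - η) * (2 * (G.edgeFinset.card : ℝ)) ≤
        ∑ x ∈ U, ((U.filter fun y => G.Adj x y).card : ℝ) ∧ ∀ x ∈ U,
      η * c / 2 * (Fintype.card V : ℝ) ^ (1 / (k : ℝ)) ≤
        ((U.filter fun y => G.Adj x y).card : ℝ) ∧
      (G.degree x : ℝ) ≤ 256 / (η * c) * (Fintype.card V : ℝ) ^ (1 / (k : ℝ)) := by
  set n : ℝ := (Fintype.card V : ℝ) with hndef
  set N : ℝ := n ^ (1 / (k : ℝ)) with hN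
  have hn0 : 0 ≤ n := Nat.cast_nonneg _
  have hNpos : 0 < N := lt_of_lt_of_le (by positivity) hn
  have hnpos : 0 < n := by
    rcases hn0.eq_or_lt with h | h
    · rw [hN, ← h, Real.zero_rpow (by positivity)] at hNpos
      exact absurd hNpos (lt_irrefl _)
    · exact h
  have hrp : n ^ (1 + 1 / (k : ℝ)) = n * N := by
    rw [Real.rpow_add hnpos, Real.rpow_one]
  rw [hrp] at he
  set K : ℝ := 256 / (η * c) with hK
  have hKpos : 0 < K := by positivity
  set H := univ.filter (fun x => K * N < (G.degree x : ℝ)) with hHdef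
  have htail := tail G hk hg K hKpos
  rw [← hndef, ← hN, hrp, ← hHdef] at htail
  set f : ℝ := ∑ x ∈ H, (G.degree x : ℝ) with hf
  set m : ℝ := ∑ i, ∑ j, G.adjMatrix ℝ i j with hm
  have hm1 : m = 2 * G.edgeFinset.card := by
    rw [hm]
    simp only [sum_adj]
    rw [← Nat.cast_sum, G.sum_degrees_eq_twice_card_edges]
    push_cast
    rfl
  have hm2 : 2 * (c * (n * N)) ≤ m := by rw [hm1]; linarith
  have hm3 : η * (2 * (c * (n * N))) ≤ η * m := mul_le_mul_of_nonneg_left hm2 hη.le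
  have hf2 : 2 * f ≤ η * m / 2 := by
    have e1 : 64 / K = η * c / 4 := by
      rw [hK]; field_simp; norm_num
    rw [e1] at htail
    have e2 : 32 * n ≤ η * c * (n * N) := by
      rw [div_le_iff₀ (by positivity)] at hn
      nlinarith [mul_le_mul_of_nonneg_left hn hnpos.le]
    nlinarith
  have hmass := AL_mass G H
  rw [← hm, ← hf] at hmass
  have hres : ∑ x ∈ Hᶜ, ∑ y ∈ Hᶜ, G.adjMatrix ℝ x y = ∑ i, ∑ j, AL G Hᶜ i j := by
    have e1 : ∀ i, ∑ j, AL G Hᶜ i j = if i ∈ Hᶜ then ∑ y ∈ Hᶜ, G.adjMatrix ℝ i y else 0 := by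
      intro i
      by_cases hi : i ∈ Hᶜ
      · simp only [AL, Matrix.of_apply, hi, true_and, if_true]
        rw [← sum_filter]
        congr 1
        ext j; simp
      · simp only [AL, Matrix.of_apply, hi, false_and, if_false, sum_const_zero]
    simp only [e1]
    rw [← sum_filter]
    congr 1
    ext j; simp
  obtain ⟨U, hU, hw, hdeg⟩ := core (fun x y => G.adjMatrix ℝ x y)
    (fun x y => by simp only [SimpleGraph.adjMatrix_apply, G.adj_comm x y])
    (fun x => by simp [SimpleGraph.adjMatrix_apply]) (η * c * N) Hᶜ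
  have hUdeg : ∀ x ∈ U, (G.degree x : ℝ) ≤ K * N := by
    intro x hx
    have := hU hx
    rw [mem_compl, hHdef, mem_filter] at this
    push Not at this
    exact this (mem_univ x)
  have hrow : ∀ x, ∑ y ∈ U, G.adjMatrix ℝ x y = ((U.filter fun y => G.Adj x y).card : ℝ) := by
    intro x
    simp only [SimpleGraph.adjMatrix_apply]
    rw [card_filter]
    push_cast
    rfl
  have hcard : ((Hᶜ).card : ℝ) ≤ n := by
    have : (Hᶜ).card ≤ Fintype.card V := card_le_univ _
    exact Nat.cast_le.2 this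
  refine ⟨U, ?_, fun x hx => ⟨?_, hUdeg x hx⟩⟩
  · rw [← hm1]
    have h2 : η * c * N * ((Hᶜ).card : ℝ) ≤ η * c * N * n :=
      mul_le_mul_of_nonneg_left hcard (by positivity)
    have h3 : 0 ≤ η * c * N * (U.card : ℝ) := by positivity
    have h4 : ∑ x ∈ U, ((U.filter fun y => G.Adj x y).card : ℝ) =
        ∑ x ∈ U, ∑ y ∈ U, G.adjMatrix ℝ x y := sum_congr rfl fun x _ => (hrow x).symm
    rw [h4]
    rw [hres] at hw
    nlinarith
  · have := hdeg x hx
    rw [hrow] at this
    refine le_trans (le_of_eq ?_) this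
    ring

end Pool.TH815.GR
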