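import Pool.Agent.TH815.GR12

/-!
# The Zarankiewicz problem in regular form
-/

set_option autoImplicit false

open Finset

namespace Pool.TH815.GR

/-- From a graph with more than `(q - 1) n` edges, `q` prime, to a `d`-regular bipartite graph,
`d ≤ q`, with a locally injective homomorphism to the given graph. -/
theorem regular_cover {V : Type} [Fintype V] [DecidableEq V] (G : SimpleGraph V)
    [DecidableRel G.Adj] (q d : ℕ) (hq : q.Prime)
    (hdq : d ≤ q) (he : (q - 1) * Fintype.card V < G.edgeFinset.card) :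
    ∃ (m : ℕ) (B : SimpleGraph (Fin m ⊕ Fin m)) (ρ : Fin m ⊕ Fin m → V), 0 < m ∧
      m * q ≤ 2 * G.edgeFinset.card ∧ (∀ x y, B.Adj x y → G.Adj (ρ x) (ρ y)) ∧
      (∀ x y y', B.Adj x y → B.Adj x y' → y ≠ y' → ρ y ≠ ρ y') ∧
      (∀ x y, ¬ B.Adj (Sum.inl x) (Sum.inl y)) ∧ (∀ x y, ¬ B.Adj (Sum.inr x) (Sum.inr y)) ∧
      ∀ z, (B.neighborSet z).ncard = d := by
  classical
  have : Fact q.Prime := ⟨hq⟩
  obtain ⟨F, hFG, ⟨a0, b0, hab⟩, hdiv⟩ := exists_mod G q he
  have hdeg : ∀ v, F.degree v = (F.neighborSet v).ncard := by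
    intro v
    rw [← F.card_neighborFinset_eq_degree, ← Set.ncard_coe_finset, F.coe_neighborFinset]
  have hdiv' : ∀ v, q ∣ F.degree v := fun v => by rw [hdeg]; exact hdiv v
  obtain ⟨W, iW, dW, E, dE, π, hcard, hsymm, hreg, hadj, hnb⟩ := split F q hq.pos hdiv'
  obtain ⟨R, dR, hRE, hR1, hR2⟩ := exists_regular_sub d (q - d) E (by
    intro a
    rw [hreg a]
    omega) (by
    intro b
    have : (univ.filter fun a => E a b) = (univ.filter fun a => E b a) := by
      ext a
      simp only [mem_filter, mem_univ, true_and]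
      exact ⟨fun h => hsymm _ _ h, fun h => hsymm _ _ h⟩
    rw [this, hreg b]
    omega)
  set m := Fintype.card W with hm
  let e : Fin m ≃ W := (Fintype.equivFin W).symm
  have hmpos : 0 < m := by
    have h1 : 0 < F.degree a0 := by
      rw [F.degree_pos_iff_exists_adj]
      exact ⟨b0, hab⟩
    have h2 : F.degree a0 ≤ ∑ v, F.degree v :=
      single_le_sum (f := fun v => F.degree v) (fun _ _ => Nat.zero_le _) (mem_univ a0)
    rw [← hcard] at h2
    exact Nat.pos_of_mul_pos_right (lt_of_lt_of_le h1 h2)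
  have hr : ∀ a : Fin m, {b : Fin m | R (e a) (e b)}.ncard = d := by
    intro a
    rw [← Set.ncard_image_of_injective _ e.injective, ← hR1 (e a), ← Set.ncard_coe_finset]
    congr 1
    ext w
    simp only [Set.mem_image, coe_filter, mem_univ, true_and]
    constructor
    · rintro ⟨b, hb, rfl⟩
      exact hb
    · intro hw
      refine ⟨e.symm w, ?_, by simp⟩
      show R (e a) (e (e.symm w))
      rw [e.apply_symm_apply]
      exact hw
  have hc : ∀ b : Fin m, {a : Fin m | R (e a) (e b)}.ncard = d := by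
    intro b
    rw [← Set.ncard_image_of_injective _ e.injective, ← hR2 (e b), ← Set.ncard_coe_finset]
    congr 1
    ext w
    simp only [Set.mem_image, coe_filter, mem_univ, true_and]
    constructor
    · rintro ⟨a, ha, rfl⟩
      exact ha
    · intro hw
      refine ⟨e.symm w, ?_, by simp⟩
      show R (e (e.symm w)) (e b)
      rw [e.apply_symm_apply]
      exact hw
  set B : SimpleGraph (Fin m ⊕ Fin m) := SimpleGraph.fromRel (fun x y : Fin m ⊕ Fin m =>
      ∃ a b, x = Sum.inl a ∧ y = Sum.inr b ∧ R (e a) (e b)) with hB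
  have hlr : ∀ a b, B.Adj (Sum.inl a) (Sum.inr b) ↔ R (e a) (e b) := by
    intro a b
    rw [hB, SimpleGraph.fromRel_adj]
    constructor
    · rintro ⟨-, ⟨a', b', h1, h2, h3⟩ | ⟨a', b', h1, h2, h3⟩⟩
      · rw [Sum.inl.inj h1, Sum.inr.inj h2]; exact h3
      · cases h1
    · intro h
      exact ⟨by simp, Or.inl ⟨a, b, rfl, rfl, h⟩⟩
  have hll : ∀ a b, ¬ B.Adj (Sum.inl a) (Sum.inl b) := by
    intro a b
    rw [hB, SimpleGraph.fromRel_adj]
    rintro ⟨-, ⟨a', b', h1, h2, h3⟩ | ⟨a', b', h1, h2, h3⟩⟩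
    · cases h2
    · cases h2
  have hrr : ∀ a b, ¬ B.Adj (Sum.inr a) (Sum.inr b) := by
    intro a b
    rw [hB, SimpleGraph.fromRel_adj]
    rintro ⟨-, ⟨a', b', h1, h2, h3⟩ | ⟨a', b', h1, h2, h3⟩⟩
    · cases h1
    · cases h1
  refine ⟨m, B, Sum.elim (fun a => π (e a)) (fun b => π (e b)), hmpos, ?_, ?_, ?_, hll, hrr, ?_⟩
  · rw [hcard, ← G.sum_degrees_eq_twice_card_edges]
    apply sum_le_sum
    intro v _
    exact SimpleGraph.degree_le_of_le hFG
  · rintro (a | a) (b | b) h
    · exact absurd h (hll a b)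
    · exact hFG (hadj _ _ (hRE _ _ ((hlr a b).1 h)))
    · exact (hFG (hadj _ _ (hRE _ _ ((hlr b a).1 h.symm)))).symm
    · exact absurd h (hrr a b)
  · rintro (a | a) (b | b) (b' | b') h h' hne
    · exact absurd h (hll a b)
    · exact absurd h (hll a b)
    · exact absurd h' (hll a b')
    · exact hnb _ _ _ (hRE _ _ ((hlr a b).1 h)) (hRE _ _ ((hlr a b').1 h'))
        (fun h0 => hne (by rw [e.injective h0]))
    · exact hnb _ _ _ (hsymm _ _ (hRE _ _ ((hlr b a).1 h.symm)))
        (hsymm _ _ (hRE _ _ ((hlr b' a).1 h'.symm))) (fun h0 => hne (by rw [e.injective h0]))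
    · exact absurd h' (hrr a b')
    · exact absurd h (hrr a b)
    · exact absurd h (hrr a b)
  · rintro (a | b)
    · have e1 : B.neighborSet (Sum.inl a) = Sum.inr '' {b | R (e a) (e b)} := by
        ext z
        rw [SimpleGraph.mem_neighborSet]
        constructor
        · intro hz
          rcases z with b | b
          · exact absurd hz (hll a b)
          · exact ⟨b, (hlr a b).1 hz, rfl⟩
        · rintro ⟨b, hb, rfl⟩
          exact (hlr a b).2 hb
      rw [e1, Set.ncard_image_of_injective _ Sum.inr_injective, hr]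
    · have e1 : B.neighborSet (Sum.inr b) = Sum.inl '' {a | R (e a) (e b)} := by
        ext z
        rw [SimpleGraph.mem_neighborSet]
        constructor
        · intro hz
          rcases z with a | a
          · exact ⟨a, (hlr a b).1 hz.symm, rfl⟩
          · exact absurd hz (hrr b a)
        · rintro ⟨a, ha, rfl⟩
          exact ((hlr a b).2 ha).symm
      rw [e1, Set.ncard_image_of_injective _ Sum.inl_injective, hc]

/-- `G` contains no complete bipartite graph with parts of size `s` and `t`. -/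
def KFree {V : Type} (s t : ℕ) (G : SimpleGraph V) : Prop :=
  ∀ (a : Fin s → V) (b : Fin t → V), Function.Injective a → Function.Injective b →
    ¬ ∀ i j, G.Adj (a i) (b j)

theorem KFree.of_local {V W : Type} {s t : ℕ} (hs : 1 ≤ s) (ht : 1 ≤ t) {G : SimpleGraph V}
    {B : SimpleGraph W} (ρ : W → V) (h1 : ∀ x y, B.Adj x y → G.Adj (ρ x) (ρ y))
    (h2 : ∀ x y y', B.Adj x y → B.Adj x y' → y ≠ y' → ρ y ≠ ρ y') (hG : KFree s t G) :
    KFree s t B := by
  intro a b ha hb hab
  refine hG (fun i => ρ (a i)) (fun j => ρ (b j)) ?_ ?_ (fun i j => h1 _ _ (hab i j))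
  · intro i i' he
    by_contra hne
    exact h2 (b ⟨0, ht⟩) (a i) (a i') (hab _ _).symm (hab _ _).symm (fun h => hne (ha h)) he
  · intro j j' he
    by_contra hne
    exact h2 (a ⟨0, hs⟩) (b j) (b j') (hab _ _) (hab _ _) (fun h => hne (hb h)) he

/-- the disjoint union of `n / m` copies of `G` -/
def cop (m n : ℕ) (hm : 0 < m) (G : SimpleGraph (Fin m)) : SimpleGraph (Fin n) where
  Adj i j := i.val < n / m * m ∧ j.val < n / m * m ∧ i.val / m = j.val / m ∧
    G.Adj ⟨i.val % m, Nat.mod_lt _ hm⟩ ⟨j.val % m, Nat.mod_lt _ hm⟩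
  symm := by
    constructor
    rintro i j ⟨h1, h2, h3, h4⟩
    exact ⟨h2, h1, h3.symm, h4.symm⟩
  loopless := ⟨fun i h => G.irrefl h.2.2.2⟩

theorem cop_free {s t : ℕ} (hs : 1 ≤ s) (ht : 1 ≤ t) (m n : ℕ) (hm : 0 < m)
    (G : SimpleGraph (Fin m)) (hG : KFree s t G) : KFree s t (cop m n hm G) := by
  refine KFree.of_local hs ht (fun i : Fin n => (⟨i.val % m, Nat.mod_lt _ hm⟩ : Fin m))
    (fun x y h => h.2.2.2) ?_ hG
  intro x y y' h h' hne he
  apply hne
  have h3 : y.val / m = y'.val / m := h.2.2.1.symm.trans h'.2.2.1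
  have h4 : y.val % m = y'.val % m := congrArg Fin.val he
  apply Fin.ext
  rw [← Nat.div_add_mod y.val m, ← Nat.div_add_mod y'.val m, h3, h4]

end Pool.TH815.GR
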