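import Pool.Agent.TH815.GR13

/-!
# The Zarankiewicz problem in regular form, continued
-/

set_option autoImplicit false

open Finset

namespace Pool.TH815.GR

theorem cop_edges (m n d : ℕ) (hm : 0 < m) (hmn : m ≤ n) (G : SimpleGraph (Fin m))
    [DecidableRel G.Adj] (hd : ∀ v, d ≤ G.degree v) :
    n * d ≤ 4 * (cop m n hm G).edgeSet.ncard := by
  classical
  have hdeg : ∀ i : Fin n, i.val < n / m * m → d ≤ (cop m n hm G).degree i := by
    intro i hi
    apply (hd ⟨i.val % m, Nat.mod_lt _ hm⟩).trans
    rw [← SimpleGraph.card_neighborFinset_eq_degree, ← SimpleGraph.card_neighborFinset_eq_degree]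
    have hlt : ∀ j : Fin m, i.val / m * m + j.val < n / m * m := by
      intro j
      have h1 : i.val / m < n / m := by
        rw [Nat.div_lt_iff_lt_mul hm]; exact hi
      have h2 : (i.val / m + 1) * m ≤ n / m * m := Nat.mul_le_mul_right m h1
      have := j.isLt
      rw [Nat.add_mul] at h2
      omega
    have hn : n / m * m ≤ n := Nat.div_mul_le_self n m
    apply Finset.card_le_card_of_injOn
      (fun j : Fin m => (⟨i.val / m * m + j.val, (hlt j).trans_le hn⟩ : Fin n))
    · intro j hj
      have hj' : G.Adj ⟨i.val % m, Nat.mod_lt _ hm⟩ j := by simpa using hj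
      have h1 : (i.val / m * m + j.val) / m = i.val / m := by
        rw [Nat.mul_comm, Nat.mul_add_div hm, Nat.div_eq_of_lt j.isLt, add_zero]
      have h2 : (i.val / m * m + j.val) % m = j.val := by
        rw [Nat.mul_comm, Nat.mul_add_mod, Nat.mod_eq_of_lt j.isLt]
      have h3 : (cop m n hm G).Adj i ⟨i.val / m * m + j.val, (hlt j).trans_le hn⟩ := by
        refine ⟨hi, hlt j, h1.symm, ?_⟩
        have h4 : (⟨(i.val / m * m + j.val) % m, Nat.mod_lt _ hm⟩ : Fin m) = j := Fin.ext h2
        show G.Adj _ (⟨(i.val / m * m + j.val) % m, Nat.mod_lt _ hm⟩ : Fin m)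
        rw [h4]
        exact hj'
      simpa using h3
    · intro j _ j' _ hjj
      have := congrArg Fin.val hjj
      apply Fin.ext
      simp only at this
      omega
  have hsum := (cop m n hm G).sum_degrees_eq_twice_card_edges
  have hcard : (cop m n hm G).edgeFinset.card = (cop m n hm G).edgeSet.ncard := by
    rw [Set.ncard_eq_toFinset_card']
    rfl
  rw [hcard] at hsum
  have h1 : n / m * m * d ≤ ∑ v, (cop m n hm G).degree v := by
    have h2 : ∑ v ∈ Finset.univ.filter (fun i : Fin n => i.val < n / m * m),
        (cop m n hm G).degree v ≤ ∑ v, (cop m n hm G).degree v :=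
      Finset.sum_le_sum_of_subset (Finset.filter_subset _ _)
    refine le_trans ?_ h2
    have h3 : (Finset.univ.filter (fun i : Fin n => i.val < n / m * m)).card = n / m * m := by
      rw [Fin.card_filter_val_lt]
      exact min_eq_right (Nat.div_mul_le_self n m)
    have h4 := Finset.card_nsmul_le_sum
      (Finset.univ.filter (fun i : Fin n => i.val < n / m * m))
      (fun v => (cop m n hm G).degree v) d (fun v hv => hdeg v (by simpa using hv))
    rw [h3, smul_eq_mul] at h4
    exact h4
  have h5 : n ≤ 2 * (n / m * m) := by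
    have h6 : 1 ≤ n / m := by
      rw [Nat.one_le_div_iff hm]; exact hmn
    have h7 : n % m < m := Nat.mod_lt _ hm
    have h8 : m ≤ n / m * m := by
      calc m = 1 * m := (one_mul m).symm
        _ ≤ n / m * m := Nat.mul_le_mul_right m h6
    have h9 := Nat.div_add_mod n m
    rw [Nat.mul_comm] at h9
    omega
  calc n * d ≤ 2 * (n / m * m) * d := Nat.mul_le_mul_right d h5
    _ = 2 * (n / m * m * d) := by ring
    _ ≤ 2 * ∑ v, (cop m n hm G).degree v := Nat.mul_le_mul_left 2 h1
    _ = 4 * (cop m n hm G).edgeSet.ncard := by rw [hsum]; ring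

end Pool.TH815.GR
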