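import Pool.Agent.TH815.GR14

/-!
# The Zarankiewicz problem in regular form, end
-/

set_option autoImplicit false

open Finset

namespace Pool.TH815.GR

/-- Dense graphs without `K_{u,v}` in all orders, exponent `1 + α`. -/
def DenseK (u v : ℕ) (α : ℝ) : Prop :=
  ∃ c : ℝ, 0 < c ∧ ∃ N : ℕ, ∀ n ≥ N, ∃ G : SimpleGraph (Fin n),
    KFree u v G ∧ c * (n : ℝ) ^ (1 + α) ≤ (G.edgeSet.ncard : ℝ)

/-- Regular bipartite graphs without `K_{u,v}` of all degrees, with `O(d ^ (1 / α))` vertices. -/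
def RegK (u v : ℕ) (α : ℝ) : Prop :=
  ∃ C : ℝ, ∀ d : ℕ, 1 ≤ d → ∃ (m : ℕ) (G : SimpleGraph (Fin m ⊕ Fin m)), 0 < m ∧
    (m : ℝ) ≤ C * (d : ℝ) ^ (1 / α) ∧ KFree u v G ∧
    (∀ x y, ¬ G.Adj (Sum.inl x) (Sum.inl y)) ∧ (∀ x y, ¬ G.Adj (Sum.inr x) (Sum.inr y)) ∧
    ∀ z, (G.neighborSet z).ncard = d

theorem regK_of_denseK {u v : ℕ} (hu1 : 1 ≤ u) (hv1 : 1 ≤ v) {α : ℝ} (hα : 0 < α)
    (h : DenseK u v α) : RegK u v α := by
  classical
  obtain ⟨c, hc, N, hN⟩ := h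
  obtain ⟨t, ht⟩ := exists_nat_ge (max (2 / c) ((N : ℝ) ^ α + 1))
  have ht1 : 2 / c ≤ (t : ℝ) := (le_max_left _ _).trans ht
  have ht2 : (N : ℝ) ^ α + 1 ≤ t := (le_max_right _ _).trans ht
  have hNa : 0 ≤ (N : ℝ) ^ α := by positivity
  have ht4 : (1 : ℝ) ≤ t := by linarith
  have htpos : (0 : ℝ) < t := by linarith
  refine ⟨4 * (c * t + 1) * (t : ℝ) ^ (1 / α), fun d hd => ?_⟩
  have hd1 : (1 : ℝ) ≤ d := by exact_mod_cast hd
  obtain ⟨q, hq, hdq, hq2⟩ := Nat.exists_prime_lt_and_le_two_mul d (by omega)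
  have htd : (1 : ℝ) ≤ t * d := by nlinarith
  set r : ℝ := (t * d : ℝ) ^ (1 / α) with hr
  have hr1 : 1 ≤ r := Real.one_le_rpow htd (by positivity)
  set n : ℕ := ⌈r⌉₊ with hn
  have hrn : r ≤ n := Nat.le_ceil _
  have hn2 : (n : ℝ) ≤ 2 * r := by
    have := Nat.ceil_lt_add_one (by linarith : 0 ≤ r)
    linarith
  have hnpos' : (0 : ℝ) < n := by linarith
  have hnpos : 0 < n := by exact_mod_cast hnpos'
  have hra : r ^ α = t * d := by
    rw [hr, ← Real.rpow_mul (by positivity)]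
    have : 1 / α * α = 1 := by field_simp
    rw [this, Real.rpow_one]
  have hnN : n ≥ N := by
    have h1 : ((N : ℝ)) ≤ r := by
      have h2 : (N : ℝ) ^ α ≤ t * d := by
        have : (t : ℝ) * 1 ≤ t * d := mul_le_mul_of_nonneg_left hd1 htpos.le
        linarith
      have h3 := Real.rpow_le_rpow hNa h2 (by positivity : 0 ≤ 1 / α)
      rw [← Real.rpow_mul (Nat.cast_nonneg N)] at h3
      have : α * (1 / α) = 1 := by field_simp
      rw [this, Real.rpow_one] at h3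
      exact h3
    have : (N : ℝ) ≤ n := h1.trans hrn
    exact_mod_cast this
  obtain ⟨G, hG, hE⟩ := hN n hnN
  have hpow : (n : ℝ) * (t * d) ≤ (n : ℝ) ^ (1 + α) := by
    rw [Real.rpow_add hnpos', Real.rpow_one, ← hra]
    exact mul_le_mul_of_nonneg_left (Real.rpow_le_rpow (by linarith) hrn hα.le) hnpos'.le
  have hedge : (G.edgeFinset.card : ℝ) = (G.edgeSet.ncard : ℝ) := by
    rw [← SimpleGraph.coe_edgeFinset, Set.ncard_coe_finset]
  rw [← hedge] at hE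
  have hct : 2 ≤ c * t := by
    rw [div_le_iff₀ hc] at ht1
    linarith
  set s : ℝ := c * (n * (t * d)) with hs
  have hsE : s ≤ (G.edgeFinset.card : ℝ) :=
    (mul_le_mul_of_nonneg_left hpow hc.le).trans hE
  have hs0 : 0 ≤ s := by positivity
  obtain ⟨G', dG', hle, hcard⟩ := exists_sub G ⌈s⌉₊ (Nat.ceil_le.2 hsE)
  have hG' : KFree u v G' := fun a b ha hb hab => hG a b ha hb (fun i j => hle (hab i j))
  have hlow : 2 * (d : ℝ) * n ≤ s := by
    have : 2 * ((n : ℝ) * d) ≤ c * t * (n * d) := mul_le_mul_of_nonneg_right hct (by positivity)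
    rw [hs]
    linarith
  have hlow2 : 2 * d * n ≤ ⌈s⌉₊ := by
    have h1 : 2 * (d : ℝ) * n ≤ (⌈s⌉₊ : ℝ) := hlow.trans (Nat.le_ceil _)
    exact_mod_cast h1
  have hlt : (q - 1) * Fintype.card (Fin n) < G'.edgeFinset.card := by
    rw [Fintype.card_fin, hcard]
    have h1 : 1 ≤ q := hq.one_lt.le
    calc (q - 1) * n < q * n := Nat.mul_lt_mul_of_pos_right (by omega) hnpos
      _ ≤ 2 * d * n := Nat.mul_le_mul_right _ hq2
      _ ≤ _ := hlow2
  obtain ⟨m, B, ρ, hm, hmq, hρ1, hρ2, hB⟩ := regular_cover G' q d hq hdq.le hlt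
  refine ⟨m, B, hm, ?_, hG'.of_local hu1 hv1 ρ hρ1 hρ2, hB⟩
  rw [hcard] at hmq
  have hmq' : (m : ℝ) * q ≤ 2 * (⌈s⌉₊ : ℝ) := by exact_mod_cast hmq
  have hceil : (⌈s⌉₊ : ℝ) ≤ s + 1 := (Nat.ceil_lt_add_one hs0).le
  have hqd : (d : ℝ) ≤ q := by exact_mod_cast hdq.le
  have hn1 : (1 : ℝ) ≤ n := by exact_mod_cast hnpos
  have hnd : (1 : ℝ) ≤ n * d := by nlinarith
  have hmd : (m : ℝ) * d ≤ 2 * (c * t + 1) * n * d := by
    calc (m : ℝ) * d ≤ m * q := mul_le_mul_of_nonneg_left hqd (Nat.cast_nonneg _)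
      _ ≤ 2 * (s + 1) := hmq'.trans (by linarith)
      _ ≤ 2 * (c * t + 1) * n * d := by
        rw [hs]
        nlinarith
  have hm2 : (m : ℝ) ≤ 2 * (c * t + 1) * n := le_of_mul_le_mul_right hmd (by linarith)
  have hrr : r = (t : ℝ) ^ (1 / α) * (d : ℝ) ^ (1 / α) := by
    rw [hr, Real.mul_rpow (by positivity) (by positivity)]
  calc (m : ℝ) ≤ 2 * (c * t + 1) * n := hm2
    _ ≤ 2 * (c * t + 1) * (2 * r) := mul_le_mul_of_nonneg_left hn2 (by positivity)
    _ = _ := by rw [hrr]; ring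

theorem denseK_of_regK {u v : ℕ} (hu1 : 1 ≤ u) (hv1 : 1 ≤ v) {α : ℝ} (hα : 0 < α)
    (h : RegK u v α) : DenseK u v α := by
  classical
  obtain ⟨C, hC⟩ := h
  have hC0 : 0 < C := by
    obtain ⟨m, G, hm, hm2, -⟩ := hC 1 le_rfl
    have : (0 : ℝ) < m := by exact_mod_cast hm
    simp at hm2
    linarith
  refine ⟨1 / (8 * (2 * C) ^ α), by positivity, ⌈2 * C⌉₊ , fun n hn => ?_⟩
  have hnC : 2 * C ≤ n := (Nat.le_ceil _).trans (by exact_mod_cast hn)
  have hn0 : (0 : ℝ) < n := by linarith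
  set r : ℝ := (n / (2 * C)) ^ α with hr
  have hr1 : 1 ≤ r := Real.one_le_rpow (by rw [le_div_iff₀ (by positivity)]; linarith) hα.le
  have hrk : r ^ (1 / α) = n / (2 * C) := by
    rw [hr, ← Real.rpow_mul (by positivity)]
    have : α * (1 / α) = 1 := by field_simp
    rw [this, Real.rpow_one]
  set d : ℕ := ⌊r⌋₊ with hd
  have hd1 : 1 ≤ d := by
    rw [hd, Nat.le_floor_iff (by linarith)]
    exact_mod_cast hr1
  have hdr : (d : ℝ) ≤ r := Nat.floor_le (by linarith)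
  have hdr2 : r / 2 ≤ d := by
    have h1 : r < d + 1 := Nat.lt_floor_add_one r
    have h2 : (1 : ℝ) ≤ d := by exact_mod_cast hd1
    linarith
  obtain ⟨m, G, hm, hmC, hg, -, -, hdeg⟩ := hC d hd1
  have hmn : m + m ≤ n := by
    have : ((m + m : ℕ) : ℝ) ≤ n := by
      push_cast
      calc (m : ℝ) + m ≤ 2 * (C * (d : ℝ) ^ (1 / α)) := by linarith
        _ ≤ 2 * (C * r ^ (1 / α)) := by gcongr
        _ = n := by rw [hrk]; field_simp
    exact_mod_cast this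
  set G2 : SimpleGraph (Fin (m + m)) :=
    G.comap (finSumFinEquiv.symm : Fin (m + m) ≃ Fin m ⊕ Fin m) with hG2
  have hg2 : KFree u v G2 := by
    intro a b ha hb hab
    exact hg (fun i => finSumFinEquiv.symm (a i)) (fun j => finSumFinEquiv.symm (b j))
      (finSumFinEquiv.symm.injective.comp ha) (finSumFinEquiv.symm.injective.comp hb) hab
  have hdeg2 : ∀ x, (G2.neighborSet x).ncard = d := by
    intro x
    rw [← hdeg (finSumFinEquiv.symm x), ← Set.ncard_image_of_injective _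
        (finSumFinEquiv.symm : Fin (m + m) ≃ Fin m ⊕ Fin m).injective]
    congr 1
    ext z
    simp only [hG2, Set.mem_image, SimpleGraph.mem_neighborSet, SimpleGraph.comap_adj]
    constructor
    · rintro ⟨j, hj, rfl⟩
      exact hj
    · intro hz
      refine ⟨finSumFinEquiv z, ?_, by simp⟩
      simpa using hz
  have hm2 : 0 < m + m := by omega
  have hH := cop_free hu1 hv1 (m + m) n hm2 G2 hg2
  have hHe := cop_edges (m + m) n d hm2 hmn G2 (by
    intro x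
    have e : (G2.neighborSet x).ncard = G2.degree x := by
      rw [← G2.card_neighborFinset_eq_degree, ← Set.ncard_coe_finset, G2.coe_neighborFinset]
    rw [← e, hdeg2])
  set H := cop (m + m) n hm2 G2 with hHdef
  refine ⟨H, hH, ?_⟩
  have h1 : (n : ℝ) * d ≤ 4 * (H.edgeSet.ncard : ℝ) := by exact_mod_cast hHe
  have h2 : (n : ℝ) ^ (1 + α) = n * (n : ℝ) ^ α := by
    rw [Real.rpow_add hn0, Real.rpow_one]
  have h3 : r = (n : ℝ) ^ α / (2 * C) ^ α := by
    rw [hr, Real.div_rpow hn0.le (by positivity)]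
  have h4 : 1 / (8 * (2 * C) ^ α) * (n : ℝ) ^ (1 + α) = n * (r / 2) / 4 := by
    rw [h2, h3]
    have : (2 * C) ^ α ≠ 0 := by positivity
    field_simp
    norm_num
  rw [h4]
  nlinarith

theorem denseK_iff {u v : ℕ} (hu1 : 1 ≤ u) (hv1 : 1 ≤ v) {α : ℝ} (hα : 0 < α) :
    DenseK u v α ↔ RegK u v α :=
  ⟨regK_of_denseK hu1 hv1 hα, denseK_of_regK hu1 hv1 hα⟩

end Pool.TH815.GR
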