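import Pool.Agent.TH815.GR1

/-!
# The tail of the degree sequence of a graph of girth greater than `2 k`
-/

set_option autoImplicit false

open Finset

namespace Pool.TH815.GR

open Pool.Agent.H268R2.LB

theorem prod_alt (d : ℕ → ℝ) (α β γ : ℝ) (hα : 0 ≤ α) (hβ : 0 ≤ β) (hγ : 0 ≤ γ)
    (h2 : α * β = γ ^ 2) (h1 : γ ≤ α) (hd : ∀ i, (if Even i then α else β) ≤ d i) (n : ℕ) :
    γ ^ n ≤ ∏ i ∈ range n, d i := by
  have key : ∀ n, (if Even n then γ ^ n else α * γ ^ (n - 1)) ≤ ∏ i ∈ range n, d i := by
    intro n
    induction n with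
    | zero => simp
    | succ n ih =>
      rw [prod_range_succ]
      by_cases he : Even n
      · have ho : ¬ Even (n + 1) := by
          rw [Nat.even_add_one]; exact not_not.2 he
        rw [if_pos he] at ih
        rw [if_neg ho]
        have := hd n
        rw [if_pos he] at this
        simp only [Nat.add_sub_cancel]
        calc α * γ ^ n = γ ^ n * α := mul_comm _ _
          _ ≤ _ := mul_le_mul ih this hα ((pow_nonneg hγ n).trans ih)
      · have ho : Even (n + 1) := by
          rw [Nat.even_add_one]; exact he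
        rw [if_neg he] at ih
        rw [if_pos ho]
        have := hd n
        rw [if_neg he] at this
        have hn : n ≠ 0 := by
          rintro rfl
          exact he (by simp)
        obtain ⟨m, rfl⟩ := Nat.exists_eq_succ_of_ne_zero hn
        simp only [Nat.succ_eq_add_one, Nat.add_sub_cancel] at ih ⊢
        calc γ ^ (m + 1 + 1) = γ ^ 2 * γ ^ m := by ring
          _ = (α * β) * γ ^ m := by rw [h2]
          _ = (α * γ ^ m) * β := by ring
          _ ≤ _ := mul_le_mul ih this hβ
            ((mul_nonneg hα (pow_nonneg hγ m)).trans ih)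
  have := key n
  by_cases he : Even n
  · rwa [if_pos he] at this
  · rw [if_neg he] at this
    have hn : n ≠ 0 := by
      rintro rfl
      exact he (by simp)
    obtain ⟨m, rfl⟩ := Nat.exists_eq_succ_of_ne_zero hn
    simp only [Nat.succ_eq_add_one, Nat.add_sub_cancel] at this ⊢
    refine le_trans ?_ this
    rw [pow_succ, mul_comm]
    exact mul_le_mul_of_nonneg_right h1 (pow_nonneg hγ m)

variable {V : Type*} [Fintype V] [DecidableEq V]

/-- The arcs leaving a set `H` of vertices. -/
theorem arcs_bound (G : SimpleGraph V) [DecidableRel G.Adj] {k : ℕ}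
    (hg : ∀ (v : V) (p : G.Walk v v), p.IsCycle → 2 * k < p.length) (H : Finset V)
    (hH : H.Nonempty) (f : ℝ) (hf : f = ∑ x ∈ H, (G.degree x : ℝ))
    (h8 : 8 * (Fintype.card V : ℝ) ≤ f) :
    (f / (8 * √((H.card : ℝ) * Fintype.card V))) ^ k ≤ Fintype.card V := by
  have hh0 : 0 < H.card := card_pos.2 hH
  have hhn : H.card ≤ Fintype.card V := card_le_univ H
  have hh0' : (0 : ℝ) < H.card := by exact_mod_cast hh0
  have hhn' : (H.card : ℝ) ≤ Fintype.card V := by exact_mod_cast hhn
  have hn0' : (0 : ℝ) < Fintype.card V := hh0'.trans_le hhn'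
  have hf0 : 0 < f := by linarith
  set n : ℝ := (Fintype.card V : ℝ) with hn
  set h : ℝ := (H.card : ℝ) with hhdef
  set S : Finset (V × V) := univ.filter (fun p : V × V => p.1 ∈ H ∧ G.Adj p.1 p.2) with hS
  have hScard : (S.card : ℝ) = f := by
    rw [hf]
    have : S.card = ∑ x ∈ H, G.degree x := by
      rw [hS, card_filter, ← univ_product_univ, sum_product, ← sum_filter_add_sum_filter_not univ
        (fun x => x ∈ H)]
      have e2 : ∑ x with ¬ x ∈ H, ∑ y, (if (x, y).1 ∈ H ∧ G.Adj (x, y).1 (x, y).2 then 1 else 0)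
          = 0 := by
        apply sum_eq_zero
        intro x hx
        rw [mem_filter] at hx
        apply sum_eq_zero
        intro y _
        simp [hx.2]
      rw [e2, add_zero]
      have e3 : univ.filter (fun x => x ∈ H) = H := by ext x; simp
      rw [e3]
      apply sum_congr rfl
      intro x hx
      simp only [hx, true_and]
      rw [← card_filter, ← G.card_neighborFinset_eq_degree]
      congr 1
      ext y
      simp
    rw [this]
    push_cast
    rfl
  have hfst : ((S.image Prod.fst).card : ℝ) ≤ h := by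
    have : (S.image Prod.fst).card ≤ H.card := by
      apply card_le_card
      intro x hx
      rw [mem_image] at hx
      obtain ⟨q, hq, rfl⟩ := hx
      rw [hS, mem_filter] at hq
      exact hq.2.1
    exact Nat.cast_le.2 this
  have hsnd : ((S.image Prod.snd).card : ℝ) ≤ n := by
    have : (S.image Prod.snd).card ≤ Fintype.card V := card_le_univ _
    exact Nat.cast_le.2 this
  obtain ⟨S', hS', hne, hrow, hcol⟩ := clean S (f / (4 * h)) (f / (4 * n)) (by positivity)
    (by positivity) (by
      rw [hScard]
      have e1 : f / (4 * h) * ((S.image Prod.fst).card : ℝ) ≤ f / (4 * h) * h :=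
        mul_le_mul_of_nonneg_left hfst (by positivity)
      have e2 : f / (4 * n) * ((S.image Prod.snd).card : ℝ) ≤ f / (4 * n) * n :=
        mul_le_mul_of_nonneg_left hsnd (by positivity)
      have e3 : f / (4 * h) * h = f / 4 := by field_simp
      have e4 : f / (4 * n) * n = f / 4 := by field_simp
      linarith)
  obtain ⟨p0, hp0⟩ := hne
  have hadj : ∀ p ∈ S', G.Adj p.1 p.2 := by
    intro p hp
    have := hS' hp
    rw [hS, mem_filter] at this
    exact this.2.2
  obtain ⟨E, hE, -⟩ := growthT (M := 2 * k) hg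
    (fun i => if Even i then S'.image Prod.fst else S'.image Prod.snd)
    (fun i y => if Even i then (S'.filter (fun q => q.1 = y)).image Prod.snd
      else (S'.filter (fun q => q.2 = y)).image Prod.fst)
    (fun i => if Even i then ⌈f / (4 * h)⌉₊ else ⌈f / (4 * n)⌉₊) (by
      intro i y hy z hz
      by_cases he : Even i
      · have ho : ¬ Even (i + 1) := by
          rw [Nat.even_add_one]; exact not_not.2 he
        simp only [if_pos he, if_neg ho] at hz ⊢
        rw [mem_image] at hz
        obtain ⟨q, hq, rfl⟩ := hz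
        rw [mem_filter] at hq
        refine ⟨mem_image_of_mem _ hq.1, ?_⟩
        rw [← hq.2]
        exact hadj q hq.1
      · have ho : Even (i + 1) := by
          rw [Nat.even_add_one]; exact he
        simp only [if_neg he, if_pos ho] at hz ⊢
        rw [mem_image] at hz
        obtain ⟨q, hq, rfl⟩ := hz
        rw [mem_filter] at hq
        refine ⟨mem_image_of_mem _ hq.1, ?_⟩
        rw [← hq.2]
        exact (hadj q hq.1).symm) (by
      intro i y hy
      by_cases he : Even i
      · simp only [if_pos he] at hy ⊢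
        rw [mem_image] at hy
        obtain ⟨p, hp, rfl⟩ := hy
        rw [Nat.ceil_le, card_image_of_injOn]
        · exact hrow p hp
        · intro q hq q' hq' e
          rw [mem_coe, mem_filter] at hq hq'
          exact Prod.ext (hq.2.trans hq'.2.symm) e
      · simp only [if_neg he] at hy ⊢
        rw [mem_image] at hy
        obtain ⟨p, hp, rfl⟩ := hy
        rw [Nat.ceil_le, card_image_of_injOn]
        · exact hcol p hp
        · intro q hq q' hq' e
          rw [mem_coe, mem_filter] at hq hq'
          exact Prod.ext e (hq.2.trans hq'.2.symm)) (v := p0.1) (by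
      simpa using ⟨p0.2, hp0⟩) k le_rfl
  have hEn : (E.card : ℝ) ≤ n := by
    have : E.card ≤ Fintype.card V := card_le_univ _
    exact Nat.cast_le.2 this
  refine le_trans ?_ hEn
  refine le_trans ?_ (Nat.cast_le.2 hE)
  rw [Nat.cast_prod]
  have hsq : √(h * n) ^ 2 = h * n := Real.sq_sqrt (by positivity)
  have hsq0 : 0 < √(h * n) := Real.sqrt_pos.2 (by positivity)
  apply prod_alt _ (f / (8 * h)) (f / (8 * n)) _ (by positivity) (by positivity) (by positivity)
  · rw [div_pow, mul_pow, hsq]
    field_simp
  · apply div_le_div_of_nonneg_left hf0.le (by positivity)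
    have : h ≤ √(h * n) := by
      apply Real.le_sqrt_of_sq_le
      nlinarith
    linarith
  · intro i
    by_cases he : Even i
    · simp only [if_pos he]
      have h1 : f / (4 * h) ≤ (⌈f / (4 * h)⌉₊ : ℝ) := Nat.le_ceil _
      have h2 : (2 : ℝ) ≤ f / (4 * h) := by
        rw [le_div_iff₀ (by positivity)]
        nlinarith
      have h3 : 1 ≤ ⌈f / (4 * h)⌉₊ := by
        have : (1 : ℝ) ≤ (⌈f / (4 * h)⌉₊ : ℝ) := by linarith
        exact_mod_cast this
      rw [Nat.cast_sub h3]
      have h4 : f / (8 * h) = f / (4 * h) / 2 := by field_simp; norm_num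
      rw [h4]
      push_cast
      linarith
    · simp only [if_neg he]
      have h1 : f / (4 * n) ≤ (⌈f / (4 * n)⌉₊ : ℝ) := Nat.le_ceil _
      have h2 : (2 : ℝ) ≤ f / (4 * n) := by
        rw [le_div_iff₀ (by positivity)]
        nlinarith
      have h3 : 1 ≤ ⌈f / (4 * n)⌉₊ := by
        have : (1 : ℝ) ≤ (⌈f / (4 * n)⌉₊ : ℝ) := by linarith
        exact_mod_cast this
      rw [Nat.cast_sub h3]
      have h4 : f / (8 * n) = f / (4 * n) / 2 := by field_simp; norm_num
      rw [h4]
      push_cast
      linarith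

/-- **Degree tail.** In a graph without cycles of length at most `2 k` the vertices of degree
greater than `K n ^ (1 / k)` have degree sum at most `8 n + 64 / K * n ^ (1 + 1 / k)`. -/
theorem tail (G : SimpleGraph V) [DecidableRel G.Adj] {k : ℕ} (hk : 1 ≤ k)
    (hg : ∀ (v : V) (p : G.Walk v v), p.IsCycle → 2 * k < p.length) (K : ℝ) (hK : 0 < K) :
    ∑ x ∈ univ.filter (fun x => K * (Fintype.card V : ℝ) ^ (1 / (k : ℝ)) < (G.degree x : ℝ)),
        (G.degree x : ℝ) ≤
      8 * Fintype.card V + 64 / K * (Fintype.card V : ℝ) ^ (1 + 1 / (k : ℝ)) := by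
  set n : ℝ := (Fintype.card V : ℝ) with hn
  set H := univ.filter (fun x => K * n ^ (1 / (k : ℝ)) < (G.degree x : ℝ)) with hHdef
  set f : ℝ := ∑ x ∈ H, (G.degree x : ℝ) with hf
  have hn0 : 0 ≤ n := Nat.cast_nonneg _
  by_cases h8 : f ≤ 8 * n
  · have : 0 ≤ 64 / K * n ^ (1 + 1 / (k : ℝ)) := by positivity
    linarith
  push Not at h8
  have hf0 : 0 < f := by linarith
  have hH : H.Nonempty := by
    rw [nonempty_iff_ne_empty]
    intro he
    rw [hf, he] at hf0
    simp at hf0
  have hh0 : (0 : ℝ) < H.card := by exact_mod_cast card_pos.2 hH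
  have hnpos : 0 < n := by
    have : (H.card : ℝ) ≤ n := by
      have : H.card ≤ Fintype.card V := card_le_univ _
      exact Nat.cast_le.2 this
    linarith
  have hb := arcs_bound G hg H hH f hf h8.le
  rw [← hn] at hb
  set N : ℝ := n ^ (1 / (k : ℝ)) with hN
  have hNpos : 0 < N := Real.rpow_pos_of_pos hnpos _
  set h : ℝ := (H.card : ℝ) with hh
  have hsq : √(h * n) ^ 2 = h * n := Real.sq_sqrt (by positivity)
  have hsq0 : 0 < √(h * n) := Real.sqrt_pos.2 (by positivity)
  have hle : f / (8 * √(h * n)) ≤ N := by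
    have h1 : (f / (8 * √(h * n))) ^ (k : ℝ) ≤ n := by rw [Real.rpow_natCast]; exact hb
    have h2 := Real.rpow_le_rpow (by positivity) h1 (by positivity : (0 : ℝ) ≤ 1 / (k : ℝ))
    rw [← Real.rpow_mul (by positivity)] at h2
    have h3 : (k : ℝ) * (1 / (k : ℝ)) = 1 := by
      have : (k : ℝ) ≠ 0 := by positivity
      field_simp
    rw [h3, Real.rpow_one] at h2
    exact h2
  rw [div_le_iff₀ (by positivity)] at hle
  have hKN : h * (K * N) ≤ f := by
    rw [hf]
    calc h * (K * N) = ∑ x ∈ H, K * N := by rw [sum_const, nsmul_eq_mul]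
      _ ≤ _ := by
        apply sum_le_sum
        intro x hx
        rw [hHdef, mem_filter] at hx
        exact hx.2.le
  have hf2 : f ^ 2 ≤ 64 * N ^ 2 * (h * n) := by
    calc f ^ 2 ≤ (N * (8 * √(h * n))) ^ 2 := by gcongr
      _ = 64 * N ^ 2 * (√(h * n) ^ 2) := by ring
      _ = _ := by rw [hsq]
  have hfin : f * K ≤ 64 * n * N := by
    have h1 : f ^ 2 * (K * N) ≤ 64 * N ^ 2 * n * (h * (K * N)) := by
      nlinarith [mul_le_mul_of_nonneg_right hf2 (by positivity : (0 : ℝ) ≤ K * N)]
    have h2 : f ^ 2 * (K * N) ≤ 64 * N ^ 2 * n * f :=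
      h1.trans (mul_le_mul_of_nonneg_left hKN (by positivity))
    have h3 : (f * N) * (f * K) ≤ (f * N) * (64 * n * N) := by nlinarith [h2]
    exact le_of_mul_le_mul_left h3 (by positivity)
  have hrp : n ^ (1 + 1 / (k : ℝ)) = n * N := by
    rw [Real.rpow_add hnpos, Real.rpow_one]
  rw [hrp]
  have : f ≤ 64 / K * (n * N) := by
    rw [div_mul_eq_mul_div, le_div_iff₀ hK]
    linarith
  linarith

end Pool.TH815.GR
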