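import Mathlib

/-!
# The rank of matrices which capture a part of a given matrix
-/

set_option autoImplicit false

open Finset

namespace Pool.TH815.GR

variable {V : Type*} [Fintype V] [DecidableEq V]

/-- If `B` captures the part `δ` of the squared Frobenius norm of `A` then
`δ² ≤ rank B * ‖A Aᵀ‖²`. -/
theorem approx_rank (A B : Matrix V V ℝ) (δ : ℝ) (hδ : 0 ≤ δ)
    (h : ∑ i, ∑ j, (A i j - B i j) ^ 2 + δ ≤ ∑ i, ∑ j, A i j ^ 2) :
    δ ^ 2 ≤ B.rank * ∑ x, ∑ x', (∑ y, A x y * A x' y) ^ 2 := by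
  classical
  -- the column space
  let E := EuclideanSpace ℝ V
  let col : V → E := fun j => WithLp.toLp 2 (fun i => B i j)
  let U : Submodule ℝ E := Submodule.span ℝ (Set.range col)
  have hrank : Module.finrank ℝ U = B.rank := by
    rw [Matrix.rank_eq_finrank_span_cols]
    have : U = (Submodule.span ℝ (Set.range B.col)).map
        ((WithLp.linearEquiv 2 ℝ (V → ℝ)).symm : (V → ℝ) →ₗ[ℝ] E) := by
      rw [Submodule.map_span, ← Set.range_comp]
      rfl
    rw [this]
    exact LinearEquiv.finrank_map_eq (WithLp.linearEquiv 2 ℝ (V → ℝ)).symm _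
  let b := stdOrthonormalBasis ℝ U
  let a : V → E := fun j => WithLp.toLp 2 (fun i => A i j)
  let r := Module.finrank ℝ U
  let u : Fin r → E := fun i => (b i : E)
  have hu : Orthonormal ℝ u := by
    have := b.orthonormal
    exact this.comp_linearIsometry U.subtypeₗᵢ
  have hexp : ∀ c ∈ U, c = ∑ i, (inner ℝ (u i) c : ℝ) • u i := by
    intro c hc
    have h1 := b.sum_repr ⟨c, hc⟩
    have h2 := congrArg (Subtype.val) h1
    rw [Submodule.coe_sum] at h2
    conv_lhs => rw [← show ((⟨c, hc⟩ : U) : E) = c from rfl, ← h2]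
    apply sum_congr rfl
    intro i _
    rw [b.repr_apply_apply]
    rfl
  have hinner : ∀ c ∈ U, ∀ x : E, (inner ℝ x c : ℝ) = ∑ i, inner ℝ (u i) c * inner ℝ (u i) x := by
    intro c hc x
    conv_lhs => rw [hexp c hc]
    rw [inner_sum]
    apply sum_congr rfl
    intro i _
    rw [inner_smul_right, real_inner_comm x (u i)]
  -- distance of each column from the column space
  have hcol : ∀ j, ‖a j‖ ^ 2 - ∑ i, (inner ℝ (u i) (a j) : ℝ) ^ 2 ≤ ‖a j - col j‖ ^ 2 := by
    intro j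
    have hmem : col j ∈ U := Submodule.subset_span ⟨j, rfl⟩
    rw [norm_sub_sq_real, hinner _ hmem (a j), ← real_inner_self_eq_norm_sq (col j),
      hinner _ hmem (col j)]
    have : 0 ≤ ∑ i, ((inner ℝ (u i) (col j) : ℝ) - inner ℝ (u i) (a j)) ^ 2 :=
      sum_nonneg fun i _ => sq_nonneg _
    have e : ∑ i, ((inner ℝ (u i) (col j) : ℝ) - inner ℝ (u i) (a j)) ^ 2 =
        ∑ i, (inner ℝ (u i) (col j) : ℝ) * inner ℝ (u i) (col j) -
        2 * ∑ i, (inner ℝ (u i) (col j) : ℝ) * inner ℝ (u i) (a j) +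
        ∑ i, (inner ℝ (u i) (a j) : ℝ) ^ 2 := by
      rw [mul_sum, ← sum_sub_distrib, ← sum_add_distrib]
      apply sum_congr rfl
      intro i _
      ring
    rw [e] at this
    linarith
  have hA2 : ∑ i, ∑ j, A i j ^ 2 = ∑ j, ‖a j‖ ^ 2 := by
    rw [sum_comm]
    apply sum_congr rfl
    intro j _
    rw [EuclideanSpace.real_norm_sq_eq]
  have hAB : ∑ i, ∑ j, (A i j - B i j) ^ 2 = ∑ j, ‖a j - col j‖ ^ 2 := by
    rw [sum_comm]
    apply sum_congr rfl
    intro j _
    rw [EuclideanSpace.real_norm_sq_eq]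
    rfl
  have h1 : δ ≤ ∑ i, ∑ j, (inner ℝ (u i) (a j) : ℝ) ^ 2 := by
    rw [hA2, hAB] at h
    have := sum_le_sum fun j (_ : j ∈ univ) => hcol j
    rw [sum_sub_distrib] at this
    rw [sum_comm]
    linarith
  let m : V → E := fun x => WithLp.toLp 2 (fun x' => ∑ y, A x y * A x' y)
  let w : Fin r → E := fun i => ∑ j, (inner ℝ (u i) (a j) : ℝ) • a j
  have hw : ∀ i x, w i x = inner ℝ (u i) (m x) := by
    intro i x
    have e1 : m x = ∑ j, A x j • a j := by
      ext x'
      rw [WithLp.ofLp_sum, Finset.sum_apply]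
      rfl
    rw [e1, inner_sum]
    simp only [w, a, inner_smul_right]
    rw [WithLp.ofLp_sum, Finset.sum_apply]
    apply sum_congr rfl
    intro j _
    show (inner ℝ (u i) (WithLp.toLp 2 fun i => A i j) : ℝ) * A x j =
      A x j * inner ℝ (u i) (WithLp.toLp 2 fun i => A i j)
    exact mul_comm _ _
  have hw2 : ∀ i, ‖w i‖ ^ 2 = ∑ x, (inner ℝ (u i) (m x) : ℝ) ^ 2 := by
    intro i
    rw [EuclideanSpace.real_norm_sq_eq]
    apply sum_congr rfl
    intro x _
    rw [hw]
  have hq : ∀ i, (∑ j, (inner ℝ (u i) (a j) : ℝ) ^ 2) ^ 2 ≤ ‖w i‖ ^ 2 := by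
    intro i
    have e : ∑ j, (inner ℝ (u i) (a j) : ℝ) ^ 2 = inner ℝ (u i) (w i) := by
      simp only [w]
      rw [inner_sum]
      apply sum_congr rfl
      intro j _
      rw [inner_smul_right, sq]
    rw [e]
    have h2 := abs_real_inner_le_norm (u i) (w i)
    rw [hu.1 i, one_mul] at h2
    rw [← sq_abs]
    gcongr
  have hbes : ∑ i, ‖w i‖ ^ 2 ≤ ∑ x, ∑ x', (∑ y, A x y * A x' y) ^ 2 := by
    calc ∑ i, ‖w i‖ ^ 2 = ∑ x, ∑ i, (inner ℝ (u i) (m x) : ℝ) ^ 2 := by
          rw [sum_comm]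
          exact sum_congr rfl fun i _ => hw2 i
      _ ≤ ∑ x, ‖m x‖ ^ 2 := by
          apply sum_le_sum
          intro x _
          have := hu.sum_inner_products_le (m x) (s := univ)
          refine le_trans (le_of_eq ?_) this
          apply sum_congr rfl
          intro i _
          rw [Real.norm_eq_abs, sq_abs]
      _ = _ := by
          apply sum_congr rfl
          intro x _
          rw [EuclideanSpace.real_norm_sq_eq]
  have hr : (r : ℝ) = (B.rank : ℝ) := by rw [← hrank]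
  calc δ ^ 2 ≤ (∑ i, ∑ j, (inner ℝ (u i) (a j) : ℝ) ^ 2) ^ 2 := by gcongr
    _ ≤ (univ : Finset (Fin r)).card * ∑ i, (∑ j, (inner ℝ (u i) (a j) : ℝ) ^ 2) ^ 2 :=
        sq_sum_le_card_mul_sum_sq
    _ = r * ∑ i, (∑ j, (inner ℝ (u i) (a j) : ℝ) ^ 2) ^ 2 := by rw [card_univ, Fintype.card_fin]
    _ ≤ r * ∑ i, ‖w i‖ ^ 2 :=
        mul_le_mul_of_nonneg_left (sum_le_sum fun i _ => hq i) (by positivity)
    _ ≤ r * ∑ x, ∑ x', (∑ y, A x y * A x' y) ^ 2 := by gcongr
    _ = _ := by rw [hr]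

/-- Ranks and principal restrictions. -/
theorem rank_restrict_le (B : Matrix V V ℝ) (L : Finset V) :
    (Matrix.of fun i j => if i ∈ L ∧ j ∈ L then B i j else 0).rank ≤ B.rank := by
  have e : (Matrix.of fun i j => if i ∈ L ∧ j ∈ L then B i j else 0) =
      Matrix.diagonal (fun i => if i ∈ L then (1 : ℝ) else 0) * B *
      Matrix.diagonal (fun i => if i ∈ L then (1 : ℝ) else 0) := by
    ext i j
    rw [Matrix.mul_diagonal, Matrix.diagonal_mul]
    by_cases hi : i ∈ L <;> by_cases hj : j ∈ L <;> simp [hi, hj]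
  rw [e]
  exact (Matrix.rank_mul_le_left _ _).trans (Matrix.rank_mul_le_right _ _)

end Pool.TH815.GR
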