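import Pool.Agent.TH815.GR6
import Pool.Agent.H258R2.GU.GL

/-!
# The girth conjecture in bipartite almost regular form
-/

set_option autoImplicit false

open Finset

namespace Pool.TH815.GR

open Pool.Agent.H268R2.LB

/-- The bipartite form: incidence graphs between `m` points and `m` lines, `m ≤ C d ^ k`, of girth
greater than `2 k`, all points and lines having degrees between `d` and `C d`, for all `d`. -/
def BipartiteForm (k : ℕ) : Prop :=
  ∃ C : ℝ, ∀ d : ℕ, 1 ≤ d → ∃ (m : ℕ) (G : SimpleGraph (Fin m ⊕ Fin m)), 0 < m ∧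
    (m : ℝ) ≤ C * (d : ℝ) ^ k ∧ ((2 * k : ℕ) : ℕ∞) < G.egirth ∧
    (∀ x y, ¬ G.Adj (Sum.inl x) (Sum.inl y)) ∧ (∀ x y, ¬ G.Adj (Sum.inr x) (Sum.inr y)) ∧
    ∀ z, (d : ℝ) ≤ ((G.neighborSet z).ncard : ℝ) ∧ ((G.neighborSet z).ncard : ℝ) ≤ C * d

theorem bipartiteForm_of {k : ℕ} (h : AlmostRegularForm k) : BipartiteForm k := by
  classical
  obtain ⟨C, hC⟩ := h
  refine ⟨C, fun d hd => ?_⟩
  obtain ⟨m, G, hm, hmC, hg, hdeg⟩ := hC d hd
  rw [egirth_iff] at hg
  set B : SimpleGraph (Fin m ⊕ Fin m) := SimpleGraph.fromRel (fun x y : Fin m ⊕ Fin m =>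
      ∃ a b, x = Sum.inl a ∧ y = Sum.inr b ∧ G.Adj a b) with hB
  have hlr : ∀ a b, B.Adj (Sum.inl a) (Sum.inr b) ↔ G.Adj a b := by
    intro a b
    rw [hB, SimpleGraph.fromRel_adj]
    constructor
    · rintro ⟨-, ⟨a', b', h1, h2, h3⟩ | ⟨a', b', h1, h2, h3⟩⟩
      · rw [Sum.inl.inj h1, Sum.inr.inj h2]; exact h3
      · cases h1
    · intro h
      exact ⟨by simp, Or.inl ⟨a, b, rfl, rfl, h⟩⟩
  have hll : ∀ a b, ¬ B.Adj (Sum.inl a) (Sum.inl b) := by
    intro a b
    rw [hB, SimpleGraph.fromRel_adj]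
    rintro ⟨-, ⟨a', b', h1, h2, h3⟩ | ⟨a', b', h1, h2, h3⟩⟩
    · cases h2
    · cases h2
  have hrr : ∀ a b, ¬ B.Adj (Sum.inr a) (Sum.inr b) := by
    intro a b
    rw [hB, SimpleGraph.fromRel_adj]
    rintro ⟨-, ⟨a', b', h1, h2, h3⟩ | ⟨a', b', h1, h2, h3⟩⟩
    · cases h1
    · cases h1
  have hdl : ∀ a, (B.neighborSet (Sum.inl a)).ncard = (G.neighborSet a).ncard := by
    intro a
    have e : B.neighborSet (Sum.inl a) = Sum.inr '' (G.neighborSet a) := by
      ext z
      rw [SimpleGraph.mem_neighborSet]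
      constructor
      · intro hz
        rcases z with b | b
        · exact absurd hz (hll a b)
        · exact ⟨b, (hlr a b).1 hz, rfl⟩
      · rintro ⟨b, hb, rfl⟩
        exact (hlr a b).2 hb
    rw [e, Set.ncard_image_of_injective _ Sum.inr_injective]
  have hdr : ∀ b, (B.neighborSet (Sum.inr b)).ncard = (G.neighborSet b).ncard := by
    intro b
    have e : B.neighborSet (Sum.inr b) = Sum.inl '' (G.neighborSet b) := by
      ext z
      rw [SimpleGraph.mem_neighborSet]
      constructor
      · intro hz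
        rcases z with a | a
        · exact ⟨a, ((hlr a b).1 hz.symm).symm, rfl⟩
        · exact absurd hz (hrr b a)
      · rintro ⟨a, ha, rfl⟩
        exact ((hlr a b).2 (SimpleGraph.Adj.symm ha)).symm
    rw [e, Set.ncard_image_of_injective _ Sum.inl_injective]
  refine ⟨m, B, hm, hmC, ?_, hll, hrr, ?_⟩
  · rw [← ENat.add_one_le_iff (ENat.natCast_ne_top _)]
    have := GU4.girth_of_closed_walks (A := Fin m) (B := Fin m) (fun a b => G.Adj a b)
      (2 * k + 1) (by
        intro g a b hg1 h1 h2 h3 h4 h5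
        by_contra hlt
        set x : ℕ → Fin m := fun j => if Even j then a (j / 2) else b (j / 2) with hx
        have hxe : ∀ i, x (2 * i) = a i := by
          intro i
          simp only [hx]
          rw [if_pos (even_two_mul i)]
          congr 1
          omega
        have hxo : ∀ i, x (2 * i + 1) = b i := by
          intro i
          simp only [hx]
          have : ¬ Even (2 * i + 1) := by
            rw [Nat.even_add_one]; exact not_not.2 (even_two_mul i)
          rw [if_neg this]
          congr 1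
          omega
        have hw := NW.of_fun (G := G) (n := 2 * g) (x := x) (by
          intro j hj
          rcases Nat.even_or_odd' j with ⟨i, rfl | rfl⟩
          · rw [hxe, hxo]
            exact h1 i (by omega)
          · rw [hxo, show 2 * i + 1 + 1 = 2 * (i + 1) by ring, hxe]
            exact (h2 i (by omega)).symm) (by
          intro j hj
          rcases Nat.even_or_odd' j with ⟨i, rfl | rfl⟩
          · rw [hxe, show 2 * i + 2 = 2 * (i + 1) by ring, hxe]
            exact h3 i (by omega)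
          · rw [hxo, show 2 * i + 1 + 2 = 2 * (i + 1) + 1 by ring, hxo]
            exact h4 i (by omega)) (i := 0) (j := 2 * g) (by omega) le_rfl
        have e0 : x (2 * g) = x 0 := by
          rw [hxe, show (0 : ℕ) = 2 * 0 by rfl, hxe, h5]
        rw [e0] at hw
        exact no_closed hg hw (by omega))
    exact_mod_cast this
  · rintro (a | b)
    · rw [hdl]; exact hdeg a
    · rw [hdr]; exact hdeg b

theorem almostRegularForm_of_bipartiteForm {k : ℕ} (h : BipartiteForm k) :
    AlmostRegularForm k := by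
  classical
  obtain ⟨C, hC⟩ := h
  have hC0 : 0 < C := by
    obtain ⟨m, G, hm, hm2, -⟩ := hC 1 le_rfl
    have : (0 : ℝ) < m := by exact_mod_cast hm
    simp at hm2
    linarith
  refine ⟨2 * C, fun d hd => ?_⟩
  obtain ⟨m, G, hm, hmC, hg, -, -, hdeg⟩ := hC d hd
  have hd0 : (0 : ℝ) ≤ d := Nat.cast_nonneg _
  refine ⟨m + m, G.comap (finSumFinEquiv.symm : Fin (m + m) ≃ Fin m ⊕ Fin m), by omega, ?_, ?_,
    fun x => ?_⟩
  · push_cast
    linarith
  · refine lt_of_lt_of_le hg ?_
    exact SimpleGraph.IsContained.egirth_le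
      ⟨(SimpleGraph.Embedding.comap
        (finSumFinEquiv.symm : Fin (m + m) ≃ Fin m ⊕ Fin m).toEmbedding G).toCopy⟩
  · have e : ((G.comap (finSumFinEquiv.symm : Fin (m + m) ≃ Fin m ⊕ Fin m)).neighborSet x).ncard =
        (G.neighborSet (finSumFinEquiv.symm x)).ncard := by
      rw [← Set.ncard_image_of_injective _
        (finSumFinEquiv.symm : Fin (m + m) ≃ Fin m ⊕ Fin m).injective]
      congr 1
      ext z
      simp only [Set.mem_image, SimpleGraph.mem_neighborSet, SimpleGraph.comap_adj]
      constructor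
      · rintro ⟨j, hj, rfl⟩
        exact hj
      · intro hz
        refine ⟨finSumFinEquiv z, ?_, by simp⟩
        simpa using hz
    rw [e]
    refine ⟨(hdeg _).1, (hdeg _).2.trans ?_⟩
    nlinarith

theorem girthConj_iff {k : ℕ} (hk : 1 ≤ k) : GirthConj k ↔ BipartiteForm k :=
  ⟨fun h => bipartiteForm_of (almostRegularForm_of_girthConj hk h),
    fun h => girthConj_of_almostRegularForm hk (almostRegularForm_of_bipartiteForm h)⟩

end Pool.TH815.GR
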