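import Mathlib

/-!
# Bicliques in graphs of small rank
-/

set_option autoImplicit false

namespace Pool.TH815.LR

open Finset Matrix

/-- Cauchy-Schwarz on the nonzero eigenvalues. -/
theorem trace_sq_le {X : Type*} [Fintype X] [DecidableEq X] (P : Matrix X X ℝ)
    (hP : P.IsHermitian) : P.trace ^ 2 ≤ P.rank * (P * P).trace := by
  classical
  set U : Matrix X X ℝ := (hP.eigenvectorUnitary : Matrix X X ℝ) with hU
  have h1 : star U * U = 1 := Unitary.coe_star_mul_self _
  have hspec : P = U * diagonal hP.eigenvalues * star U := by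
    have := hP.spectral_theorem
    rw [Unitary.conjStarAlgAut_apply] at this
    simpa using this
  have htr : P.trace = ∑ i, hP.eigenvalues i := by
    conv_lhs => rw [hspec]
    rw [Matrix.trace_mul_comm, ← Matrix.mul_assoc, h1, Matrix.one_mul, Matrix.trace_diagonal]
  have htr2 : (P * P).trace = ∑ i, hP.eigenvalues i ^ 2 := by
    have : P * P = U * (diagonal hP.eigenvalues * diagonal hP.eigenvalues) * star U := by
      conv_lhs => rw [hspec]
      calc U * diagonal hP.eigenvalues * star U * (U * diagonal hP.eigenvalues * star U)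
          = U * diagonal hP.eigenvalues * (star U * U) * diagonal hP.eigenvalues * star U := by
            simp only [Matrix.mul_assoc]
        _ = _ := by rw [h1, Matrix.mul_one]; simp only [Matrix.mul_assoc]
    rw [this, Matrix.trace_mul_comm, ← Matrix.mul_assoc, h1, Matrix.one_mul,
      Matrix.diagonal_mul_diagonal, Matrix.trace_diagonal]
    exact Finset.sum_congr rfl fun i _ => by ring
  have hrank : (P.rank : ℝ) = ((univ.filter fun i => hP.eigenvalues i ≠ 0).card : ℝ) := by
    rw [hP.rank_eq_card_non_zero_eigs, Fintype.card_subtype]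
  rw [htr, htr2, hrank]
  have e1 : ∑ i, hP.eigenvalues i = ∑ i ∈ univ.filter (fun i => hP.eigenvalues i ≠ 0),
      hP.eigenvalues i := by
    rw [Finset.sum_filter_ne_zero]
  have e2 : ∑ i, hP.eigenvalues i ^ 2 = ∑ i ∈ univ.filter (fun i => hP.eigenvalues i ≠ 0),
      hP.eigenvalues i ^ 2 := by
    rw [Finset.sum_filter]
    apply Finset.sum_congr rfl
    intro i _
    by_cases h : hP.eigenvalues i = 0
    · simp [h]
    · simp [h]
  rw [e1, e2]
  exact sq_sum_le_card_mul_sum_sq

/-- The sum of the entries of a `0/1` matrix against the common ones of its rows. -/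
theorem entries_sq_le {X Y : Type*} [Fintype X] [DecidableEq X] [Fintype Y]
    (M : Matrix X Y ℝ) (h01 : ∀ x y, M x y ^ 2 = M x y) :
    (∑ x, ∑ y, M x y) ^ 2 ≤ M.rank * ∑ x, ∑ x', (∑ y, M x y * M x' y) ^ 2 := by
  have hH : (M * Mᵀ).IsHermitian := by
    have := Matrix.isHermitian_mul_conjTranspose_self M
    rwa [Matrix.conjTranspose_eq_transpose_of_trivial] at this
  have h := trace_sq_le (M * Mᵀ) hH
  rw [Matrix.rank_self_mul_transpose] at h
  have e1 : (M * Mᵀ).trace = ∑ x, ∑ y, M x y := by
    simp only [Matrix.trace, Matrix.diag_apply, Matrix.mul_apply, Matrix.transpose_apply]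
    refine Finset.sum_congr rfl fun x _ => Finset.sum_congr rfl fun y _ => ?_
    rw [← sq, h01]
  have e2 : (M * Mᵀ * (M * Mᵀ)).trace = ∑ x, ∑ x', (∑ y, M x y * M x' y) ^ 2 := by
    simp only [Matrix.trace, Matrix.diag_apply]
    refine Finset.sum_congr rfl fun x _ => ?_
    rw [Matrix.mul_apply]
    refine Finset.sum_congr rfl fun x' _ => ?_
    simp only [Matrix.mul_apply, Matrix.transpose_apply]
    rw [sq]
    congr 1
    exact Finset.sum_congr rfl fun y _ => mul_comm _ _
  rw [e1, e2] at h
  exact h

end Pool.TH815.LR
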