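import Pool.Agent.TH815.LR1

set_option autoImplicit false

namespace Pool.TH815.LR

open Finset Matrix

variable {V : Type*} [Fintype V] [DecidableEq V]

/-- Few pairs `(x, c)` if distinct `x` have few common `c` and no `c` has many `x`. -/
theorem edges_le (G : SimpleGraph V) [DecidableRel G.Adj] (r : ℕ)
    (hr : (G.adjMatrix ℝ).rank ≤ r) (R Q : Finset V) (τ L : ℕ)
    (h1 : ∀ x ∈ R, ∀ x' ∈ R, x ≠ x' → (Q.filter (fun c => G.Adj x c ∧ G.Adj x' c)).card ≤ τ)
    (h2 : ∀ c ∈ Q, (R.filter (fun x => G.Adj x c)).card ≤ L) :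
    ∑ c ∈ Q, (R.filter (fun x => G.Adj x c)).card ≤ r * (Q.card + L * τ) := by
  classical
  set a : V → V → ℝ := fun x c => if G.Adj x c then 1 else 0 with ha
  have ha01 : ∀ x c, a x c ^ 2 = a x c := by
    intro x c; simp only [ha]; split_ifs <;> norm_num
  have ha0 : ∀ x c, 0 ≤ a x c := by
    intro x c; simp only [ha]; split_ifs <;> norm_num
  set M : Matrix R Q ℝ := (G.adjMatrix ℝ).submatrix (fun x : R => (x : V)) (fun c : Q => (c : V))
    with hM
  have hMa : ∀ x c, M x c = a x c := by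
    intro x c
    simp only [hM, Matrix.submatrix_apply, SimpleGraph.adjMatrix_apply, ha]
  have hrank : M.rank ≤ r := (Matrix.rank_submatrix_le _ _ _).trans hr
  have hmain := entries_sq_le M (by intro x c; rw [hMa, ha01])
  set E : ℝ := ∑ x ∈ R, ∑ c ∈ Q, a x c with hE
  have e1 : ∑ x : R, ∑ c : Q, M x c = E := by
    rw [hE, ← Finset.sum_coe_sort R]
    refine Finset.sum_congr rfl fun x _ => ?_
    rw [← Finset.sum_coe_sort Q]
    exact Finset.sum_congr rfl fun c _ => hMa x c
  set cod : V → V → ℝ := fun x x' => ∑ c ∈ Q, a x c * a x' c with hcod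
  have hcod0 : ∀ x x', 0 ≤ cod x x' := fun x x' =>
    Finset.sum_nonneg fun c _ => mul_nonneg (ha0 _ _) (ha0 _ _)
  have e2 : ∑ x : R, ∑ x' : R, (∑ c : Q, M x c * M x' c) ^ 2
      = ∑ x ∈ R, ∑ x' ∈ R, cod x x' ^ 2 := by
    rw [← Finset.sum_coe_sort R]
    refine Finset.sum_congr rfl fun x _ => ?_
    rw [← Finset.sum_coe_sort R]
    refine Finset.sum_congr rfl fun x' _ => ?_
    congr 1
    simp only [hcod]
    rw [← Finset.sum_coe_sort Q]
    exact Finset.sum_congr rfl fun c _ => by rw [hMa, hMa]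
  rw [e1, e2] at hmain
  have hE0 : 0 ≤ E := Finset.sum_nonneg fun x _ => Finset.sum_nonneg fun c _ => ha0 _ _
  -- degrees of the columns
  set d : V → ℝ := fun c => ∑ x ∈ R, a x c with hd
  have hd0 : ∀ c, 0 ≤ d c := fun c => Finset.sum_nonneg fun x _ => ha0 _ _
  have hdcard : ∀ c, d c = ((R.filter (fun x => G.Adj x c)).card : ℝ) := by
    intro c
    simp only [hd, ha, Finset.sum_boole]
  have hdL : ∀ c ∈ Q, d c ≤ L := by
    intro c hc
    rw [hdcard]
    exact_mod_cast h2 c hc
  have hEd : E = ∑ c ∈ Q, d c := by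
    rw [hE, Finset.sum_comm]
  have hdiag : ∀ x, cod x x = ∑ c ∈ Q, a x c := by
    intro x
    simp only [hcod]
    exact Finset.sum_congr rfl fun c _ => by rw [← sq, ha01]
  have hcodQ : ∀ x x', cod x x' ≤ Q.card := by
    intro x x'
    simp only [hcod]
    calc ∑ c ∈ Q, a x c * a x' c ≤ ∑ c ∈ Q, (1 : ℝ) := by
          refine Finset.sum_le_sum fun c _ => ?_
          simp only [ha]; split_ifs <;> norm_num
      _ = Q.card := by simp
  have hcodτ : ∀ x ∈ R, ∀ x' ∈ R, x ≠ x' → cod x x' ≤ τ := by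
    intro x hx x' hx' hne
    have : cod x x' = ((Q.filter (fun c => G.Adj x c ∧ G.Adj x' c)).card : ℝ) := by
      rw [← Finset.sum_boole]
      simp only [hcod, ha]
      refine Finset.sum_congr rfl fun c _ => ?_
      by_cases p : G.Adj x c <;> by_cases q : G.Adj x' c <;> simp [p, q]
    rw [this]
    exact_mod_cast h1 x hx x' hx' hne
  have hS : ∑ x ∈ R, ∑ x' ∈ R, cod x x' ^ 2 ≤ Q.card * E + τ * (L * E) := by
    have hpt : ∀ x ∈ R, ∀ x' ∈ R, cod x x' ^ 2 ≤
        (if x = x' then (Q.card : ℝ) * cod x x' else 0) + τ * cod x x' := by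
      intro x hx x' hx'
      have h0 := hcod0 x x'
      by_cases hxx : x = x'
      · rw [if_pos hxx]
        have h3 := hcodQ x x'
        have h4 : (0 : ℝ) ≤ τ := Nat.cast_nonneg _
        nlinarith [mul_nonneg h4 h0]
      · rw [if_neg hxx]
        have h3 := hcodτ x hx x' hx' hxx
        nlinarith
    calc ∑ x ∈ R, ∑ x' ∈ R, cod x x' ^ 2
        ≤ ∑ x ∈ R, ∑ x' ∈ R, ((if x = x' then (Q.card : ℝ) * cod x x' else 0)
            + τ * cod x x') :=
          Finset.sum_le_sum fun x hx => Finset.sum_le_sum fun x' hx' => hpt x hx x' hx'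
      _ = ∑ x ∈ R, (Q.card : ℝ) * cod x x + τ * ∑ x ∈ R, ∑ x' ∈ R, cod x x' := by
          simp only [Finset.sum_add_distrib, Finset.mul_sum]
          congr 1
          refine Finset.sum_congr rfl fun x hx => ?_
          rw [Finset.sum_ite_eq, if_pos hx]
      _ = Q.card * E + τ * ∑ c ∈ Q, d c * d c := by
          congr 1
          · rw [← Finset.mul_sum, hE]
            congr 1
            exact Finset.sum_congr rfl fun x _ => hdiag x
          · congr 1
            simp only [hcod, hd]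
            rw [show (∑ x ∈ R, ∑ x' ∈ R, ∑ c ∈ Q, a x c * a x' c)
              = ∑ x ∈ R, ∑ c ∈ Q, ∑ x' ∈ R, a x c * a x' c from
              Finset.sum_congr rfl fun x _ => Finset.sum_comm]
            rw [Finset.sum_comm]
            refine Finset.sum_congr rfl fun c _ => ?_
            rw [Finset.sum_mul_sum]
      _ ≤ Q.card * E + τ * (L * E) := by
          have : ∑ c ∈ Q, d c * d c ≤ L * E := by
            rw [hEd, Finset.mul_sum]
            exact Finset.sum_le_sum fun c hc => mul_le_mul_of_nonneg_right (hdL c hc) (hd0 c)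
          have h4 : (0 : ℝ) ≤ τ := Nat.cast_nonneg _
          nlinarith [mul_le_mul_of_nonneg_left this h4]
  have hfin : E ≤ r * (Q.card + L * τ) := by
    by_cases hz : E = 0
    · rw [hz]; positivity
    · have hpos : 0 < E := lt_of_le_of_ne hE0 (Ne.symm hz)
      have hSnn : 0 ≤ ∑ x ∈ R, ∑ x' ∈ R, cod x x' ^ 2 :=
        Finset.sum_nonneg fun x _ => Finset.sum_nonneg fun x' _ => sq_nonneg _
      have h5 : E ^ 2 ≤ r * (Q.card * E + τ * (L * E)) := by
        refine hmain.trans ?_
        have h6 : (M.rank : ℝ) ≤ r := by exact_mod_cast hrank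
        exact mul_le_mul h6 hS hSnn (Nat.cast_nonneg _)
      have h7 : E * E ≤ E * (r * (Q.card + L * τ)) := by
        nlinarith
      exact le_of_mul_le_mul_left h7 hpos
  have hcast : ((∑ c ∈ Q, (R.filter (fun x => G.Adj x c)).card : ℕ) : ℝ) = E := by
    rw [hEd]
    push_cast
    exact Finset.sum_congr rfl fun c _ => (hdcard c).symm
  have : ((∑ c ∈ Q, (R.filter (fun x => G.Adj x c)).card : ℕ) : ℝ)
      ≤ ((r * (Q.card + L * τ) : ℕ) : ℝ) := by
    rw [hcast]; push_cast; exact hfin
  exact_mod_cast this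

/-- One step: common neighbours in a class `C` of vertices of similar degree. -/
theorem step (G : SimpleGraph V) [DecidableRel G.Adj] (r : ℕ)
    (hr : (G.adjMatrix ℝ).rank ≤ r) (C : Finset V) (D s τ : ℕ)
    (hD1 : ∀ c ∈ C, D ≤ G.degree c) (hD2 : ∀ c ∈ C, G.degree c ≤ 2 * D)
    (hD : 2 * (r + s) ≤ D) (hDpos : 0 < D)
    (hτ : ∀ X : Finset V, X.card = s + 2 →
      (C.filter (fun c => ∀ x ∈ X, G.Adj x c)).card ≤ τ)
    (X : Finset V) (hX : X.card = s) :
    (C.filter (fun c => ∀ x ∈ X, G.Adj x c)).card ≤ 4 * r * τ := by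
  classical
  set Q := C.filter (fun c => ∀ x ∈ X, G.Adj x c) with hQ
  have h := edges_le G r hr Xᶜ Q τ (2 * D) (by
    intro x hx x' hx' hne
    rw [Finset.mem_compl] at hx hx'
    have hc : (insert x (insert x' X)).card = s + 2 := by
      rw [Finset.card_insert_of_notMem, Finset.card_insert_of_notMem hx', hX]
      rw [Finset.mem_insert]
      push Not
      exact ⟨hne, hx⟩
    refine le_trans (Finset.card_le_card ?_) (hτ _ hc)
    intro c hcm
    simp only [hQ, Finset.mem_filter, Finset.mem_insert] at hcm ⊢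
    refine ⟨hcm.1.1, ?_⟩
    rintro y (rfl | rfl | hy)
    · exact hcm.2.1
    · exact hcm.2.2
    · exact hcm.1.2 y hy) (by
    intro c hc
    have hcC : c ∈ C := (Finset.mem_filter.mp hc).1
    refine le_trans ?_ (hD2 c hcC)
    rw [← SimpleGraph.card_neighborFinset_eq_degree]
    apply Finset.card_le_card
    intro x hx
    rw [Finset.mem_filter] at hx
    rw [SimpleGraph.mem_neighborFinset]
    exact hx.2.symm)
  have hlow : Q.card * (D - s) ≤ ∑ c ∈ Q, ((Xᶜ : Finset V).filter (fun x => G.Adj x c)).card := by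
    rw [← smul_eq_mul, ← Finset.sum_const]
    refine Finset.sum_le_sum fun c hc => ?_
    have hcC : c ∈ C := (Finset.mem_filter.mp hc).1
    have h1 := hD1 c hcC
    have h2 : (G.neighborFinset c).card ≤
        ((Xᶜ : Finset V).filter (fun x => G.Adj x c)).card + X.card := by
      refine le_trans (Finset.card_le_card ?_) (Finset.card_union_le _ _)
      intro x hx
      rw [SimpleGraph.mem_neighborFinset] at hx
      rw [Finset.mem_union, Finset.mem_filter, Finset.mem_compl]
      by_cases hxX : x ∈ X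
      · exact Or.inr hxX
      · exact Or.inl ⟨hxX, hx.symm⟩
    rw [SimpleGraph.card_neighborFinset_eq_degree] at h2
    omega
  have h3 := hlow.trans h
  -- |Q| (D - s) ≤ r |Q| + 2 D r τ
  obtain ⟨e, he⟩ : ∃ e, D - s = e := ⟨_, rfl⟩
  rw [he] at h3
  have h4 : D ≤ 2 * (e - r) := by omega
  have h5 : r ≤ e := by omega
  obtain ⟨f, rfl⟩ := Nat.exists_eq_add_of_le h5
  rw [Nat.add_sub_cancel_left] at h4
  have h6 : Q.card * f ≤ 2 * D * r * τ := by nlinarith
  have h7 : D * Q.card ≤ D * (4 * r * τ) := by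
    calc D * Q.card ≤ 2 * f * Q.card := Nat.mul_le_mul_right _ h4
      _ = 2 * (Q.card * f) := by ring
      _ ≤ 2 * (2 * D * r * τ) := Nat.mul_le_mul_left _ h6
      _ = D * (4 * r * τ) := by ring
  exact Nat.le_of_mul_le_mul_left h7 hDpos

theorem iterate (G : SimpleGraph V) [DecidableRel G.Adj] (r : ℕ)
    (hr : (G.adjMatrix ℝ).rank ≤ r) (C : Finset V) (D s τ : ℕ)
    (hD1 : ∀ c ∈ C, D ≤ G.degree c) (hD2 : ∀ c ∈ C, G.degree c ≤ 2 * D)
    (hD : 2 * (r + s) ≤ D) (hDpos : 0 < D)
    (hτ : ∀ X : Finset V, X.card = s →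
      (C.filter (fun c => ∀ x ∈ X, G.Adj x c)).card ≤ τ) (j : ℕ) (hj : 2 * j ≤ s)
    (X : Finset V) (hX : X.card = s - 2 * j) :
    (C.filter (fun c => ∀ x ∈ X, G.Adj x c)).card ≤ (4 * r) ^ j * τ := by
  induction j generalizing X with
  | zero => simpa using hτ X (by simpa using hX)
  | succ j ih =>
    have := step G r hr C D (s - 2 * (j + 1)) ((4 * r) ^ j * τ) hD1 hD2 (by omega) hDpos
      (fun Y hY => ih (by omega) Y (by omega)) X hX
    calc _ ≤ 4 * r * ((4 * r) ^ j * τ) := this
      _ = _ := by ring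

/-- Every vertex has few neighbours in a class of vertices of similar degree. -/
theorem neighbours_in_class (G : SimpleGraph V) [DecidableRel G.Adj] (r : ℕ)
    (hr : (G.adjMatrix ℝ).rank ≤ r) (C : Finset V) (D s τ : ℕ)
    (hD1 : ∀ c ∈ C, D ≤ G.degree c) (hD2 : ∀ c ∈ C, G.degree c ≤ 2 * D)
    (hD : 2 * (r + s) ≤ D) (hDpos : 0 < D)
    (hτ : ∀ X : Finset V, X.card = s →
      (C.filter (fun c => ∀ x ∈ X, G.Adj x c)).card ≤ τ) (_hs : 1 ≤ s) (x : V) :
    (C.filter (fun c => G.Adj x c)).card ≤ (4 * r) ^ (s / 2) * τ := by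
  rcases Nat.even_or_odd' s with ⟨k, hk | hk⟩
  · have hk2 : s / 2 = k := by omega
    have := iterate G r hr C D s τ hD1 hD2 hD hDpos hτ k (by omega) ∅ (by simp; omega)
    rw [hk2]
    refine le_trans (Finset.card_le_card ?_) this
    intro c hc
    rw [Finset.mem_filter] at hc ⊢
    exact ⟨hc.1, by simp⟩
  · have hk2 : s / 2 = k := by omega
    have := iterate G r hr C D s τ hD1 hD2 hD hDpos hτ k (by omega) {x} (by simp; omega)
    rw [hk2]
    refine le_trans (Finset.card_le_card ?_) this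
    intro c hc
    rw [Finset.mem_filter] at hc ⊢
    refine ⟨hc.1, ?_⟩
    intro y hy
    rw [Finset.mem_singleton] at hy
    rw [hy]
    exact hc.2

/-- The minimum degree. -/
theorem exists_small_degree (G : SimpleGraph V) [DecidableRel G.Adj] [Nonempty V] (r s τ : ℕ)
    (hr : (G.adjMatrix ℝ).rank ≤ r) (hs : 1 ≤ s)
    (hτ : ∀ X : Finset V, X.card = s →
      (univ.filter (fun c => ∀ x ∈ X, G.Adj x c)).card ≤ τ)
    (hM : 2 * (r + s) ≤ (4 * r) ^ (s / 2) * τ + 1) :
    ∃ v, G.degree v ≤ (4 * r) ^ (s / 2) * τ := by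
  classical
  set M := (4 * r) ^ (s / 2) * τ with hMdef
  by_contra hcon
  push Not at hcon
  have hmin : ∀ v, M + 1 ≤ G.degree v := fun v => hcon v
  obtain ⟨x, -, hx⟩ := Finset.exists_max_image (univ : Finset V) (fun v => G.degree v)
    Finset.univ_nonempty
  set δ := M + 1 with hδ
  set f : V → ℕ := fun c => Nat.log 2 (G.degree c / δ) with hf
  set J := Nat.log 2 (G.degree x / δ) with hJ
  have hfib : ∀ j ∈ Finset.range (J + 1),
      ((G.neighborFinset x).filter (fun c => f c = j)).card ≤ M := by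
    intro j _
    have h := neighbours_in_class G r hr (univ.filter (fun c => f c = j)) (δ * 2 ^ j) s τ
      (by
        intro c hc
        rw [Finset.mem_filter] at hc
        have h1 : 1 ≤ G.degree c / δ := (Nat.one_le_div_iff (by omega)).mpr (hmin c)
        have h2 : 2 ^ j ≤ G.degree c / δ := by
          rw [← hc.2]; exact Nat.pow_log_le_self 2 (by omega)
        calc δ * 2 ^ j ≤ δ * (G.degree c / δ) := Nat.mul_le_mul_left _ h2
          _ ≤ G.degree c := Nat.mul_div_le _ _)
      (by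
        intro c hc
        rw [Finset.mem_filter] at hc
        have h2 : G.degree c / δ < 2 ^ (j + 1) := by
          rw [← hc.2]; exact Nat.lt_pow_succ_log_self (by norm_num) _
        have h3 : G.degree c < δ * 2 ^ (j + 1) := by
          rw [mul_comm]
          exact (Nat.div_lt_iff_lt_mul (by omega)).mp h2
        rw [pow_succ] at h3
        calc G.degree c ≤ δ * (2 ^ j * 2) := h3.le
          _ = 2 * (δ * 2 ^ j) := by ring)
      (by
        calc 2 * (r + s) ≤ δ := hM
          _ = δ * 1 := (mul_one _).symm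
          _ ≤ δ * 2 ^ j := Nat.mul_le_mul_left _ (Nat.one_le_two_pow))
      (by positivity)
      (by
        intro X hX
        refine le_trans (Finset.card_le_card ?_) (hτ X hX)
        intro c hc
        rw [Finset.mem_filter] at hc ⊢
        exact ⟨Finset.mem_univ _, hc.2⟩) hs x
    refine le_trans (Finset.card_le_card ?_) h
    intro c hc
    rw [Finset.mem_filter, SimpleGraph.mem_neighborFinset] at hc
    simp only [Finset.mem_filter, Finset.mem_univ, true_and]
    exact ⟨hc.2, hc.1⟩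
  have hmaps : ∀ c ∈ G.neighborFinset x, f c ∈ Finset.range (J + 1) := by
    intro c _
    rw [Finset.mem_range]
    have : f c ≤ J := Nat.log_mono_right (Nat.div_le_div_right (hx c (Finset.mem_univ _)))
    omega
  have h1 : (G.neighborFinset x).card ≤ (J + 1) * M := by
    rw [Finset.card_eq_sum_card_fiberwise hmaps]
    calc _ ≤ ∑ _j ∈ Finset.range (J + 1), M := Finset.sum_le_sum hfib
      _ = (J + 1) * M := by simp
  rw [SimpleGraph.card_neighborFinset_eq_degree] at h1
  have h2 : 1 ≤ G.degree x / δ := (Nat.one_le_div_iff (by omega)).mpr (hmin x)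
  have h3 : 2 ^ J ≤ G.degree x / δ := Nat.pow_log_le_self 2 (by omega)
  have h4 : δ * 2 ^ J ≤ G.degree x := (Nat.mul_le_mul_left _ h3).trans (Nat.mul_div_le _ _)
  have h5 : J + 1 ≤ 2 ^ J := Nat.lt_two_pow_self
  have h6 : δ * (J + 1) ≤ (J + 1) * M := (Nat.mul_le_mul_left _ h5).trans (h4.trans h1)
  have h7 : (J + 1) * δ ≤ (J + 1) * M := by rwa [mul_comm] at h6
  have h8 := Nat.le_of_mul_le_mul_left h7 (Nat.succ_pos _)
  omega

end Pool.TH815.LR
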