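import Pool.Agent.TH815.LR2

set_option autoImplicit false

namespace Pool.TH815.LR

open Finset Matrix

variable {V : Type*} [Fintype V] [DecidableEq V]

/-- A degenerate graph has a proper colouring. -/
theorem colour_of_degenerate (G : SimpleGraph V) [DecidableRel G.Adj] (M : ℕ)
    (h : ∀ W : Finset V, W.Nonempty → ∃ v ∈ W, (W.filter (fun c => G.Adj v c)).card ≤ M) :
    G.Colorable (M + 1) := by
  classical
  have key : ∀ n : ℕ, ∀ W : Finset V, W.card = n →
      ∃ c : V → Fin (M + 1), ∀ u ∈ W, ∀ v ∈ W, G.Adj u v → c u ≠ c v := by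
    intro n
    induction n with
    | zero =>
      intro W hW
      rw [Finset.card_eq_zero] at hW
      exact ⟨fun _ => 0, by intro u hu; rw [hW] at hu; simp at hu⟩
    | succ n ih =>
      intro W hW
      obtain ⟨v, hv, hcard⟩ := h W (Finset.card_pos.mp (by omega))
      obtain ⟨c, hc⟩ := ih (W.erase v) (by rw [Finset.card_erase_of_mem hv]; omega)
      obtain ⟨k, hk⟩ : ∃ k : Fin (M + 1), k ∉ (W.filter (fun u => G.Adj v u)).image c := by
        by_contra hcon
        push Not at hcon
        have h1 : (univ : Finset (Fin (M + 1))).card ≤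
            ((W.filter (fun u => G.Adj v u)).image c).card :=
          Finset.card_le_card fun k _ => hcon k
        rw [Finset.card_univ, Fintype.card_fin] at h1
        have h2 := Finset.card_image_le (s := W.filter (fun u => G.Adj v u)) (f := c)
        omega
      refine ⟨Function.update c v k, ?_⟩
      intro a ha b hb hab
      have hne : a ≠ b := hab.ne
      by_cases hav : a = v
      · subst hav
        rw [Function.update_self, Function.update_of_ne (Ne.symm hne)]
        intro he
        apply hk
        rw [Finset.mem_image]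
        exact ⟨b, Finset.mem_filter.mpr ⟨hb, hab⟩, he.symm⟩
      · by_cases hbv : b = v
        · subst hbv
          rw [Function.update_self, Function.update_of_ne hav]
          intro he
          apply hk
          rw [Finset.mem_image]
          exact ⟨a, Finset.mem_filter.mpr ⟨ha, hab.symm⟩, he⟩
        · rw [Function.update_of_ne hav, Function.update_of_ne hbv]
          exact hc a (Finset.mem_erase.mpr ⟨hav, ha⟩) b (Finset.mem_erase.mpr ⟨hbv, hb⟩) hab
  obtain ⟨c, hc⟩ := key _ univ rfl
  exact ⟨SimpleGraph.Coloring.mk c fun {u v} huv => hc u (mem_univ _) v (mem_univ _) huv⟩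

/-- Graphs of rank `r` without `K_{s,t}` are degenerate. -/
theorem degenerate_of_biclique_free (G : SimpleGraph V) [DecidableRel G.Adj] (r s t : ℕ)
    (hr : (G.adjMatrix ℝ).rank ≤ r) (hr2 : 2 ≤ r) (hs : 2 ≤ s) (hst : s ≤ t)
    (hfree : ∀ X Y : Finset V, X.card = s → Y.card = t → ∃ x ∈ X, ∃ y ∈ Y, ¬ G.Adj x y)
    (W : Finset V) (hW : W.Nonempty) :
    ∃ v ∈ W, (W.filter (fun c => G.Adj v c)).card ≤ (4 * r) ^ (s / 2) * (t - 1) := by
  classical
  have : Nonempty W := ⟨⟨hW.choose, hW.choose_spec⟩⟩
  set H : SimpleGraph W := G.comap (fun w : W => (w : V)) with hH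
  have hrH : (H.adjMatrix ℝ).rank ≤ r := by
    have : H.adjMatrix ℝ = (G.adjMatrix ℝ).submatrix (fun w : W => (w : V))
        (fun w : W => (w : V)) := by
      ext a b
      simp only [SimpleGraph.adjMatrix_apply, Matrix.submatrix_apply, hH,
        SimpleGraph.comap_adj]
    rw [this]
    exact (Matrix.rank_submatrix_le _ _ _).trans hr
  obtain ⟨v, hv⟩ := exists_small_degree H r s (t - 1) hrH (by omega) (by
    intro X hX
    by_contra hcon
    push Not at hcon
    obtain ⟨Y, hY, hYc⟩ := Finset.exists_subset_card_eq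
      (show t ≤ (univ.filter (fun c => ∀ x ∈ X, H.Adj x c)).card by omega)
    obtain ⟨x, hx, y, hy, hxy⟩ := hfree (X.map (Function.Embedding.subtype _))
      (Y.map (Function.Embedding.subtype _)) (by rw [Finset.card_map, hX])
      (by rw [Finset.card_map, hYc])
    rw [Finset.mem_map] at hx hy
    obtain ⟨x', hx', rfl⟩ := hx
    obtain ⟨y', hy', rfl⟩ := hy
    have := hY hy'
    rw [Finset.mem_filter] at this
    exact hxy (this.2 x' hx')) (by
    have h1 : 4 * r ≤ (4 * r) ^ (s / 2) := by
      calc 4 * r = (4 * r) ^ 1 := (pow_one _).symm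
        _ ≤ (4 * r) ^ (s / 2) := Nat.pow_le_pow_right (by omega) (by omega)
    have h2 : 4 * r * (s - 1) ≤ (4 * r) ^ (s / 2) * (t - 1) :=
      Nat.mul_le_mul h1 (by omega)
    obtain ⟨k, rfl⟩ := Nat.exists_eq_add_of_le hs
    have h3 : 2 + k - 1 = k + 1 := by omega
    rw [h3] at h2
    nlinarith)
  refine ⟨v, v.2, ?_⟩
  refine le_trans ?_ hv
  rw [← SimpleGraph.card_neighborFinset_eq_degree,
    ← Finset.card_map (Function.Embedding.subtype (· ∈ W))]
  apply Finset.card_le_card
  intro c hc
  rw [Finset.mem_filter] at hc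
  rw [Finset.mem_map]
  refine ⟨⟨c, hc.1⟩, ?_, rfl⟩
  rw [SimpleGraph.mem_neighborFinset]
  exact hc.2

/-- Few rows dominate all the nonzero columns. -/
theorem exists_dominating {X Y : Type*} [Fintype X] [Fintype Y] [DecidableEq X]
    (M : Matrix X Y ℝ) :
    ∃ B : Finset X, B.card ≤ M.rank ∧ ∀ y, (∀ b ∈ B, M b y = 0) → ∀ x, M x y = 0 := by
  classical
  obtain ⟨b, hb, hspan, hli⟩ := exists_linearIndependent ℝ (Set.range M.row)
  have hfin : b.Finite := (Set.finite_range _).subset hb
  have : Fintype b := hfin.fintype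
  choose pre hpre using fun v : b => hb v.2
  refine ⟨Finset.univ.image pre, ?_, ?_⟩
  · refine le_trans Finset.card_image_le ?_
    rw [Finset.card_univ, Matrix.rank_eq_finrank_span_row, ← hspan]
    have h1 := finrank_span_set_eq_card (R := ℝ) (s := b) hli
    rw [h1, Set.toFinset_card]
  · intro y hy x
    have hmem : M.row x ∈ Submodule.span ℝ b := by
      rw [hspan]
      exact Submodule.subset_span ⟨x, rfl⟩
    have hall : ∀ v ∈ Submodule.span ℝ b, v y = 0 := by
      intro v hv
      induction hv using Submodule.span_induction with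
      | mem v hv =>
        have h1 := hy (pre ⟨v, hv⟩) (Finset.mem_image_of_mem _ (mem_univ _))
        have h2 := hpre ⟨v, hv⟩
        simp only at h2
        rw [← h2]
        exact h1
      | zero => rfl
      | add u v _ _ hu hv => rw [Pi.add_apply, hu, hv, add_zero]
      | smul c v _ hv => rw [Pi.smul_apply, hv, smul_zero]
    exact hall _ hmem

/-- Colouring by dominating rows. -/
theorem colour_of_clique_free (G : SimpleGraph V) [DecidableRel G.Adj] (r : ℕ)
    (hr : (G.adjMatrix ℝ).rank ≤ r) (hr1 : 1 ≤ r) (k : ℕ) (W : Finset V)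
    (hW : G.CliqueFreeOn (W : Set V) (k + 2)) :
    ∃ c : V → Fin (r ^ k), ∀ u ∈ W, ∀ v ∈ W, G.Adj u v → c u ≠ c v := by
  classical
  induction k generalizing W with
  | zero =>
    refine ⟨fun _ => ⟨0, by simp⟩, ?_⟩
    intro u hu v hv huv _
    apply hW (t := {u, v})
    · intro x hx
      rw [Finset.mem_coe, Finset.mem_insert, Finset.mem_singleton] at hx
      rcases hx with rfl | rfl
      · exact hu
      · exact hv
    · rw [SimpleGraph.isNClique_iff]
      refine ⟨?_, by rw [Finset.card_pair huv.ne]⟩
      simp only [Finset.coe_insert, Finset.coe_singleton]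
      intro a ha b hb hab
      simp only [Set.mem_insert_iff, Set.mem_singleton_iff] at ha hb
      rcases ha with rfl | rfl <;> rcases hb with rfl | rfl
      · exact absurd rfl hab
      · exact huv
      · exact huv.symm
      · exact absurd rfl hab
  | succ k ih =>
    obtain ⟨B, hBc, hB⟩ := exists_dominating
      ((G.adjMatrix ℝ).submatrix (fun w : W => (w : V)) (fun w : W => (w : V)))
    have hBr : B.card ≤ r := hBc.trans ((Matrix.rank_submatrix_le _ _ _).trans hr)
    have hdom : ∀ u ∈ W, ∀ v ∈ W, G.Adj u v → ∃ b ∈ B, G.Adj b v := by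
      intro u hu v hv huv
      by_contra hcon
      push Not at hcon
      have := hB ⟨v, hv⟩ (by
        intro b hb
        rw [Matrix.submatrix_apply, SimpleGraph.adjMatrix_apply, if_neg (hcon b hb)]) ⟨u, hu⟩
      rw [Matrix.submatrix_apply, SimpleGraph.adjMatrix_apply, if_pos huv] at this
      exact one_ne_zero this
    have hsub : ∀ b : W, ∃ c : V → Fin (r ^ k), ∀ u ∈ W.filter (fun v => G.Adj b v),
        ∀ v ∈ W.filter (fun v => G.Adj b v), G.Adj u v → c u ≠ c v := by
      intro b
      apply ih
      intro t ht hcl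
      apply hW (t := insert (b : V) t)
      · intro x hx
        rw [Finset.mem_coe, Finset.mem_insert] at hx
        rcases hx with rfl | hx
        · exact b.2
        · exact (Finset.mem_filter.mp (ht hx)).1
      · refine SimpleGraph.IsNClique.insert hcl ?_
        intro x hx
        exact (Finset.mem_filter.mp (ht hx)).2
    choose c hc using hsub
    obtain ⟨emb⟩ : Nonempty (B ↪ Fin r) := by
      apply Function.Embedding.nonempty_of_card_le
      rw [Fintype.card_coe, Fintype.card_fin]
      exact hBr
    have e : Fin r × Fin (r ^ k) ≃ Fin (r ^ (k + 1)) := by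
      refine finProdFinEquiv.trans (finCongr ?_)
      rw [pow_succ]; ring
    have hpos : 0 < r ^ k := by positivity
    refine ⟨fun v => e (if h : ∃ b ∈ B, G.Adj b v then
      (emb ⟨h.choose, h.choose_spec.1⟩, c h.choose v) else (⟨0, hr1⟩, ⟨0, hpos⟩)), ?_⟩
    intro u hu v hv huv heq
    have h2 := hdom u hu v hv huv
    have h1 := hdom v hv u hu huv.symm
    have heq' := e.injective heq
    rw [dif_pos h1, dif_pos h2] at heq'
    rw [Prod.mk.injEq] at heq'
    have h3 := emb.injective heq'.1
    rw [Subtype.mk.injEq] at h3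
    have h4 := heq'.2
    have hu1 := h1.choose_spec.2
    have hv1 := h2.choose_spec.2
    rw [← h3] at h4 hv1
    exact hc h1.choose u (Finset.mem_filter.mpr ⟨hu, hu1⟩) v
      (Finset.mem_filter.mpr ⟨hv, hv1⟩) huv h4

theorem rank_sub_le' (A B : Matrix V V ℝ) : (A - B).rank ≤ A.rank + B.rank := by
  unfold Matrix.rank
  refine le_trans (Submodule.finrank_mono ?_)
    (Submodule.finrank_add_le_finrank_add_finrank (LinearMap.range A.mulVecLin)
      (LinearMap.range B.mulVecLin))
  rintro _ ⟨v, rfl⟩
  rw [Matrix.mulVecLin_apply, Matrix.sub_mulVec]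
  exact Submodule.sub_mem _ (Submodule.mem_sup_left ⟨v, rfl⟩) (Submodule.mem_sup_right ⟨v, rfl⟩)

/-- Few vertices if there is no large independent set. -/
theorem card_of_indep_free (G : SimpleGraph V) [DecidableRel G.Adj] (r : ℕ)
    (hr : (G.adjMatrix ℝ).rank ≤ r) (hr1 : 1 ≤ r) (k : ℕ) (W : Finset V)
    (hW : ∀ T : Finset V, T ⊆ W → (∀ u ∈ T, ∀ v ∈ T, ¬ G.Adj u v) → T.card ≤ k) :
    W.card + 2 ≤ 2 * (r + 1) ^ k := by
  classical
  induction k generalizing W with
  | zero =>
    have : W = ∅ := by
      by_contra hne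
      obtain ⟨w, hw⟩ := Finset.nonempty_iff_ne_empty.mpr hne
      have := hW {w} (by simpa using hw) (by
        intro u hu v hv
        rw [Finset.mem_singleton] at hu hv
        rw [hu, hv]
        exact G.loopless.irrefl _)
      simp at this
    rw [this]; simp
  | succ k ih =>
    set N : Matrix V V ℝ := Matrix.of (fun _ _ => (1 : ℝ)) - G.adjMatrix ℝ with hN
    have hNr : N.rank ≤ r + 1 := by
      have h2 : (Matrix.of (fun (_ : V) (_ : V) => (1 : ℝ))).rank ≤ 1 := by
        have : (Matrix.of (fun (_ : V) (_ : V) => (1 : ℝ))) =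
            Matrix.vecMulVec (fun _ => (1 : ℝ)) (fun _ => (1 : ℝ)) := by
          ext i j; simp [Matrix.vecMulVec_apply]
        rw [this]
        exact Matrix.rank_vecMulVec_le _ _
      refine (rank_sub_le' _ _).trans ?_
      omega
    obtain ⟨B, hBc, hB⟩ := exists_dominating
      (N.submatrix (fun w : W => (w : V)) (fun w : W => (w : V)))
    have hBr : B.card ≤ r + 1 := hBc.trans ((Matrix.rank_submatrix_le _ _ _).trans hNr)
    have hcov : W ⊆ B.biUnion (fun b : W => (insert (b : V) (W.filter (fun v : V => v ≠ (b : V) ∧ ¬ G.Adj (b : V) v)) : Finset V)) := by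
      intro v hv
      by_contra hcon
      have hz : ∀ b ∈ B, (N.submatrix (fun w : W => (w : V)) (fun w : W => (w : V))) b ⟨v, hv⟩
          = 0 := by
        intro b hb
        rw [Finset.mem_biUnion] at hcon
        push Not at hcon
        have h1 := hcon b hb
        rw [Finset.mem_insert, Finset.mem_filter] at h1
        push Not at h1
        have h2 := h1.2 hv h1.1
        rw [Matrix.submatrix_apply, hN, Matrix.sub_apply, Matrix.of_apply,
          SimpleGraph.adjMatrix_apply, if_pos h2, sub_self]
      have := hB ⟨v, hv⟩ hz ⟨v, hv⟩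
      rw [Matrix.submatrix_apply, hN, Matrix.sub_apply, Matrix.of_apply,
        SimpleGraph.adjMatrix_apply, if_neg (G.loopless.irrefl _), sub_zero] at this
      exact one_ne_zero this
    have hpart : ∀ b ∈ B, ((insert (b : V) (W.filter (fun v : V => v ≠ (b : V) ∧ ¬ G.Adj (b : V) v)) : Finset V)).card + 1
        ≤ 2 * (r + 1) ^ k := by
      intro b _
      have h1 := ih (W.filter (fun v : V => v ≠ (b : V) ∧ ¬ G.Adj (b : V) v)) (by
        intro T hT hind
        have h2 := hW (insert (b : V) T) (by
          intro x hx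
          rw [Finset.mem_insert] at hx
          rcases hx with rfl | hx
          · exact b.2
          · exact (Finset.mem_filter.mp (hT hx)).1) (by
          intro u hu v hv
          rw [Finset.mem_insert] at hu hv
          rcases hu with rfl | hu <;> rcases hv with rfl | hv
          · exact G.loopless.irrefl _
          · exact (Finset.mem_filter.mp (hT hv)).2.2
          · exact fun h => (Finset.mem_filter.mp (hT hu)).2.2 h.symm
          · exact hind u hu v hv)
        rw [Finset.card_insert_of_notMem (by
          intro hb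
          exact (Finset.mem_filter.mp (hT hb)).2.1 rfl)] at h2
        omega)
      have h3 := Finset.card_insert_le (b : V) (W.filter (fun v : V => v ≠ (b : V) ∧ ¬ G.Adj (b : V) v))
      omega
    have h4 : W.card + B.card ≤ B.card * (2 * (r + 1) ^ k) := by
      calc W.card + B.card
          ≤ (B.biUnion (fun b : W => (insert (b : V) (W.filter (fun v : V => v ≠ (b : V) ∧ ¬ G.Adj (b : V) v)) : Finset V))).card
            + B.card := Nat.add_le_add_right (Finset.card_le_card hcov) _
        _ ≤ ∑ b ∈ B, ((insert (b : V) (W.filter (fun v : V => v ≠ (b : V) ∧ ¬ G.Adj (b : V) v)) : Finset V)).card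
            + B.card := Nat.add_le_add_right Finset.card_biUnion_le _
        _ = ∑ b ∈ B, (((insert (b : V) (W.filter (fun v : V => v ≠ (b : V) ∧ ¬ G.Adj (b : V) v)) : Finset V)).card + 1) := by
            rw [Finset.sum_add_distrib]; simp
        _ ≤ ∑ _b ∈ B, 2 * (r + 1) ^ k := Finset.sum_le_sum hpart
        _ = B.card * (2 * (r + 1) ^ k) := by rw [Finset.sum_const, smul_eq_mul]
    have h5 : 1 ≤ (r + 1) ^ k := Nat.one_le_pow _ _ (by omega)
    obtain ⟨q, hq⟩ : ∃ q, 2 * (r + 1) ^ k = q + 1 := ⟨2 * (r + 1) ^ k - 1, by omega⟩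
    have h6 : W.card ≤ B.card * q := by
      rw [hq] at h4
      nlinarith
    have h7 : W.card ≤ (r + 1) * q := h6.trans (Nat.mul_le_mul_right _ hBr)
    calc W.card + 2 ≤ (r + 1) * q + (r + 1) := by omega
      _ = (r + 1) * (q + 1) := by ring
      _ = (r + 1) * (2 * (r + 1) ^ k) := by rw [hq]
      _ = 2 * (r + 1) ^ (k + 1) := by ring

end Pool.TH815.LR
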