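import Pool.Agent.TH815.LR3

/-!
# Sampling independent sets in graphs of small rank

In a graph of rank `r` every independent set lies in an independent set determined by at most `r`
of its elements.  Hence samples of polynomial size have no larger relative independent sets than
the graph itself.
-/

set_option autoImplicit false
set_option linter.unusedSectionVars false

namespace Pool.TH815.LS

open Finset Matrix Pool.TH815.LR

variable {V : Type} [Fintype V] [DecidableEq V]

/-- Independent sets. -/
def Indep {V : Type} (G : SimpleGraph V) (I : Finset V) : Prop := ∀ u ∈ I, ∀ v ∈ I, ¬ G.Adj u v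

open Classical in
/-- The independent set determined by the values of `u` on `B`. -/
noncomputable def cont {V : Type} [Fintype V] (G : SimpleGraph V) {m : ℕ} (u : Fin m → V)
    (B : Finset (Fin m)) : Finset V :=
  univ.filter (fun w => (∀ b ∈ B, ¬ G.Adj (u b) w) ∧
    ∀ z, (∀ b ∈ B, ¬ G.Adj (u b) z) → ¬ G.Adj w z)

theorem mem_cont {V : Type} [Fintype V] (G : SimpleGraph V) {m : ℕ} (u : Fin m → V)
    (B : Finset (Fin m)) (w : V) : w ∈ cont G u B ↔ (∀ b ∈ B, ¬ G.Adj (u b) w) ∧
      ∀ z, (∀ b ∈ B, ¬ G.Adj (u b) z) → ¬ G.Adj w z := by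
  unfold cont
  simp

theorem cont_indep (G : SimpleGraph V) {m : ℕ} (u : Fin m → V) (B : Finset (Fin m)) :
    Indep G (cont G u B) := by
  intro w hw w' hw'
  rw [mem_cont] at hw hw'
  exact hw.2 w' hw'.1

theorem cont_congr (G : SimpleGraph V) {m : ℕ} (u u' : Fin m → V) (B : Finset (Fin m))
    (h : ∀ b ∈ B, u b = u' b) : cont G u B = cont G u' B := by
  have key : ∀ w, (∀ b ∈ B, ¬ G.Adj (u b) w) ↔ (∀ b ∈ B, ¬ G.Adj (u' b) w) := by
    intro w
    constructor
    · intro hw b hb
      rw [← h b hb]
      exact hw b hb
    · intro hw b hb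
      rw [h b hb]
      exact hw b hb
  ext w
  simp only [mem_cont, key]

theorem exists_gen (G : SimpleGraph V) [DecidableRel G.Adj] (r : ℕ)
    (hr : (G.adjMatrix ℝ).rank ≤ r) {m : ℕ} (u : Fin m → V) (J : Finset (Fin m))
    (hJ : ∀ i ∈ J, ∀ j ∈ J, ¬ G.Adj (u i) (u j)) :
    ∃ B ⊆ J, B.card ≤ r ∧ ∀ j ∈ J, u j ∈ cont G u B := by
  classical
  obtain ⟨B, hBc, hB⟩ := exists_dominating
    ((G.adjMatrix ℝ).submatrix (fun j : J => u j) (fun v : V => v))
  refine ⟨B.map (Function.Embedding.subtype _), ?_, ?_, ?_⟩
  · intro x hx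
    rw [mem_map] at hx
    obtain ⟨y, _, rfl⟩ := hx
    exact y.2
  · rw [card_map]
    exact hBc.trans ((Matrix.rank_submatrix_le _ _ _).trans hr)
  · intro j hj
    rw [mem_cont]
    refine ⟨?_, ?_⟩
    · intro b hb
      rw [mem_map] at hb
      obtain ⟨y, _, rfl⟩ := hb
      exact hJ _ y.2 _ hj
    · intro z hz
      have := hB z (by
        intro b hb
        rw [Matrix.submatrix_apply, SimpleGraph.adjMatrix_apply, if_neg]
        exact hz b (mem_map_of_mem _ hb)) ⟨j, hj⟩
      rw [Matrix.submatrix_apply, SimpleGraph.adjMatrix_apply] at this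
      intro hadj
      rw [if_pos hadj] at this
      exact one_ne_zero this

open Classical in
/-- The samples whose entries in `J` lie in the container of `B`. -/
noncomputable def samp (G : SimpleGraph V) (m : ℕ) (B J : Finset (Fin m)) :
    Finset (Fin m → V) :=
  univ.filter (fun u => ∀ j ∈ J, u j ∈ cont G u B)

theorem mem_samp {V : Type} [Fintype V] [DecidableEq V] (G : SimpleGraph V) (m : ℕ)
    (B J : Finset (Fin m)) (u : Fin m → V) :
    u ∈ samp G m B J ↔ ∀ j ∈ J, u j ∈ cont G u B := by
  unfold samp
  simp

theorem card_samp (G : SimpleGraph V) [Nonempty V] (m L : ℕ)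
    (hI : ∀ I, Indep G I → I.card * L ≤ Fintype.card V)
    (B J : Finset (Fin m)) (hBJ : Disjoint B J) :
    (samp G m B J).card * L ^ J.card ≤ Fintype.card V ^ m := by
  classical
  induction J using Finset.induction with
  | empty =>
    simp only [card_empty, pow_zero, mul_one]
    refine (card_le_univ _).trans ?_
    simp
  | insert j J hj ih =>
    have hjB : j ∉ B := fun h => (Finset.disjoint_left.mp hBJ h) (mem_insert_self _ _)
    have hBJ' : Disjoint B J := Finset.disjoint_of_subset_right (subset_insert _ _) hBJ
    specialize ih hBJ'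
    have hpos : 0 < Fintype.card V := Fintype.card_pos
    -- the double counting
    have h1 : (samp G m B (insert j J)).card * Fintype.card V ≤
        ∑ u ∈ samp G m B J, (cont G u B).card := by
      rw [← card_univ, ← card_product, ← card_sigma]
      apply card_le_card_of_injOn
        (fun p : (Fin m → V) × V =>
          (⟨Function.update p.1 j p.2, p.1 j⟩ : Σ _ : Fin m → V, V))
      · intro p hp
        simp only [coe_product, Set.mem_prod, mem_coe] at hp
        have hp1 := hp.1
        rw [mem_samp] at hp1
        have hcc : cont G (Function.update p.1 j p.2) B = cont G p.1 B := by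
          apply cont_congr
          intro b hb
          rw [Function.update_of_ne]
          rintro rfl
          exact hjB hb
        simp only [coe_sigma, Set.mem_sigma_iff, mem_coe]
        refine ⟨?_, ?_⟩
        · rw [mem_samp]
          intro i hi
          rw [hcc, Function.update_of_ne]
          · exact hp1 i (mem_insert_of_mem hi)
          · rintro rfl
            exact hj hi
        · rw [hcc]
          exact hp1 j (mem_insert_self _ _)
      · rintro ⟨u, x⟩ _ ⟨u', x'⟩ _ heq
        simp only [Sigma.mk.injEq, heq_eq_eq] at heq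
        obtain ⟨h1, h2⟩ := heq
        have hx : x = x' := by
          have := congrFun h1 j
          simpa using this
        have hu : u = u' := by
          funext i
          by_cases hij : i = j
          · rw [hij]; exact h2
          · have := congrFun h1 i
            rwa [Function.update_of_ne hij, Function.update_of_ne hij] at this
        rw [hx, hu]
    have h2 : (∑ u ∈ samp G m B J, (cont G u B).card) * L ≤
        (samp G m B J).card * Fintype.card V := by
      rw [sum_mul, ← smul_eq_mul, ← sum_const]
      exact sum_le_sum fun u _ => hI _ (cont_indep G u B)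
    have h3 : (samp G m B (insert j J)).card * L ≤ (samp G m B J).card := by
      have : Fintype.card V * ((samp G m B (insert j J)).card * L) ≤
          Fintype.card V * (samp G m B J).card := by
        calc Fintype.card V * ((samp G m B (insert j J)).card * L)
            = ((samp G m B (insert j J)).card * Fintype.card V) * L := by ring
          _ ≤ (∑ u ∈ samp G m B J, (cont G u B).card) * L := Nat.mul_le_mul_right _ h1
          _ ≤ (samp G m B J).card * Fintype.card V := h2
          _ = _ := by ring
      exact Nat.le_of_mul_le_mul_left this hpos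
    rw [card_insert_of_notMem hj, pow_succ]
    calc (samp G m B (insert j J)).card * (L ^ J.card * L)
        = ((samp G m B (insert j J)).card * L) * L ^ J.card := by ring
      _ ≤ (samp G m B J).card * L ^ J.card := Nat.mul_le_mul_right _ h3
      _ ≤ _ := ih

open Classical in
/-- The samples with an independent set of indices of size `k`. -/
noncomputable def bad (G : SimpleGraph V) (m k : ℕ) : Finset (Fin m → V) :=
  univ.filter (fun u => ∃ J : Finset (Fin m), J.card = k ∧
    ∀ i ∈ J, ∀ j ∈ J, ¬ G.Adj (u i) (u j))

theorem mem_bad {V : Type} [Fintype V] [DecidableEq V] (G : SimpleGraph V) (m k : ℕ)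
    (u : Fin m → V) : u ∈ bad G m k ↔ ∃ J : Finset (Fin m), J.card = k ∧
      ∀ i ∈ J, ∀ j ∈ J, ¬ G.Adj (u i) (u j) := by
  unfold bad
  simp

theorem sum_choose_le (m r : ℕ) : ∑ k ∈ range (r + 1), m.choose k ≤ (m + 1) ^ r := by
  induction r with
  | zero => simp
  | succ r ih =>
    rw [sum_range_succ]
    have h1 : m.choose (r + 1) ≤ m * (m + 1) ^ r := by
      refine (Nat.choose_le_pow m (r + 1)).trans ?_
      rw [pow_succ, mul_comm]
      exact Nat.mul_le_mul_left _ (Nat.pow_le_pow_left (Nat.le_succ m) r)
    calc _ ≤ (m + 1) ^ r + m * (m + 1) ^ r := Nat.add_le_add ih h1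
      _ = (m + 1) ^ (r + 1) := by ring

theorem card_small_sets (m r : ℕ) :
    ((univ : Finset (Finset (Fin m))).filter (fun B => B.card ≤ r)).card ≤ (m + 1) ^ r := by
  classical
  refine le_trans ?_ (sum_choose_le m r)
  have : (univ : Finset (Finset (Fin m))).filter (fun B => B.card ≤ r) ⊆
      (range (r + 1)).biUnion (fun k => powersetCard k (univ : Finset (Fin m))) := by
    intro B hB
    rw [mem_filter] at hB
    rw [mem_biUnion]
    exact ⟨B.card, mem_range.mpr (by omega), mem_powersetCard.mpr ⟨subset_univ _, rfl⟩⟩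
  refine (card_le_card this).trans (card_biUnion_le.trans ?_)
  refine sum_le_sum fun k _ => ?_
  rw [card_powersetCard]
  simp

theorem card_bad (G : SimpleGraph V) [DecidableRel G.Adj] [Nonempty V] (r : ℕ)
    (hr : (G.adjMatrix ℝ).rank ≤ r) (m k L : ℕ)
    (hI : ∀ I, Indep G I → I.card * L ≤ Fintype.card V) (hL : 2 * m ≤ L)
    (hk : 2 * (m + 1) ^ r ≤ 2 ^ k) :
    2 * (bad G m (r + k)).card ≤ Fintype.card V ^ m := by
  classical
  set SB := (univ : Finset (Finset (Fin m))).filter (fun B => B.card ≤ r) with hSB
  set SJ := powersetCard k (univ : Finset (Fin m)) with hSJ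
  have hcov : bad G m (r + k) ⊆ SB.biUnion (fun B =>
      (SJ.filter (fun J => Disjoint B J)).biUnion (fun J => samp G m B J)) := by
    intro u hu
    rw [mem_bad] at hu
    obtain ⟨J, hJc, hJ⟩ := hu
    obtain ⟨B, hBJ, hBr, hB⟩ := exists_gen G r hr u J hJ
    have h1 : k ≤ (J \ B).card := by
      have := le_card_sdiff B J
      omega
    obtain ⟨J', hJ', hJ'c⟩ := exists_subset_card_eq h1
    rw [mem_biUnion]
    refine ⟨B, mem_filter.mpr ⟨mem_univ _, hBr⟩, ?_⟩
    rw [mem_biUnion]
    refine ⟨J', mem_filter.mpr ⟨mem_powersetCard.mpr ⟨subset_univ _, hJ'c⟩, ?_⟩, ?_⟩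
    · rw [Finset.disjoint_left]
      intro x hx hx'
      exact (mem_sdiff.mp (hJ' hx')).2 hx
    · rw [mem_samp]
      exact fun j hj => hB j (mem_sdiff.mp (hJ' hj)).1
  have hone : ∀ B ∈ SB, ∀ J ∈ SJ.filter (fun J => Disjoint B J),
      (samp G m B J).card * L ^ k ≤ Fintype.card V ^ m := by
    intro B _ J hJ
    rw [mem_filter] at hJ
    have h1 := card_samp G m L hI B J hJ.2
    rwa [(mem_powersetCard.mp hJ.1).2] at h1
  have h1 : (bad G m (r + k)).card * L ^ k ≤ (m + 1) ^ r * (m ^ k * Fintype.card V ^ m) := by
    calc (bad G m (r + k)).card * L ^ k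
        ≤ (∑ B ∈ SB, ∑ J ∈ SJ.filter (fun J => Disjoint B J), (samp G m B J).card) * L ^ k := by
          apply Nat.mul_le_mul_right
          refine (card_le_card hcov).trans (card_biUnion_le.trans ?_)
          exact sum_le_sum fun B _ => card_biUnion_le
      _ = ∑ B ∈ SB, ∑ J ∈ SJ.filter (fun J => Disjoint B J), (samp G m B J).card * L ^ k := by
          rw [sum_mul]
          exact sum_congr rfl fun B _ => sum_mul _ _ _
      _ ≤ ∑ B ∈ SB, ∑ _J ∈ SJ.filter (fun J => Disjoint B J), Fintype.card V ^ m :=
          sum_le_sum fun B hB => sum_le_sum fun J hJ => hone B hB J hJ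
      _ ≤ ∑ _B ∈ SB, m ^ k * Fintype.card V ^ m := by
          refine sum_le_sum fun B _ => ?_
          rw [sum_const, smul_eq_mul]
          apply Nat.mul_le_mul_right
          refine (card_filter_le _ _).trans ?_
          rw [hSJ, card_powersetCard, card_univ, Fintype.card_fin]
          exact Nat.choose_le_pow m k
      _ ≤ (m + 1) ^ r * (m ^ k * Fintype.card V ^ m) := by
          rw [sum_const, smul_eq_mul]
          exact Nat.mul_le_mul_right _ (card_small_sets m r)
  by_cases hm : m = 0
  · subst hm
    have hLk : 0 < k := by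
      rcases Nat.eq_zero_or_pos k with h | h
      · subst h
        simp at hk
      · exact h
    have : bad G 0 (r + k) = ∅ := by
      rw [Finset.eq_empty_iff_forall_notMem]
      intro u hu
      rw [mem_bad] at hu
      obtain ⟨J, hJ, _⟩ := hu
      have : J.card ≤ 0 := (card_le_univ J).trans (by simp)
      omega
    rw [this]
    simp
  · have hm0 : 0 < m := Nat.pos_of_ne_zero hm
    have h2 : 2 ^ k * m ^ k ≤ L ^ k := by
      rw [← mul_pow]
      exact Nat.pow_le_pow_left hL k
    have h3 : 2 * (m + 1) ^ r * m ^ k ≤ L ^ k := (Nat.mul_le_mul_right _ hk).trans h2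
    have h4 : 0 < (m + 1) ^ r * m ^ k := by positivity
    have h5 : ((m + 1) ^ r * m ^ k) * (2 * (bad G m (r + k)).card) ≤
        ((m + 1) ^ r * m ^ k) * Fintype.card V ^ m := by
      calc ((m + 1) ^ r * m ^ k) * (2 * (bad G m (r + k)).card)
          = (bad G m (r + k)).card * (2 * (m + 1) ^ r * m ^ k) := by ring
        _ ≤ (bad G m (r + k)).card * L ^ k := Nat.mul_le_mul_left _ h3
        _ ≤ (m + 1) ^ r * (m ^ k * Fintype.card V ^ m) := h1
        _ = _ := by ring
    exact Nat.le_of_mul_le_mul_left h5 h4

end Pool.TH815.LS
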