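import Pool.Agent.TH815.LS1

/-!
# Omitting an induced subgraph and omitting almost all its copies
-/

set_option autoImplicit false
set_option linter.unusedSectionVars false

namespace Pool.TH815.LS

open Finset Matrix Pool.TH815.LR

/-- Graphs of rank at most `r` without induced `H` have independent sets of relative size
`r ^ (-c)`. -/
def PH {ι : Type} (H : SimpleGraph ι) (c : ℕ) : Prop :=
  ∀ (V : Type) [Fintype V] [DecidableEq V] (G : SimpleGraph V) [DecidableRel G.Adj] (r : ℕ),
    2 ≤ r → (G.adjMatrix ℝ).rank ≤ r → IsEmpty (H ↪g G) →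
      ∃ I : Finset V, Indep G I ∧ Fintype.card V ≤ r ^ c * I.card

open Classical in
/-- The maps that preserve adjacency and non-adjacency. -/
noncomputable def wk {ι V : Type} [Fintype ι] [Fintype V] (H : SimpleGraph ι)
    (G : SimpleGraph V) : Finset (ι → V) :=
  univ.filter (fun φ => ∀ i j, G.Adj (φ i) (φ j) ↔ H.Adj i j)

theorem mem_wk {ι V : Type} [Fintype ι] [Fintype V] (H : SimpleGraph ι)
    (G : SimpleGraph V) (φ : ι → V) :
    φ ∈ wk H G ↔ ∀ i j, G.Adj (φ i) (φ j) ↔ H.Adj i j := by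
  unfold wk
  simp

/-- Graphs of rank at most `r` without large independent sets have many copies of `H`. -/
def Ab {ι : Type} [Fintype ι] (H : SimpleGraph ι) (c : ℕ) : Prop :=
  ∀ (V : Type) [Fintype V] [DecidableEq V] (G : SimpleGraph V) [DecidableRel G.Adj] (r : ℕ),
    2 ≤ r → (G.adjMatrix ℝ).rank ≤ r →
      (∀ I : Finset V, Indep G I → r ^ c * I.card < Fintype.card V) →
      Fintype.card V ^ Fintype.card ι ≤ r ^ c * (wk H G).card

theorem rank_comap {V U : Type} [Fintype V] [DecidableEq V] [Fintype U] [DecidableEq U]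
    (G : SimpleGraph V) [DecidableRel G.Adj] (u : U → V) [DecidableRel (G.comap u).Adj] (r : ℕ)
    (hr : (G.adjMatrix ℝ).rank ≤ r) : ((G.comap u).adjMatrix ℝ).rank ≤ r := by
  have : (G.comap u).adjMatrix ℝ = (G.adjMatrix ℝ).submatrix u u := by
    ext a b
    simp only [SimpleGraph.adjMatrix_apply, Matrix.submatrix_apply, SimpleGraph.comap_adj]
  rw [this]
  exact (Matrix.rank_submatrix_le _ _ _).trans hr

theorem param1 (c r : ℕ) (hr : 2 ≤ r) :
    2 * (r ^ c * (r + r * (4 * (c + 2) * r)) + 1) ≤ 2 ^ (4 * (c + 2) * r) := by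
  have h1 : r ≤ 2 ^ r := Nat.lt_two_pow_self.le
  have h2 : r ^ (c + 1) ≤ 2 ^ (r * (c + 1)) := by
    rw [pow_mul]; exact Nat.pow_le_pow_left h1 _
  have h3 : ∀ x : ℕ, 3 ≤ x → 1 + 2 * x ≤ 2 ^ x := by
    intro x hx
    induction x, hx using Nat.le_induction with
    | base => norm_num
    | succ x hx ih => rw [pow_succ]; omega
  have h4 : 1 + 2 * (2 * (c + 2) * r) ≤ 2 ^ (2 * (c + 2) * r) := by
    apply h3
    nlinarith
  have h5 : r ^ c * (r + r * (4 * (c + 2) * r)) = r ^ (c + 1) * (1 + 2 * (2 * (c + 2) * r)) := by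
    ring
  have h6 : r ^ c * (r + r * (4 * (c + 2) * r)) ≤ 2 ^ (r * (c + 1) + 2 * (c + 2) * r) := by
    rw [h5]
    calc _ ≤ 2 ^ (r * (c + 1)) * 2 ^ (2 * (c + 2) * r) := Nat.mul_le_mul h2 h4
      _ = _ := (pow_add _ _ _).symm
  have h7 : 4 * (c + 2) * r = (r * (c + 1) + 2 * (c + 2) * r) + (c + 3) * r := by ring
  have h8 : 2 ≤ (c + 3) * r := by nlinarith
  have h9 : 2 ^ 2 ≤ 2 ^ ((c + 3) * r) := Nat.pow_le_pow_right (by norm_num) h8
  rw [h7, pow_add]
  have h10 : 1 ≤ 2 ^ (r * (c + 1) + 2 * (c + 2) * r) := Nat.one_le_two_pow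
  nlinarith

theorem param2 (c r : ℕ) (hr : 2 ≤ r) :
    r ^ c * (r + r * (4 * (c + 2) * r)) ≤ r ^ (2 * c + 6) := by
  have h1 : 4 * c + 9 ≤ 2 ^ (c + 4) := by
    induction c with
    | zero => norm_num
    | succ c ih =>
      have : 2 ^ (c + 1 + 4) = 2 * 2 ^ (c + 4) := by ring
      omega
  have h2 : 2 ^ (c + 4) ≤ r ^ (c + 4) := Nat.pow_le_pow_left hr _
  have h3 : 1 + 4 * (c + 2) * r ≤ r ^ (c + 4) * r := by
    calc 1 + 4 * (c + 2) * r ≤ (4 * c + 9) * r := by nlinarith
      _ ≤ r ^ (c + 4) * r := Nat.mul_le_mul_right _ (h1.trans h2)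
  calc r ^ c * (r + r * (4 * (c + 2) * r)) = r ^ (c + 1) * (1 + 4 * (c + 2) * r) := by ring
    _ ≤ r ^ (c + 1) * (r ^ (c + 4) * r) := Nat.mul_le_mul_left _ h3
    _ = r ^ (2 * c + 6) := by ring

/-- Counting the samples that contain a given copy. -/
theorem card_through {ι V : Type} [Fintype ι] [DecidableEq ι] [Fintype V] [DecidableEq V]
    (H : SimpleGraph ι) (G : SimpleGraph V) (m : ℕ) (ψ : ι ↪ Fin m)
    (S : Finset (Fin m → V)) (hS : ∀ u ∈ S, (fun i => u (ψ i)) ∈ wk H G) :
    S.card ≤ (wk H G).card * Fintype.card V ^ (m - Fintype.card ι) := by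
  classical
  have h1 : Fintype.card {j : Fin m // j ∉ Set.range ψ} = m - Fintype.card ι := by
    rw [Fintype.card_subtype_compl]
    have : Fintype.card {j : Fin m // j ∈ Set.range ψ} = Fintype.card ι := by
      rw [← Set.card_range_of_injective ψ.injective]
    rw [Fintype.card_fin, this]
  have h2 : (univ : Finset ({j : Fin m // j ∉ Set.range ψ} → V)).card
      = Fintype.card V ^ (m - Fintype.card ι) := by
    rw [card_univ, Fintype.card_fun, h1]
  rw [← h2, ← card_product]
  apply card_le_card_of_injOn (fun u => ((fun i => u (ψ i)), (fun j => u j.1)))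
  · intro u hu
    rw [mem_coe, mem_product]
    exact ⟨hS u (mem_coe.mp hu), mem_univ _⟩
  · intro u _ u' _ heq
    rw [Prod.mk.injEq] at heq
    funext j
    by_cases hj : j ∈ Set.range ψ
    · obtain ⟨i, rfl⟩ := hj
      exact congrFun heq.1 i
    · exact congrFun heq.2 ⟨j, hj⟩

theorem ab_of_ph {ι : Type} [Fintype ι] (H : SimpleGraph ι) (c : ℕ) (hP : PH H c) :
    Ab H (1 + (2 * c + 6) * (Fintype.card ι + 1)) := by
  classical
  intro V _ _ G _ r hr2 hr hI
  set h := Fintype.card ι with hh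
  set c' := 1 + (2 * c + 6) * (h + 1) with hc'
  set n := Fintype.card V with hn
  have hn0 : 0 < n := by
    have := hI ∅ (by intro u hu; simp at hu)
    simpa using this
  have : Nonempty V := Fintype.card_pos_iff.mp hn0
  set t := 4 * (c + 2) * r with ht
  set k := r * t with hk
  set m := r ^ c * (r + k) with hm
  have hm1 : m ≤ r ^ (2 * c + 6) := param2 c r hr2
  have hr0 : 0 < r := by omega
  have hL : 2 * m ≤ r ^ c' := by
    calc 2 * m ≤ r * r ^ (2 * c + 6) := Nat.mul_le_mul hr2 hm1
      _ = r ^ (1 + (2 * c + 6)) := by ring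
      _ ≤ r ^ c' := Nat.pow_le_pow_right hr0 (by rw [hc']; nlinarith)
  have hbad := card_bad G r hr m k (r ^ c') (by
    intro I hInd
    rw [mul_comm]
    exact (hI I hInd).le) hL (by
    have h1 := param1 c r hr2
    calc 2 * (m + 1) ^ r ≤ 2 ^ r * (m + 1) ^ r := by
          apply Nat.mul_le_mul_right
          calc 2 = 2 ^ 1 := (pow_one 2).symm
            _ ≤ 2 ^ r := Nat.pow_le_pow_right (by norm_num) (by omega)
      _ = (2 * (m + 1)) ^ r := (mul_pow _ _ _).symm
      _ ≤ (2 ^ t) ^ r := Nat.pow_le_pow_left h1 r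
      _ = 2 ^ k := by rw [← pow_mul, hk, mul_comm])
  -- every sample that is not bad contains a copy
  set T : (ι ↪ Fin m) → Finset (Fin m → V) := fun ψ =>
    univ.filter (fun u => (fun i => u (ψ i)) ∈ wk H G) with hT
  have hcov : (univ : Finset (Fin m → V)) ⊆ bad G m (r + k) ∪
      (univ : Finset (ι ↪ Fin m)).biUnion T := by
    intro u _
    rw [mem_union]
    by_cases hb : u ∈ bad G m (r + k)
    · exact Or.inl hb
    · right
      have hne : ¬ IsEmpty (H ↪g G.comap u) := by
        intro hemp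
        obtain ⟨J, hJ, hJc⟩ := hP (Fin m) (G.comap u) r hr2 (rank_comap G u r hr) hemp
        rw [Fintype.card_fin] at hJc
        have h2 : r + k ≤ J.card := by
          have h3 : r ^ c * (r + k) ≤ r ^ c * J.card := hJc
          exact Nat.le_of_mul_le_mul_left h3 (by positivity)
        obtain ⟨J', hJ', hJ'c⟩ := exists_subset_card_eq h2
        apply hb
        rw [mem_bad]
        exact ⟨J', hJ'c, fun i hi j hj => hJ i (hJ' hi) j (hJ' hj)⟩
      rw [not_isEmpty_iff] at hne
      obtain ⟨ψ⟩ := hne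
      rw [mem_biUnion]
      refine ⟨ψ.toEmbedding, mem_univ _, ?_⟩
      rw [hT, mem_filter]
      refine ⟨mem_univ _, ?_⟩
      rw [mem_wk]
      intro i j
      exact ψ.map_rel_iff
  have h1 : n ^ m ≤ (bad G m (r + k)).card +
      Fintype.card (ι ↪ Fin m) * ((wk H G).card * n ^ (m - h)) := by
    calc n ^ m = (univ : Finset (Fin m → V)).card := by
          rw [card_univ, Fintype.card_fun, Fintype.card_fin]
      _ ≤ _ := card_le_card hcov
      _ ≤ _ := card_union_le _ _
      _ ≤ _ := by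
          apply Nat.add_le_add_left
          refine card_biUnion_le.trans ?_
          rw [← card_univ, ← smul_eq_mul, ← sum_const]
          refine sum_le_sum fun ψ _ => ?_
          exact card_through H G m ψ (T ψ) (fun u hu => by
            rw [hT, mem_filter] at hu; exact hu.2)
  have hbad' : 2 * (bad G m (r + k)).card ≤ n ^ m := hbad
  have h2 : n ^ m ≤ 2 * (Fintype.card (ι ↪ Fin m) * ((wk H G).card * n ^ (m - h))) := by
    omega
  have h3 : Fintype.card (ι ↪ Fin m) ≤ m ^ h := by
    rw [Fintype.card_embedding_eq, Fintype.card_fin]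
    exact Nat.descFactorial_le_pow _ _
  have hmh : h ≤ m := by
    by_contra hlt
    have : IsEmpty (ι ↪ Fin m) := by
      constructor
      intro ψ
      have := Fintype.card_le_of_embedding ψ
      rw [Fintype.card_fin] at this
      omega
    rw [Fintype.card_eq_zero] at h2
    have : 0 < n ^ m := by positivity
    omega
  have h4 : n ^ h * n ^ (m - h) ≤ (2 * m ^ h * (wk H G).card) * n ^ (m - h) := by
    calc n ^ h * n ^ (m - h) = n ^ m := by rw [← pow_add]; congr 1; omega
      _ ≤ _ := h2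
      _ ≤ 2 * (m ^ h * ((wk H G).card * n ^ (m - h))) :=
          Nat.mul_le_mul_left _ (Nat.mul_le_mul_right _ h3)
      _ = _ := by ring
  have h5 : n ^ h ≤ 2 * m ^ h * (wk H G).card :=
    Nat.le_of_mul_le_mul_right h4 (by positivity)
  refine h5.trans (Nat.mul_le_mul_right _ ?_)
  calc 2 * m ^ h ≤ r * (r ^ (2 * c + 6)) ^ h :=
        Nat.mul_le_mul hr2 (Nat.pow_le_pow_left hm1 h)
    _ = r ^ (1 + (2 * c + 6) * h) := by rw [← pow_mul]; ring
    _ ≤ r ^ c' := Nat.pow_le_pow_right hr0 (by rw [hc']; nlinarith)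

theorem ph_of_ab {ι : Type} [Fintype ι] (H : SimpleGraph ι) (c : ℕ) (hA : Ab H c) :
    PH H (c + 2 * Fintype.card ι) := by
  classical
  intro V _ _ G _ r hr2 hr hemp
  by_contra hcon
  push Not at hcon
  set h := Fintype.card ι with hh
  set n := Fintype.card V with hn
  have hr0 : 0 < r := by omega
  have hI : ∀ I : Finset V, Indep G I → r ^ c * I.card < n := by
    intro I hInd
    refine lt_of_le_of_lt ?_ (hcon I hInd)
    exact Nat.mul_le_mul_right _ (Nat.pow_le_pow_right hr0 (by omega))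
  have h1 : n ^ h ≤ r ^ c * (wk H G).card := hA V G r hr2 hr hI
  have hn0 : 0 < n := by
    have := hI ∅ (by intro u hu; simp at hu)
    simpa using this
  have : Nonempty V := Fintype.card_pos_iff.mp hn0
  have hsub : wk H G ⊆ (univ : Finset (ι × ι)).biUnion (fun p =>
      (univ : Finset (ι → V)).filter (fun φ => p.1 ≠ p.2 ∧ φ p.1 = φ p.2)) := by
    intro φ hφ
    rw [mem_wk] at hφ
    have hni : ¬ Function.Injective φ := by
      intro hinj
      exact hemp.false ⟨⟨φ, hinj⟩, fun {a b} => hφ a b⟩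
    unfold Function.Injective at hni
    push Not at hni
    obtain ⟨a, b, hab, hne⟩ := hni
    rw [mem_biUnion]
    exact ⟨(a, b), mem_univ _, mem_filter.mpr ⟨mem_univ _, hne, hab⟩⟩
  have hone : ∀ p : ι × ι, ((univ : Finset (ι → V)).filter
      (fun φ => p.1 ≠ p.2 ∧ φ p.1 = φ p.2)).card ≤ n ^ (h - 1) := by
    intro p
    by_cases hp : p.1 = p.2
    · rw [filter_eq_empty_iff.mpr]
      · simp
      · intro φ _ hφ
        exact hφ.1 hp
    · have hc : Fintype.card {x : ι // x ≠ p.2} = h - 1 := by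
        rw [Fintype.card_subtype_compl, Fintype.card_subtype_eq]
      have hc2 : (univ : Finset ({x : ι // x ≠ p.2} → V)).card = n ^ (h - 1) := by
        rw [card_univ, Fintype.card_fun, hc]
      rw [← hc2]
      apply card_le_card_of_injOn (fun φ => fun x => φ x.1)
      · intro φ _
        exact mem_coe.mpr (mem_univ _)
      · intro φ hφ φ' hφ' heq
        rw [mem_coe, mem_filter] at hφ hφ'
        funext x
        by_cases hx : x = p.2
        · rw [hx, ← hφ.2.2, ← hφ'.2.2]
          exact congrFun heq ⟨p.1, hp⟩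
        · exact congrFun heq ⟨x, hx⟩
  have h2 : (wk H G).card ≤ h * h * n ^ (h - 1) := by
    calc (wk H G).card ≤ _ := card_le_card hsub
      _ ≤ ∑ _p : ι × ι, n ^ (h - 1) := card_biUnion_le.trans (sum_le_sum fun p _ => hone p)
      _ = h * h * n ^ (h - 1) := by
          rw [sum_const, smul_eq_mul, card_univ, Fintype.card_prod]
  obtain ⟨v⟩ := this
  have h3 : r ^ (c + 2 * h) < n := by
    have := hcon {v} (by
      intro a ha b hb
      rw [mem_singleton] at ha hb
      rw [ha, hb]
      exact G.loopless.irrefl _)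
    simpa using this
  rcases Nat.eq_zero_or_pos h with h0 | hpos
  · rw [h0] at h1 h2
    simp only [pow_zero, zero_mul, Nat.zero_sub, mul_one, nonpos_iff_eq_zero] at h1 h2
    rw [h2] at h1
    omega
  · have h4 : n * n ^ (h - 1) ≤ (r ^ c * (h * h)) * n ^ (h - 1) := by
      calc n * n ^ (h - 1) = n ^ h := by rw [← pow_succ']; congr 1; omega
        _ ≤ r ^ c * (wk H G).card := h1
        _ ≤ r ^ c * (h * h * n ^ (h - 1)) := Nat.mul_le_mul_left _ h2
        _ = _ := by ring
    have h5 : n ≤ r ^ c * (h * h) := Nat.le_of_mul_le_mul_right h4 (by positivity)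
    have h6 : h ≤ r ^ h := (Nat.lt_two_pow_self (n := h)).le.trans (Nat.pow_le_pow_left hr2 h)
    have h7 : r ^ c * (h * h) ≤ r ^ (c + 2 * h) := by
      calc r ^ c * (h * h) ≤ r ^ c * (r ^ h * r ^ h) :=
            Nat.mul_le_mul_left _ (Nat.mul_le_mul h6 h6)
        _ = r ^ (c + 2 * h) := by ring
    omega

end Pool.TH815.LS
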