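import Pool.Agent.TH815.LS2

/-!
# Replacing a vertex of the omitted graph
-/

set_option autoImplicit false
set_option linter.unusedSectionVars false

namespace Pool.TH815.LS

open Finset Matrix Pool.TH815.LR

/-- The graph `H` with the vertex `v` replaced by the graph `F`. -/
def repl {ι κ : Type} (H : SimpleGraph ι) (v : ι) (F : SimpleGraph κ) :
    SimpleGraph ({i : ι // i ≠ v} ⊕ κ) where
  Adj x y := match x, y with
    | .inl i, .inl j => H.Adj i j
    | .inl i, .inr _ => H.Adj i v
    | .inr _, .inl j => H.Adj v j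
    | .inr a, .inr b => F.Adj a b
  symm := ⟨by
    rintro (i | a) (j | b) h
    · exact H.symm.symm _ _ h
    · exact H.symm.symm _ _ h
    · exact H.symm.symm _ _ h
    · exact F.symm.symm _ _ h⟩
  loopless := ⟨by
    rintro (i | a) h
    · exact H.loopless.irrefl _ h
    · exact F.loopless.irrefl _ h⟩

theorem ab_repl {ι κ : Type} [Fintype ι] [Fintype κ] [Nonempty κ] [DecidableEq ι]
    (H : SimpleGraph ι) (v : ι) (F : SimpleGraph κ) (c₁ c₂ : ℕ) (h1 : Ab H c₁) (h2 : Ab F c₂) :
    Ab (repl H v F) (Fintype.card κ * (c₁ + 1) + c₂) := by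
  classical
  intro V _ _ G _ r hr2 hr hI
  set f := Fintype.card κ with hf
  set n := Fintype.card V with hn
  set C := f * (c₁ + 1) + c₂ with hC
  have hf1 : 1 ≤ f := Fintype.card_pos
  have hr0 : 0 < r := by omega
  have hn0 : 0 < n := by
    have := hI ∅ (by intro u hu; simp at hu)
    simpa using this
  have hC1 : c₁ + 1 + c₂ ≤ C := by
    rw [hC]; nlinarith
  -- copies of `H` without `v`
  set H' : SimpleGraph {i : ι // i ≠ v} := H.comap (fun i => (i : ι)) with hH'
  set S := wk H' G with hS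
  set Z : ({i : ι // i ≠ v} → V) → Finset V := fun φ =>
    univ.filter (fun w => ∀ i : {i : ι // i ≠ v}, G.Adj (φ i) w ↔ H.Adj i v) with hZ
  have hhc : Fintype.card {i : ι // i ≠ v} + 1 = Fintype.card ι := by
    rw [Fintype.card_subtype_compl, Fintype.card_subtype_eq]
    have : 0 < Fintype.card ι := Fintype.card_pos_iff.mpr ⟨v⟩
    omega
  set h' := Fintype.card {i : ι // i ≠ v} with hh'
  have hmany : n ^ (h' + 1) ≤ r ^ c₁ * (wk H G).card := by
    rw [hhc]
    refine h1 V G r hr2 hr fun I hInd => ?_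
    refine lt_of_le_of_lt ?_ (hI I hInd)
    exact Nat.mul_le_mul_right _ (Nat.pow_le_pow_right hr0 (by omega))
  have hsum : (wk H G).card ≤ ∑ φ ∈ S, (Z φ).card := by
    rw [← card_sigma]
    apply card_le_card_of_injOn
      (fun Φ : ι → V => (⟨fun i => Φ i, Φ v⟩ : Σ _ : ({i : ι // i ≠ v} → V), V))
    · intro Φ hΦ
      rw [mem_coe, mem_wk] at hΦ
      rw [mem_coe, mem_sigma]
      refine ⟨?_, ?_⟩
      · rw [hS, mem_wk]
        intro i j
        exact hΦ i j
      · rw [hZ, mem_filter]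
        exact ⟨mem_univ _, fun i => hΦ i v⟩
    · intro Φ _ Φ' _ heq
      simp only [Sigma.mk.injEq, heq_eq_eq] at heq
      funext i
      by_cases hi : i = v
      · rw [hi]; exact heq.2
      · exact congrFun heq.1 ⟨i, hi⟩
  set R := r ^ c₁ with hR
  have hR0 : 0 < R := by positivity
  -- copies of `H'` with many extensions
  set good := S.filter (fun φ => n ≤ 2 * R * (Z φ).card) with hgood
  have hScard : S.card ≤ n ^ h' := by
    refine (card_le_univ _).trans ?_
    rw [Fintype.card_fun]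
  have hsplit : n ^ (h' + 1) ≤ 2 * R * ∑ φ ∈ good, (Z φ).card := by
    have e1 : ∑ φ ∈ S, (Z φ).card = ∑ φ ∈ good, (Z φ).card +
        ∑ φ ∈ S.filter (fun φ => ¬ n ≤ 2 * R * (Z φ).card), (Z φ).card :=
      (sum_filter_add_sum_filter_not _ _ _).symm
    have e2 : 2 * R * ∑ φ ∈ S.filter (fun φ => ¬ n ≤ 2 * R * (Z φ).card), (Z φ).card
        ≤ n ^ (h' + 1) := by
      rw [mul_sum]
      calc ∑ φ ∈ S.filter (fun φ => ¬ n ≤ 2 * R * (Z φ).card), 2 * R * (Z φ).card
          ≤ ∑ _φ ∈ S.filter (fun φ => ¬ n ≤ 2 * R * (Z φ).card), n := by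
            refine sum_le_sum fun φ hφ => ?_
            rw [mem_filter] at hφ
            omega
        _ = (S.filter (fun φ => ¬ n ≤ 2 * R * (Z φ).card)).card * n := by
            rw [sum_const, smul_eq_mul]
        _ ≤ n ^ h' * n := Nat.mul_le_mul_right _ ((card_filter_le _ _).trans hScard)
        _ = n ^ (h' + 1) := (pow_succ _ _).symm
    have e3 : n ^ (h' + 1) ≤ R * ∑ φ ∈ S, (Z φ).card :=
      hmany.trans (Nat.mul_le_mul_left _ hsum)
    rw [e1] at e3
    nlinarith
  -- copies of `F` in the sets of extensions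
  set N : ({i : ι // i ≠ v} → V) → Finset (κ → V) := fun φ =>
    univ.filter (fun ψ => (∀ a, ψ a ∈ Z φ) ∧ ∀ a b, G.Adj (ψ a) (ψ b) ↔ F.Adj a b) with hN
  have hgoodN : ∀ φ ∈ good, n ^ (f - 1) * (Z φ).card ≤ (2 * R) ^ (f - 1) * (r ^ c₂ * (N φ).card) := by
    intro φ hφ
    rw [hgood, mem_filter] at hφ
    have hZn := hφ.2
    have hF : (Z φ).card ^ f ≤ r ^ c₂ * (N φ).card := by
      have e4 := h2 (Z φ) (G.comap (fun z : Z φ => (z : V))) r hr2
        (rank_comap G (fun z : Z φ => (z : V)) r hr) (by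
        intro I hInd
        have hInd' : Indep G (I.map (Function.Embedding.subtype _)) := by
          intro a ha b hb
          rw [mem_map] at ha hb
          obtain ⟨a', ha', rfl⟩ := ha
          obtain ⟨b', hb', rfl⟩ := hb
          exact hInd a' ha' b' hb'
        have e5 := hI _ hInd'
        rw [card_map] at e5
        rw [Fintype.card_coe]
        -- `r ^ C |I| < n ≤ 2 R |Z|`
        have e6 : r ^ C * I.card < 2 * R * (Z φ).card := lt_of_lt_of_le e5 hZn
        have e7 : 2 * R * (r ^ c₂ * I.card) ≤ r ^ C * I.card := by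
          rw [← mul_assoc]
          apply Nat.mul_le_mul_right
          calc 2 * R * r ^ c₂ ≤ r * r ^ c₁ * r ^ c₂ :=
                Nat.mul_le_mul_right _ (Nat.mul_le_mul_right _ hr2)
            _ = r ^ (c₁ + 1 + c₂) := by ring
            _ ≤ r ^ C := Nat.pow_le_pow_right hr0 hC1
        have e8 : 2 * R * (r ^ c₂ * I.card) < 2 * R * (Z φ).card := lt_of_le_of_lt e7 e6
        exact lt_of_mul_lt_mul_left e8 (Nat.zero_le _))
      rw [Fintype.card_coe] at e4
      refine e4.trans (Nat.mul_le_mul_left _ ?_)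
      apply card_le_card_of_injOn (fun ψ : κ → Z φ => fun a => (ψ a : V))
      · intro ψ hψ
        rw [mem_coe, mem_wk] at hψ
        rw [mem_coe, hN, mem_filter]
        exact ⟨mem_univ _, fun a => (ψ a).2, fun a b => hψ a b⟩
      · intro ψ _ ψ' _ heq
        funext a
        exact Subtype.ext (congrFun heq a)
    have e9 : n ^ (f - 1) ≤ (2 * R) ^ (f - 1) * (Z φ).card ^ (f - 1) := by
      rw [← mul_pow]
      exact Nat.pow_le_pow_left hZn _
    calc n ^ (f - 1) * (Z φ).card ≤ (2 * R) ^ (f - 1) * (Z φ).card ^ (f - 1) * (Z φ).card :=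
          Nat.mul_le_mul_right _ e9
      _ = (2 * R) ^ (f - 1) * (Z φ).card ^ f := by
          rw [mul_assoc, ← pow_succ]
          congr 2
          omega
      _ ≤ _ := Nat.mul_le_mul_left _ hF
  have hcount : ∑ φ ∈ good, (N φ).card ≤ (wk (repl H v F) G).card := by
    rw [← card_sigma]
    apply card_le_card_of_injOn
      (fun p : (Σ _ : ({i : ι // i ≠ v} → V), (κ → V)) => Sum.elim p.1 p.2)
    · rintro ⟨φ, ψ⟩ hp
      rw [mem_coe, mem_sigma] at hp
      obtain ⟨hφ, hψ⟩ := hp
      rw [hgood, mem_filter, hS, mem_wk] at hφ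
      rw [hN, mem_filter] at hψ
      have hZψ : ∀ a, ∀ i : {i : ι // i ≠ v}, G.Adj (φ i) (ψ a) ↔ H.Adj i v := by
        intro a
        have := hψ.2.1 a
        rw [hZ, mem_filter] at this
        exact this.2
      rw [mem_coe, mem_wk]
      rintro (i | a) (j | b)
      · exact hφ.1 i j
      · exact hZψ b i
      · show G.Adj (ψ a) (φ j) ↔ H.Adj v j
        rw [G.adj_comm, H.adj_comm]
        exact hZψ a j
      · exact hψ.2.2 a b
    · rintro ⟨φ, ψ⟩ _ ⟨φ', ψ'⟩ _ heq
      simp only at heq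
      have e1 : φ = φ' := by
        funext i
        exact congrFun heq (Sum.inl i)
      have e2 : ψ = ψ' := by
        funext a
        exact congrFun heq (Sum.inr a)
      rw [e1, e2]
  -- conclusion
  have hcard : Fintype.card ({i : ι // i ≠ v} ⊕ κ) = h' + f := by
    rw [Fintype.card_sum]
  rw [hcard]
  have e10 : n ^ (h' + f) = n ^ (f - 1) * n ^ (h' + 1) := by
    rw [← pow_add]; congr 1; omega
  rw [e10]
  calc n ^ (f - 1) * n ^ (h' + 1) ≤ n ^ (f - 1) * (2 * R * ∑ φ ∈ good, (Z φ).card) :=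
        Nat.mul_le_mul_left _ hsplit
    _ = 2 * R * ∑ φ ∈ good, n ^ (f - 1) * (Z φ).card := by
        rw [← mul_sum]; ring
    _ ≤ 2 * R * ∑ φ ∈ good, (2 * R) ^ (f - 1) * (r ^ c₂ * (N φ).card) :=
        Nat.mul_le_mul_left _ (sum_le_sum hgoodN)
    _ = (2 * R * (2 * R) ^ (f - 1)) * r ^ c₂ * ∑ φ ∈ good, (N φ).card := by
        rw [← mul_sum, ← mul_sum]; ring
    _ = (2 * R) ^ f * r ^ c₂ * ∑ φ ∈ good, (N φ).card := by
        rw [← pow_succ']
        congr 3
        omega
    _ ≤ (r ^ (c₁ + 1)) ^ f * r ^ c₂ * (wk (repl H v F) G).card := by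
        apply Nat.mul_le_mul _ hcount
        apply Nat.mul_le_mul_right
        apply Nat.pow_le_pow_left
        rw [pow_succ']
        exact Nat.mul_le_mul_right _ hr2
    _ = r ^ C * (wk (repl H v F) G).card := by
        rw [← pow_mul, ← pow_add, hC, mul_comm f]

end Pool.TH815.LS
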