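import Pool.Agent.TH815.LS3

/-!
# Colouring, and the path with four vertices
-/

set_option autoImplicit false
set_option linter.unusedSectionVars false

namespace Pool.TH815.LS

open Finset Matrix Pool.TH815.LR

theorem ph_of_embedding {ι κ : Type} (H : SimpleGraph ι) (H' : SimpleGraph κ) (e : H ↪g H')
    (c : ℕ) (h : PH H' c) : PH H c := by
  intro V _ _ G _ r hr2 hr hemp
  apply h V G r hr2 hr
  constructor
  intro f
  exact hemp.false (e.trans f)

/-- Colouring a set of vertices. -/
def ColOn {V : Type} (G : SimpleGraph V) (W : Finset V) (q : ℕ) : Prop :=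
  ∃ f : V → ℕ, (∀ v ∈ W, f v < q) ∧ ∀ u ∈ W, ∀ v ∈ W, G.Adj u v → f u ≠ f v

theorem ColOn.mono {V : Type} {G : SimpleGraph V} {W : Finset V} {q q' : ℕ}
    (h : ColOn G W q) (hq : q ≤ q') : ColOn G W q' := by
  obtain ⟨f, h1, h2⟩ := h
  exact ⟨f, fun v hv => (h1 v hv).trans_le hq, h2⟩

section
variable {V : Type} [Fintype V] [DecidableEq V]

theorem ColOn.add {G : SimpleGraph V} {W I : Finset V} {q : ℕ} (hI : Indep G I)
    (h : ColOn G (W \ I) q) : ColOn G W (q + 1) := by
  classical
  obtain ⟨f, h1, h2⟩ := h
  refine ⟨fun v => if v ∈ I then q else f v, ?_, ?_⟩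
  · intro v hv
    by_cases hvI : v ∈ I
    · simp [hvI]
    · simp only [hvI, if_false]
      have := h1 v (mem_sdiff.mpr ⟨hv, hvI⟩)
      omega
  · intro u hu v hv huv
    by_cases huI : u ∈ I <;> by_cases hvI : v ∈ I
    · exact absurd huv (hI u huI v hvI)
    · simp only [huI, hvI, if_true, if_false]
      have := h1 v (mem_sdiff.mpr ⟨hv, hvI⟩)
      omega
    · simp only [huI, hvI, if_true, if_false]
      have := h1 u (mem_sdiff.mpr ⟨hu, huI⟩)
      omega
    · simp only [huI, hvI, if_false]
      exact h2 u (mem_sdiff.mpr ⟨hu, huI⟩) v (mem_sdiff.mpr ⟨hv, hvI⟩) huv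

/-- If all sets of vertices have large independent subsets, then few colours suffice. -/
theorem colOn_of_large (G : SimpleGraph V) (K : ℕ) (hK : 1 ≤ K)
    (h : ∀ W : Finset V, ∃ I ⊆ W, Indep G I ∧ W.card ≤ K * I.card) (m : ℕ) :
    ∀ W : Finset V, W.card < 2 ^ m → ColOn G W (K * m) := by
  induction m with
  | zero =>
    intro W hW
    have : W = ∅ := by
      rw [← card_eq_zero]
      simpa using hW
    refine ⟨fun _ => 0, ?_, ?_⟩
    · intro v hv; rw [this] at hv; simp at hv
    · intro v hv; rw [this] at hv; simp at hv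
  | succ m ih =>
    have key : ∀ j : ℕ, ∀ W : Finset V, K * W.card < K * 2 ^ m + j * 2 ^ m →
        ColOn G W (K * m + j) := by
      intro j
      induction j with
      | zero =>
        intro W hW
        rw [zero_mul, add_zero] at hW
        exact (ih W (lt_of_mul_lt_mul_left hW (Nat.zero_le _))).mono (by omega)
      | succ j ihj =>
        intro W hW
        by_cases hsmall : W.card < 2 ^ m
        · exact (ih W hsmall).mono (by omega)
        · push Not at hsmall
          obtain ⟨I, hIW, hI, hc⟩ := h W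
          have h1 : (W \ I).card + I.card = W.card := card_sdiff_add_card_eq_card hIW
          have h2 : ColOn G (W \ I) (K * m + j) := by
            apply ihj
            have : K * W.card = K * (W \ I).card + K * I.card := by rw [← h1]; ring
            have h3 : (j + 1) * 2 ^ m = j * 2 ^ m + 2 ^ m := by ring
            omega
          exact h2.add hI
    intro W hW
    have := key K W (by
      rw [pow_succ] at hW
      nlinarith)
    exact this.mono (by ring_nf; omega)

/-- Few rows determine all the columns. -/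
theorem exists_rows {X Y : Type*} [Fintype X] [Fintype Y] [DecidableEq X]
    (M : Matrix X Y ℝ) :
    ∃ B : Finset X, B.card ≤ M.rank ∧ ∀ y y', (∀ b ∈ B, M b y = M b y') → ∀ x, M x y = M x y' := by
  classical
  obtain ⟨b, hb, hspan, hli⟩ := exists_linearIndependent ℝ (Set.range M.row)
  have hfin : b.Finite := (Set.finite_range _).subset hb
  have : Fintype b := hfin.fintype
  choose pre hpre using fun v : b => hb v.2
  refine ⟨Finset.univ.image pre, ?_, ?_⟩
  · refine le_trans Finset.card_image_le ?_
    rw [Finset.card_univ, Matrix.rank_eq_finrank_span_row, ← hspan]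
    have h1 := finrank_span_set_eq_card (R := ℝ) (s := b) hli
    rw [h1, Set.toFinset_card]
  · intro y y' hy x
    have hmem : M.row x ∈ Submodule.span ℝ b := by
      rw [hspan]
      exact Submodule.subset_span ⟨x, rfl⟩
    have hall : ∀ v ∈ Submodule.span ℝ b, v y = v y' := by
      intro v hv
      induction hv using Submodule.span_induction with
      | mem v hv =>
        have h1 := hy (pre ⟨v, hv⟩) (Finset.mem_image_of_mem _ (mem_univ _))
        have h2 := hpre ⟨v, hv⟩
        simp only at h2
        rw [← h2]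
        exact h1
      | zero => rfl
      | add u v _ _ hu hv => rw [Pi.add_apply, Pi.add_apply, hu, hv]
      | smul c v _ hv => rw [Pi.smul_apply, Pi.smul_apply, hv]
    exact hall _ hmem

/-- Representatives of the classes of twins. -/
theorem exists_rep (G : SimpleGraph V) [DecidableRel G.Adj] (r : ℕ)
    (hr : (G.adjMatrix ℝ).rank ≤ r) :
    ∃ rep : V → V, (univ.image rep).card ≤ 2 ^ r ∧
      ∀ u v, G.Adj u v → G.Adj (rep u) (rep v) := by
  classical
  obtain ⟨B, hBc, hB⟩ := exists_rows (G.adjMatrix ℝ)
  by_cases hV : Nonempty V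
  · set g : V → Finset V := fun v => B.filter (fun b => G.Adj b v) with hg
    set s : Finset V → V := fun F => if h : ∃ w, g w = F then h.choose else Classical.choice hV
      with hs
    have hsg : ∀ v, g (s (g v)) = g v := by
      intro v
      have hex : ∃ w, g w = g v := ⟨v, rfl⟩
      simp only [hs]
      rw [dif_pos hex]
      exact hex.choose_spec
    refine ⟨fun v => s (g v), ?_, ?_⟩
    · have : univ.image (fun v => s (g v)) ⊆ (B.powerset).image s := by
        intro w hw
        rw [mem_image] at hw ⊢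
        obtain ⟨v, _, rfl⟩ := hw
        exact ⟨g v, mem_powerset.mpr (filter_subset _ _), rfl⟩
      refine (card_le_card this).trans (card_image_le.trans ?_)
      rw [card_powerset]
      exact Nat.pow_le_pow_right (by norm_num) (hBc.trans hr)
    · have hcol : ∀ v x, G.Adj x v ↔ G.Adj x (s (g v)) := by
        intro v x
        have h1 := hB v (s (g v)) (by
          intro b hb
          rw [SimpleGraph.adjMatrix_apply, SimpleGraph.adjMatrix_apply]
          have h2 : b ∈ g v ↔ b ∈ g (s (g v)) := by rw [hsg]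
          rw [hg] at h2
          simp only [mem_filter, hb, true_and] at h2
          by_cases h3 : G.Adj b v
          · rw [if_pos h3, if_pos (h2.mp h3)]
          · rw [if_neg h3, if_neg (fun h4 => h3 (h2.mpr h4))]) x
        rw [SimpleGraph.adjMatrix_apply, SimpleGraph.adjMatrix_apply] at h1
        by_cases h3 : G.Adj x v
        · rw [if_pos h3] at h1
          by_cases h4 : G.Adj x (s (g v))
          · exact ⟨fun _ => h4, fun _ => h3⟩
          · rw [if_neg h4] at h1
            exact absurd h1 one_ne_zero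
        · rw [if_neg h3] at h1
          by_cases h4 : G.Adj x (s (g v))
          · rw [if_pos h4] at h1
            exact absurd h1 zero_ne_one
          · exact ⟨fun h => absurd h h3, fun h => absurd h h4⟩
      intro u v huv
      have h1 : G.Adj u (s (g v)) := (hcol v u).mp huv
      exact ((hcol u (s (g v))).mp h1.symm).symm
  · refine ⟨id, ?_, fun u v h => h⟩
    have : IsEmpty V := not_nonempty_iff.mp hV
    simp

theorem colorable_of_ph {ι : Type} (H : SimpleGraph ι) (c : ℕ) (hP : PH H c)
    (G : SimpleGraph V) [DecidableRel G.Adj] (r : ℕ) (hr2 : 2 ≤ r)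
    (hr : (G.adjMatrix ℝ).rank ≤ r) (hemp : IsEmpty (H ↪g G)) : G.Colorable (r ^ (c + 2)) := by
  classical
  obtain ⟨rep, hrc, hrep⟩ := exists_rep G r hr
  have hr0 : 0 < r := by omega
  have hK : 1 ≤ r ^ c := Nat.one_le_pow _ _ hr0
  have hlarge : ∀ W : Finset V, ∃ I ⊆ W, Indep G I ∧ W.card ≤ r ^ c * I.card := by
    intro W
    obtain ⟨I, hI, hc⟩ := hP W (G.comap (fun w : W => (w : V))) r hr2
      (rank_comap G (fun w : W => (w : V)) r hr) ⟨fun f =>
        hemp.false (f.trans (SimpleGraph.Embedding.comap (Function.Embedding.subtype _) G))⟩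
    rw [Fintype.card_coe] at hc
    refine ⟨I.map (Function.Embedding.subtype _), ?_, ?_, ?_⟩
    · intro x hx
      rw [mem_map] at hx
      obtain ⟨y, _, rfl⟩ := hx
      exact y.2
    · intro a ha b hb
      rw [mem_map] at ha hb
      obtain ⟨a', ha', rfl⟩ := ha
      obtain ⟨b', hb', rfl⟩ := hb
      exact hI a' ha' b' hb'
    · rwa [card_map]
  obtain ⟨f, hf1, hf2⟩ := colOn_of_large G (r ^ c) hK hlarge (r + 1) (univ.image rep) (by
    refine lt_of_le_of_lt hrc ?_
    exact Nat.pow_lt_pow_right (by norm_num) (by omega))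
  have hbound : r ^ c * (r + 1) ≤ r ^ (c + 2) := by
    rw [pow_add]
    apply Nat.mul_le_mul_left
    nlinarith
  refine ⟨SimpleGraph.Coloring.mk (fun v => (⟨f (rep v), ?_⟩ : Fin (r ^ (c + 2)))) ?_⟩
  · exact (hf1 (rep v) (mem_image_of_mem _ (mem_univ _))).trans_le hbound
  · intro u v huv heq
    rw [Fin.mk.injEq] at heq
    exact hf2 (rep u) (mem_image_of_mem _ (mem_univ _)) (rep v)
      (mem_image_of_mem _ (mem_univ _)) (hrep u v huv) heq

end

/-- No induced path with four vertices. -/
def P4free {V : Type} (G : SimpleGraph V) : Prop :=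
  ∀ a b c d, G.Adj a b → G.Adj b c → G.Adj c d → ¬ G.Adj a c → ¬ G.Adj b d → ¬ G.Adj a d → False

theorem P4free.compl {V : Type} {G : SimpleGraph V} (h : P4free G) : P4free Gᶜ := by
  intro a b c d hab hbc hcd hac hbd had
  rw [SimpleGraph.compl_adj] at hab hbc hcd hac hbd had
  push Not at hac hbd had
  have hne1 : a ≠ c := by
    rintro rfl
    exact hcd.2 (had hcd.1)
  have hne2 : b ≠ d := by
    rintro rfl
    exact hab.2 (had hab.1)
  have hne3 : a ≠ d := by
    rintro rfl
    exact hab.2 (hbd hab.1.symm).symm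
  -- the path `b d a c` in `G`
  exact h b d a c (hbd hne2) (had hne3).symm (hac hne1) (fun h' => hab.2 h'.symm)
    (fun h' => hcd.2 h'.symm) hbc.2

theorem p4free_comap {V U : Type} {G : SimpleGraph V} (h : P4free G) (u : U → V) :
    P4free (G.comap u) := by
  intro a b c d h1 h2 h3 h4 h5 h6
  exact h (u a) (u b) (u c) (u d) h1 h2 h3 h4 h5 h6

/-- A partition into two nonempty parts, with no edges or all edges between them. -/
def Splits {V : Type} [DecidableEq V] (G : SimpleGraph V) (W : Finset V) : Prop :=
  ∃ A B : Finset V, A ∪ B = W ∧ Disjoint A B ∧ A.Nonempty ∧ B.Nonempty ∧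
    ((∀ a ∈ A, ∀ b ∈ B, ¬ G.Adj a b) ∨ (∀ a ∈ A, ∀ b ∈ B, G.Adj a b))

section
variable {V : Type} [DecidableEq V]

theorem splits_core (G : SimpleGraph V) (hp : P4free G) (v : V) (A B : Finset V)
    (hvA : v ∉ A) (hvB : v ∉ B) (hAB : Disjoint A B)
    (hcross : ∀ a ∈ A, ∀ b ∈ B, ¬ G.Adj a b) (b : V) (hb : b ∈ B) (hvb : G.Adj v b)
    (y : V) (hy : y ∈ A) (hvy : ¬ G.Adj v y) : Splits G (insert v (A ∪ B)) := by
  classical
  refine ⟨A.filter (fun a => ¬ G.Adj v a), insert v (A.filter (fun a => G.Adj v a) ∪ B),
    ?_, ?_, ⟨y, mem_filter.mpr ⟨hy, hvy⟩⟩, ⟨v, mem_insert_self _ _⟩, Or.inl ?_⟩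
  · ext x
    simp only [mem_union, mem_filter, mem_insert]
    by_cases hx : G.Adj v x
    · simp only [hx]
      tauto
    · simp only [hx]
      tauto
  · rw [Finset.disjoint_left]
    intro x hx hx'
    rw [mem_filter] at hx
    rw [mem_insert, mem_union, mem_filter] at hx'
    rcases hx' with rfl | hx' | hx'
    · exact hvA hx.1
    · exact hx.2 hx'.2
    · exact Finset.disjoint_left.mp hAB hx.1 hx'
  · intro a ha z hz hadj
    rw [mem_filter] at ha
    rw [mem_insert, mem_union, mem_filter] at hz
    rcases hz with rfl | hz | hz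
    · exact ha.2 hadj.symm
    · -- `b v z a`
      exact hp b v z a hvb.symm hz.2 hadj.symm
        (fun h => hcross z hz.1 b hb h.symm) ha.2 (fun h => hcross a ha.1 b hb h.symm)
    · exact hcross a ha.1 z hz hadj

theorem splits_insert (G : SimpleGraph V) (hp : P4free G) (v : V) (A B : Finset V)
    (hvA : v ∉ A) (hvB : v ∉ B) (hAB : Disjoint A B) (hA : A.Nonempty) (hB : B.Nonempty)
    (hcross : ∀ a ∈ A, ∀ b ∈ B, ¬ G.Adj a b) : Splits G (insert v (A ∪ B)) := by
  classical
  by_cases h1 : ∀ a ∈ A, ¬ G.Adj v a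
  · refine ⟨A, insert v B, ?_, ?_, hA, ⟨v, mem_insert_self _ _⟩, Or.inl ?_⟩
    · rw [union_insert]
    · rw [Finset.disjoint_insert_right]
      exact ⟨hvA, hAB⟩
    · intro a ha z hz hadj
      rw [mem_insert] at hz
      rcases hz with rfl | hz
      · exact h1 a ha hadj.symm
      · exact hcross a ha z hz hadj
  · by_cases h2 : ∀ b ∈ B, ¬ G.Adj v b
    · refine ⟨insert v A, B, ?_, ?_, ⟨v, mem_insert_self _ _⟩, hB, Or.inl ?_⟩
      · rw [insert_union]
      · rw [Finset.disjoint_insert_left]
        exact ⟨hvB, hAB⟩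
      · intro a ha z hz hadj
        rw [mem_insert] at ha
        rcases ha with rfl | ha
        · exact h2 z hz hadj
        · exact hcross a ha z hz hadj
    · push Not at h1 h2
      obtain ⟨a, ha, hva⟩ := h1
      obtain ⟨b, hb, hvb⟩ := h2
      by_cases h3 : ∀ x ∈ A ∪ B, G.Adj v x
      · refine ⟨{v}, A ∪ B, ?_, ?_, ⟨v, mem_singleton_self _⟩, hA.mono subset_union_left,
          Or.inr ?_⟩
        · rw [singleton_union]
        · rw [Finset.disjoint_singleton_left, mem_union]
          tauto
        · intro x hx z hz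
          rw [mem_singleton] at hx
          rw [hx]
          exact h3 z hz
      · push Not at h3
        obtain ⟨y, hy, hvy⟩ := h3
        rw [mem_union] at hy
        rcases hy with hy | hy
        · exact splits_core G hp v A B hvA hvB hAB hcross b hb hvb y hy hvy
        · rw [union_comm]
          exact splits_core G hp v B A hvB hvA hAB.symm
            (fun x hx z hz h => hcross z hz x hx h.symm) a ha hva y hy hvy

theorem p4_splits (G : SimpleGraph V) (hp : P4free G) (n : ℕ) :
    ∀ W : Finset V, W.card = n + 2 → Splits G W := by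
  classical
  induction n with
  | zero =>
    intro W hW
    rw [zero_add, card_eq_two] at hW
    obtain ⟨x, y, hxy, rfl⟩ := hW
    refine ⟨{x}, {y}, rfl, ?_, ⟨x, mem_singleton_self _⟩, ⟨y, mem_singleton_self _⟩, ?_⟩
    · rw [Finset.disjoint_singleton]; exact hxy
    · by_cases h : G.Adj x y
      · right
        intro a ha b hb
        rw [mem_singleton] at ha hb
        rw [ha, hb]; exact h
      · left
        intro a ha b hb
        rw [mem_singleton] at ha hb
        rw [ha, hb]; exact h
  | succ n ih =>
    intro W hW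
    obtain ⟨v, hv⟩ : W.Nonempty := card_pos.mp (by omega)
    obtain ⟨A, B, hAB, hdis, hA, hB, hcr⟩ := ih (W.erase v) (by
      rw [card_erase_of_mem hv]; omega)
    have hWv : W = insert v (A ∪ B) := by rw [hAB, insert_erase hv]
    have hvAB : v ∉ A ∪ B := by rw [hAB]; exact notMem_erase _ _
    rw [mem_union] at hvAB
    push Not at hvAB
    rw [hWv]
    rcases hcr with hcr | hcr
    · exact splits_insert G hp v A B hvAB.1 hvAB.2 hdis hA hB hcr
    · obtain ⟨A', B', h1, h2, h3, h4, h5⟩ := splits_insert Gᶜ hp.compl v A B hvAB.1 hvAB.2 hdis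
        hA hB (by
        intro a ha b hb h
        rw [SimpleGraph.compl_adj] at h
        exact h.2 (hcr a ha b hb))
      refine ⟨A', B', h1, h2, h3, h4, ?_⟩
      have hne : ∀ a ∈ A', ∀ b ∈ B', a ≠ b := by
        rintro a ha b hb rfl
        exact Finset.disjoint_left.mp h2 ha hb
      rcases h5 with h5 | h5
      · right
        intro a ha b hb
        have := h5 a ha b hb
        rw [SimpleGraph.compl_adj] at this
        push Not at this
        exact this (hne a ha b hb)
      · left
        intro a ha b hb h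
        have := h5 a ha b hb
        rw [SimpleGraph.compl_adj] at this
        exact this.2 h

/-- Cographs are perfect, in the form needed. -/
theorem p4_perfect (G : SimpleGraph V) (hp : P4free G) (n : ℕ) :
    ∀ W : Finset V, W.card ≤ n → ∃ I ⊆ W, ∃ Q ⊆ W, Indep G I ∧
      (∀ u ∈ Q, ∀ v ∈ Q, u ≠ v → G.Adj u v) ∧ W.card ≤ I.card * Q.card := by
  classical
  induction n with
  | zero =>
    intro W hW
    refine ⟨∅, empty_subset _, ∅, empty_subset _, ?_, ?_, ?_⟩
    · intro u hu; simp at hu
    · intro u hu; simp at hu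
    · simpa using hW
  | succ n ih =>
    intro W hW
    rcases Nat.lt_or_ge W.card 2 with hlt | hge
    · refine ⟨W, Subset.refl _, W, Subset.refl _, ?_, ?_, ?_⟩
      · intro u hu v hv
        have : u = v := card_le_one.mp (by omega) u hu v hv
        rw [this]
        exact G.loopless.irrefl _
      · intro u hu v hv huv
        exact absurd (card_le_one.mp (by omega) u hu v hv) huv
      · nlinarith
    · obtain ⟨A, B, hAB, hdis, hA, hB, hcr⟩ := p4_splits G hp (W.card - 2) W (by omega)
      have hcard : A.card + B.card = W.card := by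
        rw [← hAB, card_union_of_disjoint hdis]
      have hA0 := hA.card_pos
      have hB0 := hB.card_pos
      obtain ⟨I₁, hI₁A, Q₁, hQ₁A, hI₁, hQ₁, h₁⟩ := ih A (by omega)
      obtain ⟨I₂, hI₂B, Q₂, hQ₂B, hI₂, hQ₂, h₂⟩ := ih B (by omega)
      have hAW : A ⊆ W := by rw [← hAB]; exact subset_union_left
      have hBW : B ⊆ W := by rw [← hAB]; exact subset_union_right
      rcases hcr with hcr | hcr
      · -- no edges: the union of the independent sets and the larger clique
        have hI : Indep G (I₁ ∪ I₂) := by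
          intro u hu v hv
          rw [mem_union] at hu hv
          rcases hu with hu | hu <;> rcases hv with hv | hv
          · exact hI₁ u hu v hv
          · exact hcr u (hI₁A hu) v (hI₂B hv)
          · exact fun h => hcr v (hI₁A hv) u (hI₂B hu) h.symm
          · exact hI₂ u hu v hv
        have hIc : (I₁ ∪ I₂).card = I₁.card + I₂.card :=
          card_union_of_disjoint (disjoint_of_subset_left hI₁A (disjoint_of_subset_right hI₂B hdis))
        have hIW : I₁ ∪ I₂ ⊆ W := union_subset (hI₁A.trans hAW) (hI₂B.trans hBW)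
        rcases le_total Q₁.card Q₂.card with hle | hle
        · refine ⟨I₁ ∪ I₂, hIW, Q₂, hQ₂B.trans hBW, hI, hQ₂, ?_⟩
          rw [hIc, ← hcard]
          nlinarith
        · refine ⟨I₁ ∪ I₂, hIW, Q₁, hQ₁A.trans hAW, hI, hQ₁, ?_⟩
          rw [hIc, ← hcard]
          nlinarith
      · -- all edges
        have hQ : ∀ u ∈ Q₁ ∪ Q₂, ∀ v ∈ Q₁ ∪ Q₂, u ≠ v → G.Adj u v := by
          intro u hu v hv huv
          rw [mem_union] at hu hv
          rcases hu with hu | hu <;> rcases hv with hv | hv
          · exact hQ₁ u hu v hv huv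
          · exact hcr u (hQ₁A hu) v (hQ₂B hv)
          · exact (hcr v (hQ₁A hv) u (hQ₂B hu)).symm
          · exact hQ₂ u hu v hv huv
        have hQc : (Q₁ ∪ Q₂).card = Q₁.card + Q₂.card :=
          card_union_of_disjoint (disjoint_of_subset_left hQ₁A (disjoint_of_subset_right hQ₂B hdis))
        have hQW : Q₁ ∪ Q₂ ⊆ W := union_subset (hQ₁A.trans hAW) (hQ₂B.trans hBW)
        rcases le_total I₁.card I₂.card with hle | hle
        · refine ⟨I₂, hI₂B.trans hBW, Q₁ ∪ Q₂, hQW, hI₂, hQ, ?_⟩
          rw [hQc, ← hcard]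
          nlinarith
        · refine ⟨I₁, hI₁A.trans hAW, Q₁ ∪ Q₂, hQW, hI₁, hQ, ?_⟩
          rw [hQc, ← hcard]
          nlinarith

end

theorem p4free_of_isEmpty {V : Type} (G : SimpleGraph V)
    (h : IsEmpty (SimpleGraph.pathGraph 4 ↪g G)) : P4free G := by
  intro a b c d hab hbc hcd hac hbd had
  have h1 : a ≠ b := hab.ne
  have h2 : b ≠ c := hbc.ne
  have h3 : c ≠ d := hcd.ne
  have h4 : a ≠ c := by rintro rfl; exact had hcd
  have h5 : b ≠ d := by rintro rfl; exact had hab
  have h6 : a ≠ d := by rintro rfl; exact hac hcd.symm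
  apply h.false
  have hac' : ¬ G.Adj c a := fun h => hac h.symm
  have hbd' : ¬ G.Adj d b := fun h => hbd h.symm
  have had' : ¬ G.Adj d a := fun h => had h.symm
  have key : ∀ i j : Fin 4, G.Adj ((![a, b, c, d] : Fin 4 → V) i)
      ((![a, b, c, d] : Fin 4 → V) j) ↔ (SimpleGraph.pathGraph 4).Adj i j := by
    intro i j
    rw [SimpleGraph.pathGraph_adj]
    fin_cases i <;> fin_cases j <;>
      simp [hab, hbc, hcd, hac, hbd, had, hac', hbd', had', hab.symm, hbc.symm, hcd.symm]
  refine ⟨⟨![a, b, c, d], ?_⟩, fun {i j} => key i j⟩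
  intro i j hij
  fin_cases i <;> fin_cases j <;> simp_all

/-- The path with four vertices is tame. -/
theorem ph_path4 : PH (SimpleGraph.pathGraph 4) 2 := by
  classical
  intro V _ _ G _ r hr2 hr hemp
  obtain ⟨I, _, Q, _, hI, hQ, hc⟩ := p4_perfect G (p4free_of_isEmpty G hemp) _ univ le_rfl
  refine ⟨I, hI, ?_⟩
  rw [card_univ] at hc
  have h1 := card_of_indep_free G r hr (by omega) 1 Q (by
    intro T hTQ hT
    rw [card_le_one]
    intro a ha b hb
    by_contra hab
    exact hT a ha b hb (hQ a (hTQ ha) b (hTQ hb) hab))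
  have h2 : Q.card ≤ r ^ 2 := by
    rw [pow_one] at h1
    nlinarith
  calc Fintype.card V ≤ I.card * Q.card := hc
    _ ≤ I.card * r ^ 2 := Nat.mul_le_mul_left _ h2
    _ = r ^ 2 * I.card := mul_comm _ _

end Pool.TH815.LS
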