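import Pool.Agent.TH815.LS4

/-!
# Tame graphs
-/

set_option autoImplicit false
set_option linter.unusedSectionVars false

namespace Pool.TH815.LS

open Finset Matrix Pool.TH815.LR

theorem ph_repl {ι κ : Type} [Fintype ι] [Fintype κ] [Nonempty κ] (H : SimpleGraph ι) (v : ι)
    (F : SimpleGraph κ) (c₁ c₂ : ℕ) (h1 : PH H c₁) (h2 : PH F c₂) :
    ∃ c, PH (repl H v F) c := by
  classical
  exact ⟨_, ph_of_ab _ _ (ab_repl H v F _ _ (ab_of_ph H c₁ h1) (ab_of_ph F c₂ h2))⟩

theorem ph_small {ι : Type} [Fintype ι] (H : SimpleGraph ι) (h : Fintype.card ι ≤ 1) :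
    PH H 0 := by
  intro V _ _ G _ r _ _ hemp
  refine ⟨∅, ?_, ?_⟩
  · intro u hu; simp at hu
  · by_contra hcon
    rw [card_empty, mul_zero, not_le, Fintype.card_pos_iff] at hcon
    obtain ⟨v⟩ := hcon
    have hss : Subsingleton ι := Fintype.card_le_one_iff_subsingleton.mp h
    apply hemp.false
    refine ⟨⟨fun _ => v, fun a b _ => Subsingleton.elim a b⟩, ?_⟩
    intro a b
    have hab : a = b := Subsingleton.elim a b
    rw [hab]
    exact ⟨fun h' => absurd h' (G.loopless.irrefl _), fun h' => absurd h' (H.loopless.irrefl _)⟩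

theorem ph_bot : PH (⊥ : SimpleGraph Bool) 2 := by
  classical
  intro V _ _ G _ r hr2 hr hemp
  have hadj : ∀ u v : V, u ≠ v → G.Adj u v := by
    intro u v huv
    by_contra hn
    apply hemp.false
    have hn' : ¬ G.Adj v u := fun h => hn h.symm
    have key : ∀ a b : Bool, G.Adj (bif a then u else v) (bif b then u else v) ↔
        (⊥ : SimpleGraph Bool).Adj a b := by
      intro a b
      cases a <;> cases b <;> simp [hn, hn']
    refine ⟨⟨fun b => bif b then u else v, ?_⟩, fun {a b} => key a b⟩
    intro a b hab
    cases a <;> cases b <;> simp_all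
  by_cases hV : Nonempty V
  · obtain ⟨v⟩ := hV
    refine ⟨{v}, ?_, ?_⟩
    · intro a ha b hb
      rw [mem_singleton] at ha hb
      rw [ha, hb]
      exact G.loopless.irrefl _
    · have h1 := card_of_indep_free G r hr (by omega) 1 univ (by
        intro T _ hT
        rw [card_le_one]
        intro a ha b hb
        by_contra hab
        exact hT a ha b hb (hadj a b hab))
      rw [card_univ, pow_one] at h1
      rw [card_singleton, mul_one]
      nlinarith
  · have : IsEmpty V := not_nonempty_iff.mp hV
    refine ⟨∅, ?_, ?_⟩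
    · intro u hu; simp at hu
    · simp

theorem ph_top : PH (⊤ : SimpleGraph Bool) 0 := by
  classical
  intro V _ _ G _ r hr2 hr hemp
  have hadj : ∀ u v : V, ¬ G.Adj u v := by
    intro u v huv
    have hne := huv.ne
    apply hemp.false
    have key : ∀ a b : Bool, G.Adj (bif a then u else v) (bif b then u else v) ↔
        (⊤ : SimpleGraph Bool).Adj a b := by
      intro a b
      cases a <;> cases b <;> simp [huv, huv.symm]
    refine ⟨⟨fun b => bif b then u else v, ?_⟩, fun {a b} => key a b⟩
    intro a b hab
    cases a <;> cases b <;> simp_all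
  exact ⟨univ, fun u _ v _ => hadj u v, by simp⟩

theorem ph_of_p4free (n : ℕ) : ∀ (ι : Type) [Fintype ι] (H : SimpleGraph ι),
    Fintype.card ι ≤ n → P4free H → ∃ c, PH H c := by
  classical
  induction n with
  | zero =>
    intro ι _ H hc _
    exact ⟨0, ph_small H (by omega)⟩
  | succ n ih =>
    intro ι _ H hc hp
    rcases Nat.lt_or_ge (Fintype.card ι) 2 with hlt | hge
    · exact ⟨0, ph_small H (by omega)⟩
    · obtain ⟨A, B, hAB, hdis, hA, hB, hcr⟩ := p4_splits H hp (Fintype.card ι - 2) univ (by
        rw [card_univ]; omega)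
      have hcard : A.card + B.card = Fintype.card ι := by
        rw [← card_univ, ← hAB, card_union_of_disjoint hdis]
      have hA0 := hA.card_pos
      have hB0 := hB.card_pos
      obtain ⟨cA, hPA⟩ := ih A (H.comap (fun a : A => (a : ι))) (by
        rw [Fintype.card_coe]; omega) (p4free_comap hp _)
      obtain ⟨cB, hPB⟩ := ih B (H.comap (fun a : B => (a : ι))) (by
        rw [Fintype.card_coe]; omega) (p4free_comap hp _)
      have neA : Nonempty A := ⟨⟨_, hA.choose_spec⟩⟩
      have neB : Nonempty B := ⟨⟨_, hB.choose_spec⟩⟩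
      have hmem : ∀ i, i ∉ A → i ∈ B := by
        intro i hi
        have : i ∈ A ∪ B := by rw [hAB]; exact mem_univ _
        rw [mem_union] at this
        tauto
      have main : ∀ (K : SimpleGraph Bool) (cK : ℕ), PH K cK →
          (∀ a ∈ A, ∀ b ∈ B, H.Adj a b ↔ K.Adj true false) → ∃ c, PH H c := by
        intro K cK hPK hK
        obtain ⟨c₁, h₁⟩ := ph_repl K true (H.comap (fun a : A => (a : ι))) cK cA hPK hPA
        set w₀ : {i : Bool // i ≠ true} ⊕ A := Sum.inl ⟨false, by simp⟩ with hw₀
        obtain ⟨c₂, h₂⟩ := ph_repl (repl K true (H.comap (fun a : A => (a : ι)))) w₀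
          (H.comap (fun a : B => (a : ι))) c₁ cB h₁ hPB
        refine ⟨c₂, ph_of_embedding H _ ?_ c₂ h₂⟩
        have hne : ∀ x : A, (Sum.inr x : {i : Bool // i ≠ true} ⊕ A) ≠ w₀ := by
          intro x hx
          rw [hw₀] at hx
          exact absurd hx (by simp)
        set g : ι → ({x : {i : Bool // i ≠ true} ⊕ A // x ≠ w₀} ⊕ B) := fun i =>
          if h : i ∈ A then Sum.inl ⟨Sum.inr ⟨i, h⟩, hne _⟩ else Sum.inr ⟨i, hmem i h⟩ with hg
        have gA : ∀ i (h : i ∈ A), g i = Sum.inl ⟨Sum.inr ⟨i, h⟩, hne _⟩ := fun i h => dif_pos h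
        have gB : ∀ i (h : i ∉ A), g i = Sum.inr ⟨i, hmem i h⟩ := fun i h => dif_neg h
        have ginj : Function.Injective g := by
          intro i j hij
          by_cases hi : i ∈ A <;> by_cases hj : j ∈ A
          · rw [gA i hi, gA j hj, Sum.inl.injEq, Subtype.mk.injEq, Sum.inr.injEq,
              Subtype.mk.injEq] at hij
            exact hij
          · rw [gA i hi, gB j hj] at hij
            exact absurd hij (by simp)
          · rw [gB i hi, gA j hj] at hij
            exact absurd hij (by simp)
          · rw [gB i hi, gB j hj, Sum.inr.injEq, Subtype.mk.injEq] at hij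
            exact hij
        have gadj : ∀ i j, (repl (repl K true (H.comap (fun a : A => (a : ι)))) w₀
            (H.comap (fun a : B => (a : ι)))).Adj (g i) (g j) ↔ H.Adj i j := by
          intro i j
          by_cases hi : i ∈ A <;> by_cases hj : j ∈ A
          · rw [gA i hi, gA j hj]
            exact Iff.rfl
          · rw [gA i hi, gB j hj]
            exact (hK i hi j (hmem j hj)).symm
          · rw [gB i hi, gA j hj]
            have := hK j hj i (hmem i hi)
            rw [H.adj_comm, K.adj_comm] at this
            exact this.symm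
          · rw [gB i hi, gB j hj]
            exact Iff.rfl
        exact ⟨⟨g, ginj⟩, fun {i j} => gadj i j⟩
      rcases hcr with hcr | hcr
      · exact main ⊥ 2 ph_bot (fun a ha b hb => by simp [hcr a ha b hb])
      · exact main ⊤ 0 ph_top (fun a ha b hb => by simp [hcr a ha b hb])

theorem ph_of_card_le_four (ι : Type) [Fintype ι] (H : SimpleGraph ι)
    (h : Fintype.card ι ≤ 4) : ∃ c, PH H c := by
  classical
  by_cases hp : IsEmpty (SimpleGraph.pathGraph 4 ↪g H)
  · exact ph_of_p4free _ ι H h (p4free_of_isEmpty H hp)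
  · rw [not_isEmpty_iff] at hp
    obtain ⟨e⟩ := hp
    have hbij : Function.Bijective e := by
      rw [Fintype.bijective_iff_injective_and_card]
      refine ⟨e.injective, ?_⟩
      have := Fintype.card_le_of_injective e e.injective
      rw [Fintype.card_fin] at this ⊢
      omega
    have e' : H ↪g SimpleGraph.pathGraph 4 :=
      (RelIso.ofSurjective e hbij.2).symm.toRelEmbedding
    exact ⟨2, ph_of_embedding H _ e' 2 ph_path4⟩

/-- From colourings to independent sets. -/
theorem indep_of_colorable {V : Type} [Fintype V] [DecidableEq V] (G : SimpleGraph V) (q : ℕ)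
    (h : G.Colorable q) : ∃ I : Finset V, Indep G I ∧ Fintype.card V ≤ q * I.card := by
  classical
  obtain ⟨C⟩ := h
  by_cases hV : Nonempty V
  · have hq : (univ : Finset (Fin q)).Nonempty := ⟨C hV.some, mem_univ _⟩
    obtain ⟨k, -, hk⟩ := exists_max_image (univ : Finset (Fin q))
      (fun k => (univ.filter (fun v => C v = k)).card) hq
    refine ⟨univ.filter (fun v => C v = k), ?_, ?_⟩
    · intro u hu v hv huv
      rw [mem_filter] at hu hv
      exact C.valid huv (hu.2.trans hv.2.symm)
    · rw [← card_univ, card_eq_sum_card_fiberwise (f := C) (t := (univ : Finset (Fin q)))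
        (fun v _ => mem_coe.mpr (mem_univ _))]
      calc ∑ b : Fin q, (univ.filter (fun v => C v = b)).card
          ≤ ∑ _b : Fin q, (univ.filter (fun v => C v = k)).card :=
            sum_le_sum fun b _ => hk b (mem_univ _)
        _ = _ := by rw [sum_const, smul_eq_mul, card_univ, Fintype.card_fin]
  · have : IsEmpty V := not_nonempty_iff.mp hV
    refine ⟨∅, ?_, ?_⟩
    · intro u hu; simp at hu
    · simp

end Pool.TH815.LS
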